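import Mathlib

/-!
Project ND (helper46), elimination part: statements with complete proofs.

`m ≥ 1` affine variables `x_1, ..., x_m` (`Fin m`) and homogeneous variables `x_0, ..., x_m`
(`Fin (m+1)`), degree `d ≥ 3`.
-/

set_option autoImplicit false

open MvPolynomial

namespace Pool.Agent.Q46.ND

/-- Exponent vectors with all entries at most `d - 2`. -/
abbrev BB (m d : ℕ) : Type := Fin m → Fin (d - 1)

/-- The monomial of an exponent vector. -/
noncomputable def mon {A : Type} [CommRing A] {m d : ℕ} (β : BB m d) : MvPolynomial (Fin m) A :=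
  ∏ i, X i ^ (β i : ℕ)

/-- The monomials of degree `d` in the variables `x_0, ..., x_m`. -/
abbrev Mon (m d : ℕ) : Type := {α : Fin (m + 1) →₀ ℕ // α.degree = d}

instance (m d : ℕ) : Finite (Mon m d) := by
  refine Finite.of_injective
    (fun (α : Mon m d) (i : Fin (m + 1)) =>
      (⟨α.1 i, Nat.lt_succ_of_le ((Finsupp.le_degree i α.1).trans α.2.le)⟩ : Fin (d + 1))) ?_
  intro α β h
  apply Subtype.ext
  ext i
  exact congrArg Fin.val (congrFun h i)

noncomputable instance (m d : ℕ) : Fintype (Mon m d) := Fintype.ofFinite _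

/-- The monomial `x_0 ^ d`. -/
noncomputable def v0 (m d : ℕ) : Mon m d := ⟨Finsupp.single 0 d, by simp⟩

/-- The form with the coefficients `a`. -/
noncomputable def form {A : Type} [CommRing A] {m d : ℕ} (a : Mon m d → A) :
    MvPolynomial (Fin (m + 1)) A :=
  ∑ α, monomial α.1 (a α)

/-- Put `x_0 = 1`. -/
noncomputable def aff {A : Type} [CommRing A] {m : ℕ} (f : MvPolynomial (Fin (m + 1)) A) :
    MvPolynomial (Fin m) A :=
  aeval (Fin.cons 1 X : Fin (m + 1) → MvPolynomial (Fin m) A) f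

/-- Homogeneous reduction: `δ G` is the sum of an element of the ideal of the partial derivatives
of `Φ` and a combination of the monomials `mon β`, in a homogeneous way. -/
def RedHom {A : Type} [CommRing A] {m : ℕ} (d : ℕ) (Φ : MvPolynomial (Fin m) A) (δ : A) : Prop :=
  ∀ (e : ℕ) (G : MvPolynomial (Fin m) A), G.IsHomogeneous e →
    ∃ (g : Fin m → MvPolynomial (Fin m) A) (c : BB m d → A),
      C δ * G = ∑ i, g i * pderiv i Φ + ∑ β, C (c β) * mon β ∧
      (∀ i, (g i).IsHomogeneous (e - (d - 1))) ∧ (e < d - 1 → ∀ i, g i = 0) ∧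
      ∀ β, ∑ i, (β i : ℕ) ≠ e → c β = 0

/-- The matrix `M` describes the multiplication by `u F` modulo the partial derivatives of `F`. -/
def MulRel {A : Type} [CommRing A] {m d : ℕ} (F : MvPolynomial (Fin m) A) (u : A)
    (M : Matrix (BB m d) (BB m d) A) : Prop :=
  ∀ β, C u * F * mon β - ∑ β', C (M β β') * mon β' ∈
    Ideal.span (Set.range fun i => pderiv i F)

/-- The polynomial `det (T u + M)`. -/
noncomputable def chi {A : Type} [CommRing A] {m d : ℕ} (u : A) (M : Matrix (BB m d) (BB m d) A) :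
    Polynomial A :=
  Matrix.det (((Polynomial.C u * Polynomial.X) • (1 : Matrix (BB m d) (BB m d) (Polynomial A))) +
    M.map Polynomial.C)

/-- Over every extension field the only possible singular point of `f = 0` is `b`, and it is
nondegenerate if it is one. -/
def LonePt {k : Type} [Field k] {m : ℕ} (f : MvPolynomial (Fin (m + 1)) k) : Prop :=
  ∃ b : Fin (m + 1) → k, b 0 = 1 ∧
    (∀ (k₁ : Type) [Field k₁] (ψ : k →+* k₁) (v : Fin (m + 1) → k₁), v ≠ 0 →
      (∀ j, eval v (map ψ (pderiv j f)) = 0) → eval v (map ψ f) = 0 →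
      ∀ j, v j = v 0 * ψ (b j)) ∧
    ((∀ j, eval b (pderiv j f) = 0) → eval b f = 0 →
      Matrix.det (Matrix.of fun i j : {j : Fin (m + 1) // j ≠ 0} =>
        eval b (pderiv i.1 (pderiv j.1 f))) ≠ 0)

/-- Over every extension field `f = 0` has no singular point. -/
def NoSing {k : Type} [Field k] {m : ℕ} (f : MvPolynomial (Fin (m + 1)) k) : Prop :=
  ∀ (k₁ : Type) [Field k₁] (ψ : k →+* k₁) (v : Fin (m + 1) → k₁), v ≠ 0 →
    (∀ j, eval v (map ψ (pderiv j f)) = 0) → eval v (map ψ f) ≠ 0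

/-- Modulo `𝔭` the hypersurface `f = 0` has at most one singular point, it is `b`, and it is
nondegenerate. -/
def LoneNode {O : Type} [CommRing O] (𝔭 : Ideal O) {m : ℕ} (f : MvPolynomial (Fin (m + 1)) O) :
    Prop :=
  ∃ b : Fin (m + 1) → O, b 0 = 1 ∧
    (∀ (k₁ : Type) [Field k₁] (ψ : O →+* k₁), RingHom.ker ψ = 𝔭 → ∀ v : Fin (m + 1) → k₁, v ≠ 0 →
      (∀ j, eval v (map ψ (pderiv j f)) = 0) → eval v (map ψ f) = 0 →
      ∀ j, v j = v 0 * ψ (b j)) ∧
    ((∀ j, eval b (pderiv j f) ∈ 𝔭) → eval b f ∈ 𝔭 →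
      Matrix.det (Matrix.of fun i j : {j : Fin (m + 1) // j ≠ 0} =>
        eval b (pderiv i.1 (pderiv j.1 f))) ∉ 𝔭)

/-- EA (MINORS). If a matrix `A` over `T` becomes surjective over the field `k` then for some
`δ ∈ T` with nonzero image all multiples of `δ` are in the image of `A`.
Proof. The columns of `A.map s` span `k^q`; choose among them a basis: an injection `f : q → p`
such that `(A.map s).submatrix id f` is invertible
(`exists_linearIndependent`/`Module.Basis` from a spanning family, then a bijection with `q` by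
counting). Let `B = A.submatrix id f` and `δ = det B`; `s δ = det (B.map s) ≠ 0`. Given `v` let
`w = B.adjugate.mulVec v`, so `B.mulVec w = δ • v`, and extend `w` by zero outside the image of `f`. -/
def P_EA : Prop := ∀ {T k p q : Type} [CommRing T] [Field k] [Fintype p] [Fintype q]
  (s : T →+* k) (A : Matrix q p T),
  (∀ v : q → k, ∃ u : p → k, (A.map s).mulVec u = v) →
  ∃ δ : T, s δ ≠ 0 ∧ ∀ v : q → T, ∃ u : p → T, A.mulVec u = δ • v

/-- EB (GENERIC HOMOGENEOUS REDUCTION). If `Φ` becomes the Fermat form `∑ X_i^d` over the field `k`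
in which `d ≠ 0`, then `RedHom d Φ δ` for some `δ` with nonzero image.
Proof. Fix a degree `e`. The free `T`-module of the homogeneous polynomials of degree `e` has the
basis of the monomials of degree `e`. Consider the `T`-linear map
`(g, c) ↦ ∑ g_i ∂_iΦ + ∑_β c_β mon β`, where the `g_i` are homogeneous of degree `e - (d-1)` (absent
if `e < d - 1`) and `β` runs over the elements of `BB m d` of degree `e`; it is given by a matrix.
Over `k` it is surjective: a monomial `x^α` of degree `e` with `α_i ≥ d - 1` for some `i` is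
`(1/d) (x^α / x_i^(d-1)) ∂_i(∑ X_j^d)`, the others are `mon β`. EA gives `δ_e`.
Let `e₁ = m (d - 2) + 1` and `δ = ∏_{e ≤ e₁} δ_e`. For `e ≤ e₁` the claim holds (multiply the
solution by the other factors). No `β ∈ BB m d` has degree `e₁`. For `e > e₁` write `G` as the sum
of its monomials, each of them is a monomial of degree `e₁` times a monomial of degree `e - e₁`;
multiply the relations of degree `e₁` (with all `c_β = 0`) by the latter and add up. -/
def P_EB : Prop := ∀ {T k : Type} [CommRing T] [Field k] {m d : ℕ}, 2 ≤ d → (d : k) ≠ 0 →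
  ∀ (s : T →+* k) (Φ : MvPolynomial (Fin m) T), Φ.IsHomogeneous d →
  map s Φ = ∑ i, X i ^ d → ∃ δ : T, s δ ≠ 0 ∧ RedHom d Φ δ

/-- EC (REDUCTION). If `F - Φ` has degree less than `d`, `Φ` homogeneous of degree `d`, and
`RedHom d Φ δ`, then for every polynomial `G` some `δ^N G` is modulo the partial derivatives of `F`
a combination of the `mon β`.
Proof. Strong induction on the degree of `G`. Let `e` be the total degree of `G` and `G_e` its
homogeneous component (`homogeneousComponent e G`). Take `g, c` for `G_e`. Then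
`δ G = δ (G - G_e) + ∑ g_i ∂_iF - ∑ g_i ∂_i(F - Φ) + ∑ c_β mon β`. The polynomial
`G' = δ (G - G_e) - ∑ g_i ∂_i(F - Φ)` is zero or has degree less than `e`: `g_i` is homogeneous of
degree `e - (d-1)`, zero if `e < d - 1`, and `∂_i(F - Φ)` has degree at most `d - 2`. (If `e = 0`
then `G' = 0`.) Apply the induction hypothesis to `G'` and multiply by powers of `δ`. -/
def P_EC : Prop := ∀ {A : Type} [CommRing A] {m d : ℕ}, 2 ≤ d → ∀ (F Φ : MvPolynomial (Fin m) A)
  (δ : A), Φ.IsHomogeneous d → (F - Φ).totalDegree < d → RedHom d Φ δ →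
  ∀ G : MvPolynomial (Fin m) A, ∃ (N : ℕ) (c : BB m d → A),
    C (δ ^ N) * G - ∑ β, C (c β) * mon β ∈ Ideal.span (Set.range fun i => pderiv i F)

/-- ED (MULTIPLICATION MATRIX). In the situation of EC there are `N` and a matrix `M` with
`MulRel F (δ^N) M`.
Proof. EC for the finitely many `F * mon β`, with a common `N` (multiply by powers of `δ`). -/
def P_ED : Prop := ∀ {A : Type} [CommRing A] {m d : ℕ}, 2 ≤ d → ∀ (F Φ : MvPolynomial (Fin m) A)
  (δ : A), Φ.IsHomogeneous d → (F - Φ).totalDegree < d → RedHom d Φ δ →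
  ∃ (N : ℕ) (M : Matrix (BB m d) (BB m d) A), MulRel F (δ ^ N) M

/-- EE0 (BASE CHANGE OF THE REDUCTION). `RedHom d Φ δ` implies `RedHom d (map φ Φ) (φ δ)`.
Proof. A homogeneous `G` of degree `e` over `B` is a combination with coefficients in `B` of
monomials of degree `e`. Apply `map φ` to the relations for these monomials over `A` and add up
with the coefficients (`map φ (pderiv i Φ) = pderiv i (map φ Φ)`, `map φ (mon β) = mon β`,
homogeneity is preserved by `map`, by sums and by multiplication with constants). -/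
def P_EE0 : Prop := ∀ {A B : Type} [CommRing A] [CommRing B] (φ : A →+* B) {m d : ℕ}
  (Φ : MvPolynomial (Fin m) A) (δ : A), RedHom d Φ δ → RedHom d (map φ Φ) (φ δ)

/-- EE (BASE CHANGE). `MulRel` and `chi` are compatible with ring homomorphisms: (1) `MulRel F u M` implies `MulRel (map φ F) (φ u) (M.map φ)`;
(2) `chi (φ u) (M.map φ) = (chi u M).map φ`; (3) the value of `chi u M` at `c` is
`det (u c + M)`; (4) `chi u M` has degree at most `card (BB m d)`, and the coefficient in this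
degree is `u ^ card (BB m d)`.
Proof. (1) apply `map φ` to the relations (`pderiv_map`, `Ideal.mem_map_of_mem`, `Ideal.map_span`).
(2), (3) `RingHom.map_det`. (4) as for the characteristic polynomial
(`Matrix.charpoly_natDegree_eq_dim`, `Matrix.natDegree_det_X_add_C_le`,
`Matrix.coeff_det_X_add_C_card`: `det (X • A + B)` has the coefficient `det A` in degree `n`,
with `A = u • 1`). -/
def P_EE : Prop := ∀ {A B : Type} [CommRing A] [CommRing B] (φ : A →+* B) {m d : ℕ}
  (F : MvPolynomial (Fin m) A) (u : A) (M : Matrix (BB m d) (BB m d) A),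
  (MulRel F u M → MulRel (map φ F) (φ u) (M.map φ)) ∧
  chi (φ u) (M.map φ) = (chi u M).map φ ∧
  (∀ c, (chi u M).eval c = Matrix.det ((u * c) • (1 : Matrix (BB m d) (BB m d) A) + M)) ∧
  (chi u M).natDegree ≤ Fintype.card (BB m d) ∧
  (chi u M).coeff (Fintype.card (BB m d)) = u ^ Fintype.card (BB m d)

/-- EF (KERNEL VECTORS). Let `MulRel F u M` over a field, `t` a critical point of `F`,
`F(t) + c = 0`. (1) `(u c + M) v = 0` for `v_β = (mon β)(t)`. (2) If the Hessian of `F` at `t` kills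
`w` then `(u c + M) v' = 0` for `v'_β = (D_w mon β)(t)`, `D_w = ∑ w_j ∂_j`.
Proof. There are `h_i` with `u F mon β - ∑ M_{ββ'} mon β' = ∑ h_i ∂_iF`
(`Ideal.mem_span_range_iff_exists_fun`, `Submodule.mem_ideal_span...`). (1) Evaluate at `t`:
`∑ M_{ββ'} v_β' = u F(t) v_β = - u c v_β`. (2) Apply `D_w` and evaluate at `t`:
`u (D_wF)(t) v_β + u F(t) v'_β - ∑ M_{ββ'} v'_β' = ∑ (D_wh_i)(t) ∂_iF(t) + ∑ h_i(t) (D_w∂_iF)(t) = 0`
and `D_wF(t) = 0`. -/
def P_EF : Prop := ∀ {k : Type} [Field k] {m d : ℕ} (F : MvPolynomial (Fin m) k) (u : k)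
  (M : Matrix (BB m d) (BB m d) k), MulRel F u M → ∀ (t : Fin m → k) (c : k),
  (∀ i, eval t (pderiv i F) = 0) → eval t F + c = 0 →
  ((u * c) • (1 : Matrix (BB m d) (BB m d) k) + M).mulVec (fun β => eval t (mon β)) = 0 ∧
  ∀ w : Fin m → k, (∀ i, ∑ j, w j * eval t (pderiv j (pderiv i F)) = 0) →
  ((u * c) • (1 : Matrix (BB m d) (BB m d) k) + M).mulVec
    (fun β => ∑ j, w j * eval t (pderiv j (mon β))) = 0

/-- EG (DOUBLE ROOTS). Let `u ≠ 0`, `M` a matrix over the field `k` and `ψ : k → k₁` an extension.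
(1) If `(u c + M)` kills a nonzero vector over `k₁` then `chi u M` vanishes at `c`.
(2) If it kills two linearly independent vectors over `k₁` then the derivative of `chi u M` vanishes
at `c`, too.
(3) If `chi u M` vanishes at `c` then `u c + M` kills a nonzero vector over `k`.
Proof. By EE we may pass to `k₁` (the value and the derivative are compatible with `ψ`, which is
injective). (1), (3): `Matrix.exists_mulVec_eq_zero_iff`. (2) Let `v, v'` be independent vectors in
the kernel of `N = u c + M`. Then `det (u T + M) = det (N + u (T - c))`. Let `P` be an invertible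
matrix whose first two columns (two fixed indices `a ≠ b`) are `v` and `v'` (extend to a basis).
The matrix `(N + u (T - c)) P` over `k₁[T]` has the columns `a`, `b` equal to `u (T - c) v` and
`u (T - c) v'`, so `(T - c)^2` divides its determinant, hence `chi u M`. (Or: `-u⁻¹ M` has the
eigenvalue `c` with an eigenspace of dimension at least two, and the multiplicity of a root of the
characteristic polynomial is the dimension of the generalized eigenspace
`LinearMap.finrank_maxGenEigenspace_eq`; `chi u M = u^n charpoly(-u⁻¹ M)`.) -/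
def P_EG : Prop := ∀ {k k₁ : Type} [Field k] [Field k₁] (ψ : k →+* k₁) {m d : ℕ} (u : k)
  (M : Matrix (BB m d) (BB m d) k) (c : k), u ≠ 0 →
  (∀ v : BB m d → k₁, v ≠ 0 →
    (((u * c) • (1 : Matrix (BB m d) (BB m d) k) + M).map ψ).mulVec v = 0 →
    (chi u M).eval c = 0) ∧
  (∀ v : BB m d → k₁, v ≠ 0 → ∀ v' : BB m d → k₁, (∀ l : k₁, v' ≠ l • v) →
    (((u * c) • (1 : Matrix (BB m d) (BB m d) k) + M).map ψ).mulVec v = 0 →
    (((u * c) • (1 : Matrix (BB m d) (BB m d) k) + M).map ψ).mulVec v' = 0 →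
    (Polynomial.derivative (chi u M)).eval c = 0) ∧
  ((chi u M).eval c = 0 → ∃ v : BB m d → k, v ≠ 0 ∧
    ((u * c) • (1 : Matrix (BB m d) (BB m d) k) + M).mulVec v = 0)

/-- EH (LONE CRITICAL POINT). Let `d ≥ 3`, `u ≠ 0`, `MulRel F u M` over the field `k`, and suppose
that `chi u M` and its derivative do not both vanish at `c`. Then there is `b ∈ k^m` such that over
every extension every critical point `t` of `F` with `F(t) + c = 0` is `b`; and if `b` is such a
point its Hessian determinant is not zero. Moreover, if `chi u M` does not vanish at `c` there is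
no such `t`.
Proof. Use EE, EF, EG. As `d ≥ 3` the vectors `0` and `e_i` are in `BB m d` (entry `1 < d - 1`);
`mon 0 = 1` and `mon e_i = X_i`. If `chi u M` does not vanish at `c` there is no such point `t` over
any extension (the vector `((mon β)(t))` is not zero, its entry at `0` is `1`); take `b = 0`.
Otherwise the derivative does not vanish at `c`, so by EG (2) the kernel over every extension has
no two independent vectors. By EG (3) let `w ∈ k^BB`, `w ≠ 0`, be in the kernel over `k`. Put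
`b_i = w_{e_i} / w_0`. Let `t` be such a point over `k₁`, `v_β = (mon β)(t)`. It is in the kernel
(EF (1)) and not zero, so `ψ(w) = l v` for some `l` (EG (2) with `v' = ψ w`), `l = ψ(w_0) ≠ 0`
because `w ≠ 0` and `v_0 = 1`; so `t_i = v_{e_i} = ψ(w_{e_i})/ψ(w_0) = ψ(b_i)`. Hessian: if `b` is
such a point (over `k₁ = k`) and the Hessian is singular, let `w' ≠ 0` be killed by it; EF (2)
gives the vector `v'` in the kernel, `v'_0 = 0`, `v'_{e_i} = w'_i`, which is not a multiple of `v`
(the entry at `0` gives the factor `0`, but `v' ≠ 0`), a contradiction to EG (2). (The matrix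
`of (fun i j => eval b (pderiv i (pderiv j F)))` is symmetric, `pderiv` commute:
`MvPolynomial.pderiv_pderiv_comm` or `Derivation.commute...`; use
`Matrix.exists_mulVec_eq_zero_iff`.) -/
def P_EH : Prop := ∀ {k : Type} [Field k] {m d : ℕ}, 3 ≤ d → ∀ (F : MvPolynomial (Fin m) k) (u : k)
  (M : Matrix (BB m d) (BB m d) k) (c : k), u ≠ 0 → MulRel F u M →
  ((chi u M).eval c ≠ 0 ∨ (Polynomial.derivative (chi u M)).eval c ≠ 0) →
  ∃ b : Fin m → k,
    (∀ (k₁ : Type) [Field k₁] (ψ : k →+* k₁) (t : Fin m → k₁),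
      (∀ i, eval t (map ψ (pderiv i F)) = 0) → eval t (map ψ F) + ψ c = 0 →
      (chi u M).eval c = 0 ∧ t = fun i => ψ (b i)) ∧
    ((∀ i, eval b (pderiv i F) = 0) → eval b F + c = 0 →
      Matrix.det (Matrix.of fun i j : Fin m => eval b (pderiv i (pderiv j F))) ≠ 0)

/-- EI (INFINITY). Let `RedHom d Φ δ` over a field, `δ ≠ 0`. Over every extension the partial
derivatives of `Φ` have no common zero but `0`.
Proof. Let `e = m (d - 2) + 1`; no `β` has degree `e` (each entry is at most `d - 2`), so `δ X_i^e`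
is `∑ g_j ∂_jΦ`. Evaluate at the common zero `v`: `v_i^e = 0`, so `v_i = 0`. (`d ≥ 2`.) -/
def P_EI : Prop := ∀ {k : Type} [Field k] {m d : ℕ}, 2 ≤ d → ∀ (Φ : MvPolynomial (Fin m) k) (δ : k),
  δ ≠ 0 → RedHom d Φ δ → ∀ (k₁ : Type) [Field k₁] (ψ : k →+* k₁) (v : Fin m → k₁),
  (∀ i, eval v (map ψ (pderiv i Φ)) = 0) → v = 0

/-- EJ (DISTINCT CRITICAL VALUES). For some `a ∈ ℂ^m` the polynomial `F = ∑ (X_i^d - a_i X_i)` has
critical points `t_β`, `β ∈ BB m d`, with pairwise distinct values `F(t_β)`.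
Proof. Let `ζ_0, ..., ζ_{d-2}` be the `(d-1)`-th roots of unity (distinct). For `β ≠ β'` the linear
form `∑_i (ζ_{β_i} - ζ_{β'_i}) x_i` is not zero. The product of these linear forms over the pairs
`β ≠ β'` is a nonzero polynomial over `ℂ`, so there is `y ∈ ℂ^m` where it does not vanish
(`MvPolynomial.funext`). Choose `b_i` with `b_i^d = y_i` and put `a_i = d b_i^(d-1)`,
`t_β = (ζ_{β_i} b_i)_i`. Then `∂_iF(t_β) = d ζ_{β_i}^(d-1) b_i^(d-1) - a_i = 0` and
`F(t_β) = ∑_i (ζ_{β_i}^d b_i^d - d b_i^(d-1) ζ_{β_i} b_i) = (1 - d) ∑_i ζ_{β_i} y_i`, distinct for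
distinct `β` since `1 - d ≠ 0`. -/
def P_EJ : Prop := ∀ (m d : ℕ), 3 ≤ d → ∃ (a : Fin m → ℂ) (t : BB m d → Fin m → ℂ),
  (∀ β i, eval (t β) (pderiv i (∑ i, (X i ^ d - C (a i) * X i) : MvPolynomial (Fin m) ℂ)) = 0) ∧
  Function.Injective fun β =>
    eval (t β) (∑ i, (X i ^ d - C (a i) * X i) : MvPolynomial (Fin m) ℂ)

/-- EK (BEZOUT). Let `χ ∈ T[X]` have degree at most `B`, with `s (coeff_B χ) ≠ 0` for a ring
homomorphism `s` to a field `k`, and let `map s χ` have `B` distinct roots in `k`. Then some `R ∈ T`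
with `s R ≠ 0` is in the ideal generated by `χ` and its derivative.
Proof. `B = 0`: `R = χ` is constant. `B ≥ 1`: consider the `T`-linear map
`(U, V) ↦ U χ + V χ'` from the pairs of polynomials of degree `< B` to the polynomials of degree
`< 2 B`, given by a matrix of size `2B × 2B` over `T`. Over `k` it is surjective: `map s χ` has
exact degree `B` and distinct roots, so it is coprime to its derivative; for `G` of degree `< 2B`
write `G = U₀ χ + V₀ χ'` and reduce `V₀` modulo `χ` to degree `< B`; then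
`U = (G - V χ')/χ` has degree `< B`. Apply EA to get `R` with `s R ≠ 0` and `R * 1` in the image. -/
def P_EK : Prop := ∀ {T k : Type} [CommRing T] [Field k] (s : T →+* k) (χ : Polynomial T) (B : ℕ),
  χ.natDegree ≤ B → s (χ.coeff B) ≠ 0 →
  (∃ S : Finset k, S.card = B ∧ ∀ z ∈ S, (χ.map s).eval z = 0) →
  ∃ R : T, s R ≠ 0 ∧ Polynomial.C R ∈ Ideal.span {χ, Polynomial.derivative χ}

/-- EL (AFFINE AND PROJECTIVE SINGULAR POINTS). Let `f` be a form of degree `d` over a ring `A`
and `k` a field, `φ : A → k`. (1) `pderiv i (aff f) = aff (pderiv i.succ f)`. (2) For `v` with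
`v 0 = 1`, `eval v f = eval (tail v) (aff f)`. (3) For `c, v` over a field: `f(c v) = c^d f(v)` and
`(∂_jf)(c v) = c^(d-1) (∂_jf)(v)`. (4) Euler: `∑ v_j (∂_jf)(v) = d f(v)`.
Proof. (1) induction on `f` (compare `pderiv_deh` in `Pool.Agent.TH214.RM.Crit`). (2)
`aeval` composed with `eval`. (3) `MvPolynomial.IsHomogeneous.eval₂`... or termwise.
(4) `MvPolynomial.IsHomogeneous.sum_X_mul_pderiv`. -/
def P_EL : Prop := ∀ {A : Type} [CommRing A] {m d : ℕ} (f : MvPolynomial (Fin (m + 1)) A),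
  (∀ i : Fin m, pderiv i (aff f) = aff (pderiv i.succ f)) ∧
  (∀ v : Fin (m + 1) → A, v 0 = 1 → eval v f = eval (fun i => v i.succ) (aff f)) ∧
  (f.IsHomogeneous d → ∀ (c : A) (v : Fin (m + 1) → A),
    eval (fun j => c * v j) f = c ^ d * eval v f ∧
    (∀ j, eval (fun j => c * v j) (pderiv j f) = c ^ (d - 1) * eval v (pderiv j f)) ∧
    ∑ j, v j * eval v (pderiv j f) = d * eval v f)

/-- The polynomial ring over `ℤ` in the coefficients `a_α` of a form, without that of `x_0^d`. -/
abbrev A0 (m d : ℕ) : Type := MvPolynomial {j : Mon m d // j ≠ v0 m d} ℤ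

/-- The generic form without the monomial `x_0^d`. -/
noncomputable def gen (m d : ℕ) : MvPolynomial (Fin (m + 1)) (A0 m d) :=
  ∑ α : {j : Mon m d // j ≠ v0 m d}, monomial α.1.1 (X α)

open scoped Classical in
/-- The part of the generic form without `x_0`, in the variables `x_1, ..., x_m`. -/
noncomputable def top (m d : ℕ) : MvPolynomial (Fin m) (A0 m d) :=
  aff (∑ α ∈ Finset.univ.filter fun α : {j : Mon m d // j ≠ v0 m d} => α.1.1 0 = 0,
    monomial α.1.1 (X α))

/-- EM1 (GENERIC ELIMINATION). There are `δ ≠ 0` in the coefficients `a_α` with `α_0 = 0`, a matrix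
`M` and `R ≠ 0` over `A0` with `RedHom d top δ`, `MulRel (aff gen) (δ^N) M` and `R` in the ideal
generated by `χ₀ = chi (δ^N) M` and its derivative.
Proof. Let `T` be the polynomial ring over `ℤ` in the variables `a_α`, `α ∈ Mon m d`, `α_0 = 0`, and
`Φ = ∑_{α_0 = 0} a_α x^α ∈ T[x_1..x_m]` (`x^α` in the variables `x_1..x_m`); the inclusion
`T → A0` (`rename`; `α ≠ v0` as `d ≥ 1`) maps it to `top`. `aff gen - top` has degree `< d` (the
monomial `x^α` with `α_0 > 0` becomes a monomial of degree `d - α_0`).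
EB with `s₁ : T → ℂ`, `a_α ↦ 1` if `x^α = x_i^d` for some `i ≥ 1` and `0` otherwise: `δ ∈ T`,
`s₁ δ ≠ 0`, `RedHom d Φ δ`; by EE0 also for `top` and the image `δ` in `A0`. ED: `N`, `M`. Let
`χ₀ = chi (δ^N) M ∈ A0[T]`. Let `s : A0 → ℂ` be the homomorphism whose form is
`F_s = map s (aff gen) = ∑ (X_i^d - a_i X_i)` with `a` as in EJ (`a_α ↦ 1` for `x_i^d`, `-a_i` for
`x_0^(d-1) x_i`, `0` otherwise; `i ≥ 1`). It extends `s₁`, so `s δ ≠ 0`. By EE, EF (1), EG (1) (with
`k = k₁ = ℂ`) the polynomial `map s χ₀` vanishes at the `(d-1)^m` distinct numbers `- F_s(t_β)`. Its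
coefficient in degree `B = card (BB m d)` is `s(δ)^(NB) ≠ 0`. EK gives `R` with `s R ≠ 0`. -/
def P_EM1 : Prop := ∀ (m d : ℕ), 1 ≤ m → 3 ≤ d →
  ∃ (δ R : A0 m d) (N : ℕ) (M : Matrix (BB m d) (BB m d) (A0 m d)),
    δ ≠ 0 ∧ R ≠ 0 ∧ (∀ α ∈ δ.vars, α.1.1 0 = 0) ∧ RedHom d (top m d) δ ∧
    MulRel (aff (gen m d)) (δ ^ N) M ∧
    Polynomial.C R ∈ Ideal.span {chi (δ ^ N) M, Polynomial.derivative (chi (δ ^ N) M)}

/-- EM2 (ELIMINATION THEOREM). For `m ≥ 1`, `d ≥ 3` there are nonzero polynomials `Δ, χ` over `ℤ` in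
the coefficients `a_α` of a form of degree `d` in `x_0, ..., x_m` and `R` in the coefficients `a_α`,
`α ≠ v0` (the coefficient of `x_0^d` is left out), such that for every field `k` (of any
characteristic) and every `a : Mon m d → k`:
(1) `Δ` involves only the `a_α` with `α_0 = 0`;
(2) if `Δ(a) ≠ 0` then `χ(a)`, as a polynomial in the coefficient of `x_0^d`, has at
most `(d-1)^m` zeros in `k`;
(3) if `Δ(a) ≠ 0` and (`R(a) ≠ 0` or `χ(a) ≠ 0`) then `LonePt (form a)`;
(4) if `Δ(a) ≠ 0` and `χ(a) ≠ 0` then `NoSing (form a)`.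
Proof. Uses EM1. `Δ = rename Subtype.val δ`, `R` as in EM1, and
`χ = det (δ^N a_{v0} + M)` (entries renamed by `Subtype.val`); `χ ≠ 0`: it is the value at `a_{v0}` of
the polynomial `chi (δ^N) M ≠ 0` (its coefficient in degree `card BB` is `δ^(N card BB) ≠ 0`), and
`ℤ[all a_α]` is the polynomial ring over `A0` in `a_{v0}` (or: choose a point over `ℚ` or over the
field of fractions of `A0` where it does not vanish).
Let `φ : A0 → k` be the evaluation at `a` (restricted), `F_k = map φ (aff gen)`, `Φ_k = map φ top`,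
`M_k = M.map φ`, `u = φ δ^N ≠ 0`. By EE0, EE: `RedHom d Φ_k (φ δ)`, `MulRel F_k u M_k`, and
`aeval (update a v0 c) χ = (chi u M_k).eval c`, `aeval a Δ = φ δ`.
(2): `chi u M_k` has a nonzero coefficient in degree `card BB = (d-1)^m` and at most this degree: at
most `(d-1)^m` roots.
(3), (4): `f = form a`, `c = a v0`, `aff f = F_k + C c`. As `R ∈ (χ₀, χ₀')`, `R(a) ≠ 0` implies that
`chi u M_k` and its derivative do not both vanish at `c`. EH gives `b ∈ k^m`; put `b_0 = 1`. Let
`v ≠ 0` over `k₁` be a singular point of `f`. If `v_0 = 0`, then `(∂_jf)(0, v') = (∂_jΦ_k)(v')` for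
`j ≥ 1` (the other monomials of `f` contain `x_0`), so `v' = 0` by EI, a contradiction. So `v_0 ≠ 0`;
`t = v'/v_0` is a critical point of `F_k` with `F_k(t) + c = 0` (EL), so `χ(a) = 0` and `t = ψ(b)` by
EH. The Hessian matrix of `f` at `b` with indices `≠ 0` is that of `F_k` at `b` (EL (1), (2);
`Fin m ≃ {j // j ≠ 0}`, `Matrix.det_submatrix_equiv_self`). -/
def P_EM : Prop := ∀ (m d : ℕ), 1 ≤ m → 3 ≤ d →
  ∃ (Δ χ : MvPolynomial (Mon m d) ℤ) (R : MvPolynomial {j : Mon m d // j ≠ v0 m d} ℤ),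
    Δ ≠ 0 ∧ χ ≠ 0 ∧ R ≠ 0 ∧ (∀ α ∈ Δ.vars, α.1 0 = 0) ∧
    ∀ (k : Type) [Field k] (a : Mon m d → k), aeval a Δ ≠ 0 →
      (∃ Z : Finset k, Z.card ≤ (d - 1) ^ m ∧
        ∀ c, aeval (Function.update a (v0 m d) c) χ = 0 → c ∈ Z) ∧
      ((aeval (fun j : {j : Mon m d // j ≠ v0 m d} => a j.1) R ≠ 0 ∨ aeval a χ ≠ 0) →
        LonePt (form a)) ∧
      (aeval a χ ≠ 0 → NoSing (form a))

/-- EN (SMOOTHNESS). A form `f` of degree `d ≥ 1` over a field of characteristic zero with
`NoSing f` is smooth: every variable is in the radical of the ideal of the partial derivatives.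
Proof. If `X i` is not in the radical there is a prime ideal `Q` containing all the `∂_jf` but not
`X i`. Let `k₁` be the field of fractions of `k[x]/Q` and `v_j` the class of `X_j`; `v_i ≠ 0` and
`(∂_jf)(v) = 0`. By Euler's formula `d f(v) = 0`, so `f(v) = 0`, a contradiction to `NoSing f`. -/
def P_EN : Prop := ∀ {k : Type} [Field k] [CharZero k] {m d : ℕ}, 1 ≤ d →
  ∀ f : MvPolynomial (Fin (m + 1)) k, f.IsHomogeneous d → NoSing f →
  ∀ i, X i ∈ (Ideal.span (Set.range fun j => pderiv j f)).radical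

/-- EO (LIFTING). (1) If `𝔭` is maximal and the reduction of `f` modulo `𝔭` has the property
`LonePt` then `LoneNode 𝔭 f`. (2) `LoneNode` is compatible with a ring homomorphism `θ : O → O'`
and an ideal `𝔓` of `O'` with preimage `𝔭`.
Proof. (1) Lift the point `b` to `O` (with `b 0 = 1`); a homomorphism `O → k₁` with kernel `𝔭`
factors through `O/𝔭`, `eval` and `map` commute. (2) Take the image of `b`; `ψ ∘ θ` has the kernel
`𝔭` if `ψ` has the kernel `𝔓`; `eval (θ b) (map θ P) = θ (eval b P)`, and `θ x ∈ 𝔓` iff `x ∈ 𝔭`;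
`RingHom.map_det`. -/
def P_EO : Prop := ∀ {O : Type} [CommRing O] (𝔭 : Ideal O) {m : ℕ}
  (f : MvPolynomial (Fin (m + 1)) O),
  (∀ [𝔭.IsMaximal] (k : Type) [Field k] (φ : O →+* k), RingHom.ker φ = 𝔭 →
    Function.Surjective φ → LonePt (map φ f) → LoneNode 𝔭 f) ∧
  (∀ {O' : Type} [CommRing O'] (θ : O →+* O') (𝔓 : Ideal O'), 𝔓.comap θ = 𝔭 →
    LoneNode 𝔭 f → LoneNode 𝔓 (map θ f))

/-- HA (NEWTON). Let `𝔭` be a maximal ideal of `O`, `P_i` polynomials in as many variables, `b` a
point with `P_i(b) ∈ 𝔭` and Jacobian determinant not in `𝔭`. For every `N` there is `b' ≡ b` modulo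
`𝔭` with `P_i(b') ∈ 𝔭^N`.
Proof. Induction on `N`: given `b'` with `P_i(b') ∈ 𝔭^N`, `N ≥ 1` (start with `b` for `N = 0, 1`),
let `J` be the Jacobian matrix at `b'`; `det J ∉ 𝔭` as `b' ≡ b`. Let `w det J - 1 ∈ 𝔭` and
`δ = - w adj(J) P(b')`, with entries in `𝔭^N`. By Taylor
`P_i(b' + δ) - P_i(b') - ∑_j J_ij δ_j` is in the square of the ideal generated by the `δ_j`
(induction on the polynomial, `MvPolynomial.induction_on`), hence in `𝔭^(2N) ⊂ 𝔭^(N+1)`, and
`P(b') + J δ = (1 - w det J) P(b') ∈ 𝔭^(N+1)`. -/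
def P_HA : Prop := ∀ {O σ : Type} [CommRing O] [Fintype σ] [DecidableEq σ] (𝔭 : Ideal O),
  𝔭.IsMaximal → ∀ (P : σ → MvPolynomial σ O) (b : σ → O), (∀ i, eval b (P i) ∈ 𝔭) →
  Matrix.det (Matrix.of fun i j => eval b (pderiv j (P i))) ∉ 𝔭 → ∀ N : ℕ,
  ∃ b' : σ → O, (∀ i, b' i - b i ∈ 𝔭) ∧ ∀ i, eval b' (P i) ∈ 𝔭 ^ N

/-- HB (VALUES AND DERIVATIVES). Let `f` be a form over the domain `O` which is smooth over the
field of fractions. There is `D₀ ≠ 0` in `O` which for every `b` with `b 0 = 1` is in the ideal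
generated by `f(b)` and the `(∂_jf)(b)`, `j ≠ 0`.
Proof. `X_0^k = ∑ A_j ∂_jf` over the field of fractions; clear denominators
(`Pool.Agent.TH214.RM.clear_span`, or directly): `D₀ X_0^k = ∑ A_j ∂_jf` over `O`. Evaluate at `b`;
by Euler `(∂_0f)(b) = d f(b) - ∑_{j ≠ 0} b_j (∂_jf)(b)`. -/
def P_HB : Prop := ∀ {O K : Type} [CommRing O] [IsDomain O] [Field K] [Algebra O K]
  [IsFractionRing O K] {m d : ℕ} (f : MvPolynomial (Fin (m + 1)) O), f.IsHomogeneous d →
  (∀ i, X i ∈ (Ideal.span (Set.range fun j =>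
    pderiv j (map (algebraMap O K) f))).radical) →
  ∃ D₀ : O, D₀ ≠ 0 ∧ ∀ b : Fin (m + 1) → O, b 0 = 1 →
    D₀ ∈ Ideal.span (insert (eval b f)
      (Set.range fun j : {j : Fin (m + 1) // j ≠ 0} => eval b (pderiv j.1 f)))

/-- HC (GOOD CENTRE). Let `O` be a Dedekind domain, `𝔭` a maximal ideal, `f` a form over `O` which
is smooth over the field of fractions, `b 0 = 1`, `f(b) ∈ 𝔭`, `(∂_jf)(b) ∈ 𝔭` for `j ≠ 0` and the
Hessian determinant (indices `≠ 0`) at `b` not in `𝔭`. Then there are `b' ≡ b` modulo `𝔭`,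
`b' 0 = 1`, and `k ≥ 1` with `f(b') ∈ 𝔭^k`, `∉ 𝔭^(k+1)`, and `(∂_jf)(b') ∈ 𝔭^k` for `j ≠ 0`.
Proof. Let `D₀` be as in HB and `N` with `D₀ ∉ 𝔭^N` (`Ideal.iInf_pow_eq_bot_of_isDomain`, as
`D₀ ≠ 0`). HA for the variables `x_j`, `j ≠ 0`, and the polynomials `∂_jf` with `x_0 = 1` gives
`b' ≡ b` with `(∂_jf)(b') ∈ 𝔭^N`. If `f(b') ∈ 𝔭^N` then `D₀ ∈ 𝔭^N`, a contradiction. Let `k` be the
largest number with `f(b') ∈ 𝔭^k`; `k < N`, and `k ≥ 1` since `f(b') ≡ f(b)` modulo `𝔭`. -/
def P_HC : Prop := ∀ {O K : Type} [CommRing O] [IsDedekindDomain O] [Field K] [Algebra O K]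
  [IsFractionRing O K] (𝔭 : Ideal O), 𝔭.IsMaximal → ∀ {m d : ℕ}
  (f : MvPolynomial (Fin (m + 1)) O), f.IsHomogeneous d →
  (∀ i, X i ∈ (Ideal.span (Set.range fun j =>
    pderiv j (map (algebraMap O K) f))).radical) →
  ∀ b : Fin (m + 1) → O, b 0 = 1 → eval b f ∈ 𝔭 → (∀ j, j ≠ 0 → eval b (pderiv j f) ∈ 𝔭) →
  Matrix.det (Matrix.of fun i j : {j : Fin (m + 1) // j ≠ 0} =>
    eval b (pderiv i.1 (pderiv j.1 f))) ∉ 𝔭 →
  ∃ (b' : Fin (m + 1) → O) (k : ℕ), b' 0 = 1 ∧ (∀ j, b' j - b j ∈ 𝔭) ∧ 1 ≤ k ∧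
    eval b' f ∈ 𝔭 ^ k ∧ eval b' f ∉ 𝔭 ^ (k + 1) ∧ ∀ j, j ≠ 0 → eval b' (pderiv j f) ∈ 𝔭 ^ k

end Pool.Agent.Q46.ND
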