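import Pool.Agent.Q40.OD.Defs2

/-! Project ND/OD (helper46): nondegenerate reductions: stability and change of the ring. -/

set_option autoImplicit false

namespace Pool.Agent.Q46.ND

open Pool.Agent.Q40.OD Pool.Agent.TH214.RM Pool.Agent.H918R2.Quad MvPolynomial

theorem map_hess {R S σ : Type} [CommRing R] [CommRing S] (φ : R →+* S)
    (E : MvPolynomial σ R) : Hess (map φ E) = (Hess E).map (map φ) := by
  ext1 a b
  simp only [Hess, Matrix.map_apply, Matrix.of_apply, pderiv_map]

/-- Nondegeneracy is stable under changes in `𝔭`. -/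
theorem nondeg_add {O ι : Type} [CommRing O] [Fintype ι] [DecidableEq ι] (𝔭 : Ideal O)
    (f g : MvPolynomial ι O) (W : O) (hW : W ∈ 𝔭) (h : Nondeg 𝔭 f) :
    Nondeg 𝔭 (f + C W * g) := by
  intro s Q hQ hlie h0 h1
  have hWQ : (C W : MvPolynomial {j : ι // j ≠ s} O) ∈ Q := (hlie W).2 hW
  have hdeh : deh s (f + C W * g) = deh s f + C W * deh s g := by
    unfold deh
    rw [map_add, map_mul, aeval_C]
    rfl
  have hpd : ∀ j, pderiv j (deh s (f + C W * g)) =
      pderiv j (deh s f) + C W * pderiv j (deh s g) := by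
    intro j
    rw [hdeh, map_add, Derivation.leibniz, pderiv_C, smul_zero, add_zero, smul_eq_mul]
  have h0' : deh s f ∈ Q := by
    have h2 := Q.sub_mem h0 (Q.mul_mem_right (deh s g) hWQ)
    rwa [hdeh, add_sub_cancel_right] at h2
  have h1' : ∀ j, pderiv j (deh s f) ∈ Q := by
    intro j
    have h2 := Q.sub_mem (h1 j) (Q.mul_mem_right (pderiv j (deh s g)) hWQ)
    rwa [hpd, add_sub_cancel_right] at h2
  have h3 := h s Q hQ hlie h0' h1'
  intro h4
  apply h3
  have h5 : (Hess (deh s (f + C W * g))).map (Ideal.Quotient.mk Q) =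
      (Hess (deh s f)).map (Ideal.Quotient.mk Q) := by
    ext1 a b
    simp only [Hess, Matrix.map_apply, Matrix.of_apply]
    rw [hpd, map_add, Derivation.leibniz, pderiv_C, smul_zero, add_zero, smul_eq_mul, map_add,
      map_mul, Ideal.Quotient.eq_zero_iff_mem.2 hWQ, zero_mul, add_zero]
  rw [← Ideal.Quotient.eq_zero_iff_mem] at h4 ⊢
  have h6 : ∀ A : Matrix {j : ι // j ≠ s} {j : ι // j ≠ s} (MvPolynomial {j : ι // j ≠ s} O),
      Ideal.Quotient.mk Q A.det = (A.map (Ideal.Quotient.mk Q)).det := by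
    intro A
    rw [RingHom.map_det]
    rfl
  rw [h6, ← h5, ← h6]
  exact h4

/-- Nondegeneracy over larger rings. -/
theorem nondeg_map {O O' ι : Type} [CommRing O] [CommRing O'] [Fintype ι] [DecidableEq ι]
    (φ : O →+* O') (𝔓 : Ideal O') (f : MvPolynomial ι O) (h : Nondeg (𝔓.comap φ) f) :
    Nondeg 𝔓 (map φ f) := by
  intro s Q hQ hlie h0 h1
  have h2 := h s (Q.comap (map φ)) (Ideal.comap_isPrime _ _) (by
    intro r
    rw [Ideal.mem_comap, map_C, hlie, Ideal.mem_comap]) (by
    rw [Ideal.mem_comap, map_deh]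
    exact h0) (by
    intro j
    rw [Ideal.mem_comap, ← pderiv_map, map_deh]
    exact h1 j)
  intro h3
  apply h2
  rw [Ideal.mem_comap, RingHom.map_det, RingHom.mapMatrix_apply, ← map_hess, map_deh]
  exact h3

end Pool.Agent.Q46.ND
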