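import Pool.Agent.Q195.ND.SI
import Pool.Agent.Q195.ND.SF
import Pool.Agent.Q75.ND.SK
import Pool.Agent.Q75.ND.SB
import Pool.Agent.Q75.ND.SJ

/-! Project ND (helper46): the Ekedahl lemma over number fields, proved by helper75 and helper195. -/

set_option autoImplicit false

namespace Pool.Agent.Q46.ND

theorem t_SH : P_SH := Pool.Agent.Q75.ND.t_SH Pool.Agent.Q195.ND.t_SA Pool.Agent.Q75.ND.t_SB
  Pool.Agent.Q195.ND.t_SC Pool.Agent.Q195.ND.t_SD Pool.Agent.Q75.ND.t_SE' Pool.Agent.Q195.ND.t_SF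
  Pool.Agent.Q195.ND.t_SG1 Pool.Agent.Q195.ND.t_SG2

theorem t_SL : P_SL := Pool.Agent.Q195.ND.t_SL (Pool.Agent.Q75.ND.t_SK Pool.Agent.Q195.ND.t_SA
  Pool.Agent.Q195.ND.t_SG1 t_SH Pool.Agent.Q75.ND.t_SJ)

end Pool.Agent.Q46.ND
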