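import Pool.Agent.Q46.ND.Asm

/-! Project ND (helper46): a positive proportion of the forms. -/

set_option autoImplicit false
set_option linter.unusedSectionVars false

open MvPolynomial NumberField Filter
open scoped Classical

namespace Pool.Agent.Q46.ND

open Pool.Agent.TH214.RM

variable {K ι : Type} [Field K] [NumberField K] [Fintype ι] (ω : Module.Basis ι ℤ (𝓞 K))

/-- The explicit form. -/
noncomputable def seedForm {O : Type} [CommRing O] (n d : ℕ) (b : O) :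
    MvPolynomial (Fin (n + 2)) O :=
  ∑ i : Fin (n + 1), (X i.castSucc ^ (d - 1) * X i.succ : MvPolynomial (Fin (n + 2)) O) +
    C b * X (Fin.last (n + 1)) ^ d

theorem seedForm_hom {O : Type} [CommRing O] (n d : ℕ) (hd : 1 ≤ d) (b : O) :
    (seedForm n d b).IsHomogeneous d := by
  refine (IsHomogeneous.sum _ _ _ fun i _ => ?_).add ?_
  · have h1 := ((isHomogeneous_X O i.castSucc).pow (d - 1)).mul (isHomogeneous_X O i.succ)
    have h2 : 1 * (d - 1) + 1 = d := by omega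
    rwa [h2] at h1
  · have h1 := (isHomogeneous_C (Fin (n + 2)) b).mul
      ((isHomogeneous_X O (Fin.last (n + 1))).pow d)
    have h2 : 0 + 1 * d = d := by omega
    rwa [h2] at h1

/-- A form which is regular at all primes containing `W`. -/
theorem exists_seed (hFD1 : P_FD1) (hFD3 : P_FD3) (n d : ℕ) (hd : 3 ≤ d) (W : ℕ) (hW : 1 ≤ W) :
    ∃ F₀ : MvPolynomial (Fin (n + 2)) (𝓞 K), F₀.IsHomogeneous d ∧
      ∀ 𝔭 : Ideal (𝓞 K), 𝔭.IsPrime → (W : 𝓞 K) ∈ 𝔭 → Crit 𝔭 F₀ := by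
  have hW0 : (W : 𝓞 K) ≠ 0 := by
    rw [Nat.cast_ne_zero]
    omega
  have hWspan : Ideal.span {(W : 𝓞 K)} ≠ ⊥ := by
    rw [Ne, Ideal.span_singleton_eq_bot]
    exact hW0
  let S : Finset (Ideal (𝓞 K)) :=
    (UniqueFactorizationMonoid.normalizedFactors (Ideal.span {(W : 𝓞 K)})).toFinset
  have hS : ∀ 𝔭, 𝔭 ∈ S ↔ 𝔭.IsPrime ∧ (W : 𝓞 K) ∈ 𝔭 := by
    intro 𝔭
    rw [Multiset.mem_toFinset, Ideal.mem_normalizedFactors_iff hWspan,
      Ideal.span_singleton_le_iff_mem]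
  have hne : ∀ 𝔭 : Ideal (𝓞 K), (W : 𝓞 K) ∈ 𝔭 → 𝔭 ≠ ⊥ := by
    rintro 𝔭 h rfl
    exact hW0 (Ideal.mem_bot.1 h)
  obtain ⟨b, hb⟩ := hFD3 S fun 𝔭 h𝔭 => ⟨((hS 𝔭).1 h𝔭).1, hne 𝔭 ((hS 𝔭).1 h𝔭).2⟩
  refine ⟨seedForm n d b, seedForm_hom n d (by omega) b, fun 𝔭 hp hWp => ?_⟩
  obtain ⟨h1, h2⟩ := hb 𝔭 ((hS 𝔭).2 ⟨hp, hWp⟩)
  exact hFD1 𝔭 (isMaximal_of_ne_bot 𝔭 hp (hne 𝔭 hWp)) b h1 h2 n d hd

theorem exists_adm (M : ℕ) : ∃ W : ℕ, Adm M W := by
  refine ⟨(primorial M) ^ 2, Nat.one_le_iff_ne_zero.2 (pow_ne_zero 2 (primorial_pos M).ne'),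
    fun p hp h => ?_⟩
  refine pow_dvd_pow_of_dvd ?_ 2
  rcases h with h | h
  · exact hp.dvd_primorial_iff.2 h
  · exact hp.dvd_of_dvd_pow h

theorem exists_bound (n d : ℕ) (F : MvPolynomial (Fin (n + 2)) (𝓞 K)) (hF : F.IsHomogeneous d) :
    ∃ h₀ : ℕ, F ∈ formsB ω n d h₀ := by
  refine ⟨∑ α ∈ F.support, ∑ i, (ω.repr (coeff α F) i).natAbs, hF, fun α i => ?_⟩
  rw [← Int.natCast_natAbs, Nat.cast_le]
  by_cases hα : α ∈ F.support
  · calc (ω.repr (coeff α F) i).natAbs ≤ ∑ i, (ω.repr (coeff α F) i).natAbs :=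
          Finset.single_le_sum (f := fun i => (ω.repr (coeff α F) i).natAbs)
            (fun _ _ => Nat.zero_le _) (Finset.mem_univ i)
      _ ≤ _ := Finset.single_le_sum (f := fun α => ∑ i, (ω.repr (coeff α F) i).natAbs)
            (fun _ _ => Nat.zero_le _) hα
  · rw [notMem_support_iff.1 hα]
    simp

theorem add_mem_formsB (n d : ℕ) (W h₀ H' H : ℕ) (hH : h₀ + W * H' ≤ H)
    (F G : MvPolynomial (Fin (n + 2)) (𝓞 K)) (hF : F ∈ formsB ω n d h₀)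
    (hG : G ∈ formsB ω n d H') : F + C (W : 𝓞 K) * G ∈ formsB ω n d H := by
  refine ⟨?_, fun α i => ?_⟩
  · refine hF.1.add ?_
    have h1 := (isHomogeneous_C (Fin (n + 2)) (W : 𝓞 K)).mul hG.1
    rwa [zero_add] at h1
  · have h1 : ω.repr (coeff α (F + C (W : 𝓞 K) * G)) i =
        ω.repr (coeff α F) i + W * ω.repr (coeff α G) i := by
      rw [coeff_add, coeff_C_mul, map_add, Finsupp.add_apply]
      congr 1
      have h2 : (W : 𝓞 K) * coeff α G = (W : ℤ) • coeff α G := by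
        rw [zsmul_eq_mul, Int.cast_natCast]
      rw [h2, map_smul, Finsupp.smul_apply, smul_eq_mul]
    rw [h1]
    have h3 := hF.2 α i
    have h4 := hG.2 α i
    calc |ω.repr (coeff α F) i + W * ω.repr (coeff α G) i|
        ≤ |ω.repr (coeff α F) i| + |(W : ℤ) * ω.repr (coeff α G) i| := abs_add_le _ _
      _ = |ω.repr (coeff α F) i| + W * |ω.repr (coeff α G) i| := by
          rw [abs_mul, Nat.abs_cast]
      _ ≤ (h₀ : ℤ) + W * H' := add_le_add h3 (mul_le_mul_of_nonneg_left h4 (Nat.cast_nonneg _))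
      _ ≤ H := by exact_mod_cast hH

theorem positive (hSA : P_SA) (hFB : P_FB) (hFD1 : P_FD1) (hFD2 : P_FD2) (hFD3 : P_FD3)
    (hFF : P_FF) (hFG : P_FG) (hFH : P_FH) (n d : ℕ) (hn : 1 ≤ n) (hd : 3 ≤ d) :
    ∃ c : ℝ, 0 < c ∧ ∀ᶠ H : ℕ in atTop, c * ((formsB ω n d H).ncard : ℝ) ≤
      ({F ∈ formsB ω n d H | Smooth (map (algebraMap (𝓞 K) K) F) ∧
        LocNode (𝓞 K) (map (algebraMap (𝓞 K) K) F)}.ncard : ℝ) := by
  obtain ⟨C₀, hC₀, h⟩ := most_near ω hSA hFB hFD2 hFF hFG hFH n d hn hd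
  obtain ⟨M, hM⟩ := exists_nat_gt (2 * C₀)
  have hM0 : (0 : ℝ) < M := lt_of_le_of_lt (by positivity) hM
  have hM1 : 1 ≤ M := by
    have : 0 < M := by exact_mod_cast hM0
    omega
  obtain ⟨W, hW⟩ := exists_adm M
  obtain ⟨F₀, hF₀, hcrit⟩ := exists_seed (K := K) hFD1 hFD3 n d hd W hW.1
  obtain ⟨h₀, hh₀⟩ := exists_bound ω n d F₀ hF₀
  have hev := h M hM1 W hW F₀ hF₀ hcrit
  have hhalf : (1 : ℝ) / 2 ≤ 1 - C₀ / M := by
    have h1 : C₀ / M ≤ 1 / 2 := by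
      rw [div_le_div_iff₀ hM0 (by norm_num)]
      linarith
    linarith
  set N : ℕ := Fintype.card ι * Fintype.card (Mon (n + 1) d) with hN
  have hcardB : ∀ H, (formsB ω n d H).ncard = (2 * H + 1) ^ N := by
    intro H
    rw [ncard_formsB' ω hSA hFF, (hSA ω H).2.1, ← pow_mul]
  set κ : ℝ := 2 * W + 2 * h₀ + 1 with hκ
  have hκ0 : 0 < κ := by positivity
  refine ⟨1 / 2 / κ ^ N, by positivity, ?_⟩
  have htend : Tendsto (fun H : ℕ => (H - h₀) / W) atTop atTop := by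
    refine (Nat.tendsto_div_const_atTop (by have := hW.1; omega)).comp ?_
    exact tendsto_sub_atTop_nat h₀
  filter_upwards [htend.eventually hev, eventually_ge_atTop h₀] with H hH hHh
  set H' := (H - h₀) / W with hH'
  have hle : h₀ + W * H' ≤ H := by
    have h2 : W * H' ≤ H - h₀ := Nat.mul_div_le (H - h₀) W
    omega
  have hlt : H < h₀ + W * (H' + 1) := by
    have h1 : H - h₀ < W * (H' + 1) :=
      Nat.lt_mul_div_succ (H - h₀) (show 0 < W by have := hW.1; omega)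
    omega
  have h5 : ({G ∈ formsB ω n d H' |
      Smooth (map (algebraMap (𝓞 K) K) (F₀ + C (W : 𝓞 K) * G)) ∧
      LocNode (𝓞 K) (map (algebraMap (𝓞 K) K) (F₀ + C (W : 𝓞 K) * G))}).ncard ≤
      ({F ∈ formsB ω n d H | Smooth (map (algebraMap (𝓞 K) K) F) ∧
        LocNode (𝓞 K) (map (algebraMap (𝓞 K) K) F)}).ncard := by
    have hfin : (formsB ω n d H).Finite := by
      by_contra hinf
      have h6 := hcardB H
      rw [Set.Infinite.ncard hinf] at h6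
      exact (pow_pos (by omega : 0 < 2 * H + 1) N).ne h6
    refine Set.ncard_le_ncard_of_injOn (fun G => F₀ + C (W : 𝓞 K) * G) ?_ ?_
      (hfin.subset fun F hF => hF.1)
    · intro G hG
      exact ⟨add_mem_formsB ω n d W h₀ H' H hle F₀ G hh₀ hG.1, hG.2⟩
    · intro G _ G' _ hGG
      have h6 : C (W : 𝓞 K) * G = C (W : 𝓞 K) * G' := add_left_cancel hGG
      have h7 : (C (W : 𝓞 K) : MvPolynomial (Fin (n + 2)) (𝓞 K)) ≠ 0 := by
        rw [Ne, C_eq_zero, Nat.cast_eq_zero]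
        have := hW.1
        omega
      exact mul_left_cancel₀ h7 h6
  have h6 : (1 : ℝ) / 2 * (2 * (H' : ℝ) + 1) ^ N ≤
      (({F ∈ formsB ω n d H | Smooth (map (algebraMap (𝓞 K) K) F) ∧
        LocNode (𝓞 K) (map (algebraMap (𝓞 K) K) F)}).ncard : ℝ) := by
    refine le_trans ?_ (Nat.cast_le.2 h5)
    refine le_trans ?_ hH
    rw [hcardB H']
    push_cast
    exact mul_le_mul_of_nonneg_right hhalf (by positivity)
  refine le_trans ?_ h6
  rw [hcardB H]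
  push_cast
  have h7 : (2 * (H : ℝ) + 1) ≤ κ * (2 * H' + 1) := by
    have h8 : (H : ℝ) ≤ h₀ + W * (H' + 1) := by exact_mod_cast hlt.le
    have h9 : (0 : ℝ) ≤ H' := Nat.cast_nonneg _
    have h10 : (0 : ℝ) ≤ W := Nat.cast_nonneg _
    have h11 : (0 : ℝ) ≤ h₀ := Nat.cast_nonneg _
    rw [hκ]
    nlinarith [mul_nonneg h10 h9, mul_nonneg h11 h9]
  have h12 : (2 * (H : ℝ) + 1) ^ N ≤ κ ^ N * (2 * H' + 1) ^ N := by
    rw [← mul_pow]
    exact pow_le_pow_left₀ (by positivity) h7 N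
  calc 1 / 2 / κ ^ N * (2 * (H : ℝ) + 1) ^ N
      ≤ 1 / 2 / κ ^ N * (κ ^ N * (2 * H' + 1) ^ N) :=
        mul_le_mul_of_nonneg_left h12 (by positivity)
    _ = 1 / 2 * (2 * (H' : ℝ) + 1) ^ N := by
        field_simp

end Pool.Agent.Q46.ND
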