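import Pool.Agent.Q46.ND.Pos2

/-! Project ND/OD (helper46): change of the number field. -/

set_option autoImplicit false
set_option linter.unusedSectionVars false

open MvPolynomial NumberField
open scoped Classical

namespace Pool.Agent.Q46.ND

open Pool.Agent.TH214.RM Pool.Agent.Q40.OD Pool.Agent.H918R2.Quad

theorem smooth_map {K L : Type} [Field K] [Field L] {n : ℕ} (φ : K →+* L)
    (G : MvPolynomial (Fin n) K) (h : Smooth G) : Smooth (map φ G) := by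
  intro i
  obtain ⟨N, hN⟩ := h i
  refine ⟨N, ?_⟩
  have h1 : Ideal.span (Set.range fun j => pderiv j G) ≤
      (Ideal.span (Set.range fun j => pderiv j (map φ G))).comap (map φ) := by
    rw [Ideal.span_le]
    rintro _ ⟨j, rfl⟩
    rw [SetLike.mem_coe, Ideal.mem_comap, ← pderiv_map]
    exact Ideal.subset_span ⟨j, rfl⟩
  have h2 := h1 hN
  rw [Ideal.mem_comap, map_pow, map_X] at h2
  exact h2

theorem locGood_hom {O O' L : Type} [CommRing O] [CommRing O'] [Field L] [Algebra O' L] {n : ℕ}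
    (φ : O →+* O') (F : MvPolynomial (Fin (n + 2)) O) (N : O) (hF : NdOut N F)
    (hφ : ∀ 𝔓 : Ideal O', 𝔓.IsPrime → 𝔓 ≠ ⊥ → 𝔓.comap φ ≠ ⊥ ∧ N ∉ 𝔓.comap φ) :
    LocGood O' (map (algebraMap O' L) (map φ F)) := by
  intro 𝔓 hp h0
  obtain ⟨h1, h2⟩ := hφ 𝔓 hp h0
  exact goodAt_of 𝔓 _ (Or.inr (nondeg_map φ 𝔓 F (hF _ (Ideal.comap_isPrime _ _) h1 h2)))

theorem comap_ne_bot {K L : Type} [Field K] [NumberField K] [Field L] [NumberField L]
    [Algebra K L] (𝔓 : Ideal (𝓞 L)) (h0 : 𝔓 ≠ ⊥) :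
    𝔓.comap (algebraMap (𝓞 K) (𝓞 L)) ≠ ⊥ := by
  intro h
  have h1 : ((Ideal.absNorm 𝔓 : ℕ) : 𝓞 K) ∈ 𝔓.comap (algebraMap (𝓞 K) (𝓞 L)) := by
    rw [Ideal.mem_comap, map_natCast]
    exact Ideal.absNorm_mem 𝔓
  rw [h, Ideal.mem_bot, Nat.cast_eq_zero, Ideal.absNorm_eq_zero_iff] at h1
  exact h0 h1

theorem locGood_ext {K L : Type} [Field K] [NumberField K] [Field L] [NumberField L]
    [Algebra K L] {n : ℕ} (F : MvPolynomial (Fin (n + 2)) (𝓞 K)) (hF : NdOut 1 F) :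
    LocGood (𝓞 L) (map (algebraMap K L) (map (algebraMap (𝓞 K) K) F)) := by
  have h1 : map (algebraMap K L) (map (algebraMap (𝓞 K) K) F) =
      map (algebraMap (𝓞 L) L) (map (algebraMap (𝓞 K) (𝓞 L)) F) := by
    rw [MvPolynomial.map_map, MvPolynomial.map_map]
    congr 1
  rw [h1]
  exact locGood_hom _ F 1 hF fun 𝔓 hp h0 => ⟨comap_ne_bot 𝔓 h0,
    (Ideal.ne_top_iff_one _).1 (Ideal.comap_isPrime (algebraMap (𝓞 K) (𝓞 L)) 𝔓).ne_top⟩

theorem away_dedekind {L : Type} [Field L] [NumberField L] (N : ℕ) (hN : N ≠ 0)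
    (O' : Type) [CommRing O'] [Algebra (𝓞 L) O'] [Algebra O' L] [IsScalarTower (𝓞 L) O' L]
    [IsLocalization.Away ((N : ℕ) : 𝓞 L) O'] :
    ∃ (_ : IsDedekindDomain O'), IsFractionRing O' L := by
  have hN0 : ((N : ℕ) : 𝓞 L) ≠ 0 := by
    rw [Nat.cast_ne_zero]
    exact hN
  have hle : Submonoid.powers ((N : ℕ) : 𝓞 L) ≤ nonZeroDivisors (𝓞 L) :=
    powers_le_nonZeroDivisors_of_noZeroDivisors hN0
  have hdom : IsDomain O' := IsLocalization.isDomain_of_le_nonZeroDivisors O' hle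
  exact ⟨IsLocalization.isDedekindDomain (𝓞 L) hle O',
    IsFractionRing.isFractionRing_of_isDomain_of_isLocalization (R := 𝓞 L)
      (Submonoid.powers ((N : ℕ) : 𝓞 L)) O' L⟩

theorem locGood_away {K L : Type} [Field K] [NumberField K] [Field L] [NumberField L]
    [Algebra K L] {n : ℕ} (N : ℕ) (hN : N ≠ 0) (F : MvPolynomial (Fin (n + 2)) (𝓞 K))
    (hF : NdOut (N : 𝓞 K) F)
    (O' : Type) [CommRing O'] [Algebra (𝓞 L) O'] [Algebra O' L] [IsScalarTower (𝓞 L) O' L]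
    [IsLocalization.Away ((N : ℕ) : 𝓞 L) O'] :
    LocGood O' (map (algebraMap K L) (map (algebraMap (𝓞 K) K) F)) := by
  have hN0 : ((N : ℕ) : 𝓞 L) ≠ 0 := by
    rw [Nat.cast_ne_zero]
    exact hN
  have hle : Submonoid.powers ((N : ℕ) : 𝓞 L) ≤ nonZeroDivisors (𝓞 L) :=
    powers_le_nonZeroDivisors_of_noZeroDivisors hN0
  have hdom : IsDomain O' := IsLocalization.isDomain_of_le_nonZeroDivisors O' hle
  have h1 : map (algebraMap K L) (map (algebraMap (𝓞 K) K) F) =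
      map (algebraMap O' L) (map ((algebraMap (𝓞 L) O').comp (algebraMap (𝓞 K) (𝓞 L))) F) := by
    rw [MvPolynomial.map_map, MvPolynomial.map_map, ← RingHom.comp_assoc,
      ← IsScalarTower.algebraMap_eq (𝓞 L) O' L]
    congr 1
  rw [h1]
  refine locGood_hom _ F (N : 𝓞 K) hF fun 𝔓 hp h0 => ⟨?_, ?_⟩
  · rw [← Ideal.comap_comap]
    apply comap_ne_bot
    intro h
    apply h0
    rw [eq_bot_iff]
    intro y hy
    obtain ⟨⟨a, s⟩, hs⟩ := IsLocalization.surj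
      (Submonoid.powers ((N : ℕ) : 𝓞 L)) y
    have h1 : a ∈ 𝔓.comap (algebraMap (𝓞 L) O') := by
      rw [Ideal.mem_comap]
      change algebraMap (𝓞 L) O' (a, s).1 ∈ 𝔓
      rw [← hs]
      exact 𝔓.mul_mem_right _ hy
    rw [h, Ideal.mem_bot] at h1
    have h2 : y * algebraMap (𝓞 L) O' (s : 𝓞 L) = 0 := by
      have h3 : y * algebraMap (𝓞 L) O' ((a, s).2 : 𝓞 L) = algebraMap (𝓞 L) O' (a, s).1 := hs
      simp only [h1, map_zero] at h3
      exact h3
    rcases mul_eq_zero.1 h2 with h3 | h3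
    · rw [h3]
      exact Ideal.zero_mem _
    · exact absurd h3 (IsLocalization.map_units O' s).ne_zero
  · intro h
    rw [Ideal.mem_comap, map_natCast] at h
    have hunit : IsUnit ((N : ℕ) : O') := by
      have h2 : IsUnit (algebraMap (𝓞 L) O' ((N : ℕ) : 𝓞 L)) :=
        IsLocalization.Away.algebraMap_isUnit _
      rwa [map_natCast] at h2
    exact hp.ne_top (Ideal.eq_top_of_isUnit_mem _ h hunit)

end Pool.Agent.Q46.ND
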