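import Pool.Agent.Q46.ND.Asm2
import Pool.Agent.Q272.OD.EK8

/-! Project ND/OD (helper46): a positive proportion of the forms. -/

set_option autoImplicit false
set_option linter.unusedSectionVars false

open MvPolynomial NumberField Filter
open scoped Classical

namespace Pool.Agent.Q46.ND

open Pool.Agent.TH214.RM Pool.Agent.Q40.OD Pool.Agent.H918R2.Quad

theorem nondeg_of_smAt {O ι : Type} [CommRing O] [Fintype ι] [DecidableEq ι] (𝔭 : Ideal O)
    (G : MvPolynomial ι O) (h : SmAt 𝔭 G) : Nondeg 𝔭 G := by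
  intro s Q hQ hlie h0 h1
  obtain ⟨j, hj⟩ := h s Q hQ hlie h0
  exact absurd (h1 j) hj

/-- A form over the integers with smooth reductions at the small primes. -/
theorem exists_seed' (n d : ℕ) (hd : 3 ≤ d) (M : ℕ) :
    ∃ F : MvPolynomial (Fin (n + 2)) ℤ, F.IsHomogeneous d ∧
      ∀ p : ℕ, p.Prime → p ≤ M → Nondeg (Ideal.span {(p : ℤ)}) F := by
  have h8 : ∀ p : ℕ, ∃ c : Ix n d → ℤ, p.Prime →
      SmAt (Ideal.span {(p : ℤ)}) (form n d c) := by
    intro p
    by_cases hp : p.Prime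
    · obtain ⟨c, hc⟩ := Pool.Agent.Q272.OD.s_ek8 n d hd p hp
      exact ⟨c, fun _ => hc⟩
    · exact ⟨0, fun h => absurd h hp⟩
  choose c hc using h8
  have hcrt : ∀ α : Ix n d, ∃ y : ℤ, ∀ p ∈ (Finset.range (M + 1)).filter Nat.Prime,
      y - c p α ∈ Ideal.span {(p : ℤ)} := by
    intro α
    obtain ⟨y, hy⟩ := IsDedekindDomain.exists_forall_sub_mem_ideal
      (s := (Finset.range (M + 1)).filter Nat.Prime)
      (fun p : ℕ => Ideal.span {(p : ℤ)}) (fun _ => 1) (by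
        intro p hp
        have h1 := (Finset.mem_filter.1 hp).2
        rw [Ideal.prime_iff_isPrime, Ideal.span_singleton_prime]
        · exact Nat.prime_iff_prime_int.1 h1
        · exact_mod_cast h1.ne_zero
        · rw [Ne, Ideal.span_singleton_eq_bot]
          exact_mod_cast h1.ne_zero) (by
        intro p _ q _ hpq h
        apply hpq
        rw [Ideal.span_singleton_eq_span_singleton, Int.associated_iff_natAbs] at h
        simpa using h) fun p => c p α
    refine ⟨y, fun p hp => ?_⟩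
    have h1 := hy p hp
    rwa [pow_one] at h1
  choose y hy using hcrt
  refine ⟨form n d y, Pool.Agent.Q38.OD.form_hom n d y, fun p hp hpM => ?_⟩
  have hmem : p ∈ (Finset.range (M + 1)).filter Nat.Prime := by
    rw [Finset.mem_filter, Finset.mem_range]
    exact ⟨by omega, hp⟩
  have hdvd : ∀ α, ∃ z : ℤ, y α = c p α + (p : ℤ) * z := by
    intro α
    obtain ⟨z, hz⟩ := Ideal.mem_span_singleton.1 (hy α p hmem)
    exact ⟨z, by linarith⟩
  choose z hz using hdvd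
  have hform : form n d y = form n d (c p) + C (p : ℤ) * form n d z := by
    unfold form
    rw [Finset.mul_sum, ← Finset.sum_add_distrib]
    refine Finset.sum_congr rfl fun α _ => ?_
    rw [hz, C_mul_monomial, ← (monomial α.1).map_add]
  rw [hform]
  exact nondeg_add _ _ _ _ (Ideal.mem_span_singleton_self _) (nondeg_of_smAt _ _ (hc p hp))

variable {K ι : Type} [Field K] [NumberField K] [Fintype ι] (ω : Module.Basis ι ℤ (𝓞 K))

theorem exists_prime_mem' {O : Type} [CommRing O] (𝔭 : Ideal O) [h𝔭 : 𝔭.IsPrime] (W : ℕ)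
    (hW : W ≠ 0) (h : (W : O) ∈ 𝔭) : ∃ p : ℕ, p.Prime ∧ p ∣ W ∧ (p : O) ∈ 𝔭 := by
  induction W using Nat.recOnMul with
  | zero => exact absurd rfl hW
  | one =>
    exfalso
    rw [Nat.cast_one] at h
    exact (Ideal.ne_top_iff_one 𝔭).1 h𝔭.ne_top h
  | prime p hp => exact ⟨p, hp, dvd_rfl, h⟩
  | mul a b ha hb =>
    rw [Nat.cast_mul] at h
    rcases h𝔭.mem_or_mem h with h1 | h1
    · obtain ⟨p, hp, hpa, hpm⟩ := ha (left_ne_zero_of_mul hW) h1
      exact ⟨p, hp, hpa.mul_right b, hpm⟩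
    · obtain ⟨p, hp, hpa, hpm⟩ := hb (right_ne_zero_of_mul hW) h1
      exact ⟨p, hp, hpa.mul_left a, hpm⟩

/-- A form over the integers of `K` with nondegenerate reductions at the small primes. -/
theorem exists_seedK (n d : ℕ) (hd : 3 ≤ d) (M : ℕ) :
    ∃ F : MvPolynomial (Fin (n + 2)) (𝓞 K), F.IsHomogeneous d ∧
      ∀ 𝔭 : Ideal (𝓞 K), 𝔭.IsPrime → ((M.factorial : ℕ) : 𝓞 K) ∈ 𝔭 → Nondeg 𝔭 F := by
  obtain ⟨F, hF, h⟩ := exists_seed' n d hd M
  refine ⟨map (Int.castRingHom (𝓞 K)) F, hF.map _, fun 𝔭 hp hM => ?_⟩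
  obtain ⟨p, hpp, hpM, hpm⟩ := exists_prime_mem' 𝔭 _ M.factorial_ne_zero hM
  refine nondeg_map _ 𝔭 F ?_
  have h1 : 𝔭.comap (Int.castRingHom (𝓞 K)) = Ideal.span {(p : ℤ)} := by
    have hmax : (Ideal.span {(p : ℤ)}).IsMaximal :=
      PrincipalIdealRing.isMaximal_of_irreducible (Nat.prime_iff_prime_int.1 hpp).irreducible
    refine (hmax.eq_of_le (Ideal.comap_isPrime _ _).ne_top ?_).symm
    rw [Ideal.span_singleton_le_iff_mem, Ideal.mem_comap]
    simpa using hpm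
  rw [h1]
  exact h p hpp ((Nat.Prime.dvd_factorial hpp).1 hpM)

theorem exists_bound' (n d : ℕ) (F : MvPolynomial (Fin (n + 2)) (𝓞 K)) (hF : F.IsHomogeneous d) :
    ∃ h₀ : ℕ, F ∈ formsX ω n d h₀ := by
  refine ⟨∑ α ∈ F.support, ∑ i, (ω.repr (coeff α F) i).natAbs, hF, fun α i => ?_⟩
  rw [← Int.natCast_natAbs, Nat.cast_le]
  by_cases hα : α ∈ F.support
  · calc (ω.repr (coeff α F) i).natAbs ≤ ∑ i, (ω.repr (coeff α F) i).natAbs :=
          Finset.single_le_sum (f := fun i => (ω.repr (coeff α F) i).natAbs)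
            (fun _ _ => Nat.zero_le _) (Finset.mem_univ i)
      _ ≤ _ := Finset.single_le_sum (f := fun α => ∑ i, (ω.repr (coeff α F) i).natAbs)
            (fun _ _ => Nat.zero_le _) hα
  · rw [notMem_support_iff.1 hα]
    simp

theorem add_mem_formsX (n d : ℕ) (W h₀ H' H : ℕ) (hH : h₀ + W * H' ≤ H)
    (F G : MvPolynomial (Fin (n + 2)) (𝓞 K)) (hF : F ∈ formsX ω n d h₀)
    (hG : G ∈ formsX ω n d H') : F + C (W : 𝓞 K) * G ∈ formsX ω n d H := by
  refine ⟨?_, fun α i => ?_⟩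
  · refine hF.1.add ?_
    have h1 := (isHomogeneous_C (Fin (n + 2)) (W : 𝓞 K)).mul hG.1
    rwa [zero_add] at h1
  · have h1 : ω.repr (coeff α (F + C (W : 𝓞 K) * G)) i =
        ω.repr (coeff α F) i + W * ω.repr (coeff α G) i := by
      rw [coeff_add, coeff_C_mul, map_add, Finsupp.add_apply]
      congr 1
      have h2 : (W : 𝓞 K) * coeff α G = (W : ℤ) • coeff α G := by
        rw [zsmul_eq_mul, Int.cast_natCast]
      rw [h2, map_smul, Finsupp.smul_apply, smul_eq_mul]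
    rw [h1]
    have h3 := hF.2 α i
    have h4 := hG.2 α i
    calc |ω.repr (coeff α F) i + W * ω.repr (coeff α G) i|
        ≤ |ω.repr (coeff α F) i| + |(W : ℤ) * ω.repr (coeff α G) i| := abs_add_le _ _
      _ = |ω.repr (coeff α F) i| + W * |ω.repr (coeff α G) i| := by
          rw [abs_mul, Nat.abs_cast]
      _ ≤ (h₀ : ℤ) + W * H' := add_le_add h3 (mul_le_mul_of_nonneg_left h4 (Nat.cast_nonneg _))
      _ ≤ H := by exact_mod_cast hH

theorem positive' (hSA : P_SA) (hSL : P_SL) (hSI : P_SI) (hN2 : P_N2) (n d : ℕ) (hd : 3 ≤ d) :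
    ∃ c : ℝ, 0 < c ∧ ∀ᶠ H : ℕ in atTop, c * ((formsX ω n d H).ncard : ℝ) ≤
      ({F ∈ formsX ω n d H | Smooth (map (algebraMap (𝓞 K) K) F) ∧ NdOut 1 F}.ncard : ℝ) := by
  obtain ⟨C₀, hC₀, h⟩ := near_nondeg ω hSA hSL hSI hN2 n d (by omega)
  obtain ⟨M, hM⟩ := exists_nat_gt (2 * C₀)
  have hM0 : (0 : ℝ) < M := lt_of_le_of_lt (by positivity) hM
  have hM1 : 1 ≤ M := by
    have : 0 < M := by exact_mod_cast hM0
    omega
  obtain ⟨F₀, hF₀, hcrit⟩ := exists_seedK (K := K) n d hd M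
  obtain ⟨h₀, hh₀⟩ := exists_bound' ω n d F₀ hF₀
  set W : ℕ := M.factorial with hW
  have hW1 : 1 ≤ W := Nat.one_le_iff_ne_zero.2 M.factorial_ne_zero
  have hev := h M 1 hM1 le_rfl F₀ hF₀ hcrit
  simp only [pow_one] at hev
  have hhalf : (1 : ℝ) / 2 ≤ 1 - C₀ / M := by
    have h1 : C₀ / M ≤ 1 / 2 := by
      rw [div_le_div_iff₀ hM0 (by norm_num)]
      linarith
    linarith
  set N : ℕ := Fintype.card ι * Fintype.card (Ix n d) with hN
  have hcardB : ∀ H, (formsX ω n d H).ncard = (2 * H + 1) ^ N := by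
    intro H
    rw [ncard_formsX' ω hSA hN2, (hSA ω H).2.1, ← pow_mul]
  set κ : ℝ := 2 * W + 2 * h₀ + 1 with hκ
  have hκ0 : 0 < κ := by positivity
  refine ⟨1 / 2 / κ ^ N, by positivity, ?_⟩
  have htend : Tendsto (fun H : ℕ => (H - h₀) / W) atTop atTop := by
    refine (Nat.tendsto_div_const_atTop (by omega)).comp ?_
    exact tendsto_sub_atTop_nat h₀
  filter_upwards [htend.eventually hev, eventually_ge_atTop h₀] with H hH hHh
  set H' := (H - h₀) / W with hH'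
  have hle : h₀ + W * H' ≤ H := by
    have h2 : W * H' ≤ H - h₀ := Nat.mul_div_le (H - h₀) W
    omega
  have hlt : H < h₀ + W * (H' + 1) := by
    have h1 : H - h₀ < W * (H' + 1) :=
      Nat.lt_mul_div_succ (H - h₀) (show 0 < W by omega)
    omega
  have h5 : ({G ∈ formsX ω n d H' |
      Smooth (map (algebraMap (𝓞 K) K) (F₀ + C (W : 𝓞 K) * G)) ∧
      NdOut 1 (F₀ + C (W : 𝓞 K) * G)}).ncard ≤
      ({F ∈ formsX ω n d H | Smooth (map (algebraMap (𝓞 K) K) F) ∧ NdOut 1 F}).ncard := by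
    have hfin : (formsX ω n d H).Finite := by
      by_contra hinf
      have h6 := hcardB H
      rw [Set.Infinite.ncard hinf] at h6
      exact (pow_pos (by omega : 0 < 2 * H + 1) N).ne h6
    refine Set.ncard_le_ncard_of_injOn (fun G => F₀ + C (W : 𝓞 K) * G) ?_ ?_
      (hfin.subset fun F hF => hF.1)
    · intro G hG
      exact ⟨add_mem_formsX ω n d W h₀ H' H hle F₀ G hh₀ hG.1, hG.2⟩
    · intro G _ G' _ hGG
      have h6 : C (W : 𝓞 K) * G = C (W : 𝓞 K) * G' := add_left_cancel hGG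
      have h7 : (C (W : 𝓞 K) : MvPolynomial (Fin (n + 2)) (𝓞 K)) ≠ 0 := by
        rw [Ne, C_eq_zero, Nat.cast_eq_zero]
        omega
      exact mul_left_cancel₀ h7 h6
  have h6 : (1 : ℝ) / 2 * (2 * (H' : ℝ) + 1) ^ N ≤
      (({F ∈ formsX ω n d H | Smooth (map (algebraMap (𝓞 K) K) F) ∧ NdOut 1 F}).ncard : ℝ) := by
    refine le_trans ?_ (Nat.cast_le.2 h5)
    refine le_trans ?_ hH
    rw [hcardB H']
    push_cast
    exact mul_le_mul_of_nonneg_right hhalf (by positivity)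
  refine le_trans ?_ h6
  rw [hcardB H]
  push_cast
  have h7 : (2 * (H : ℝ) + 1) ≤ κ * (2 * H' + 1) := by
    have h8 : (H : ℝ) ≤ h₀ + W * (H' + 1) := by exact_mod_cast hlt.le
    have h9 : (0 : ℝ) ≤ H' := Nat.cast_nonneg _
    have h10 : (0 : ℝ) ≤ W := Nat.cast_nonneg _
    have h11 : (0 : ℝ) ≤ h₀ := Nat.cast_nonneg _
    rw [hκ]
    nlinarith [mul_nonneg h10 h9, mul_nonneg h11 h9]
  have h12 : (2 * (H : ℝ) + 1) ^ N ≤ κ ^ N * (2 * H' + 1) ^ N := by
    rw [← mul_pow]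
    exact pow_le_pow_left₀ (by positivity) h7 N
  calc 1 / 2 / κ ^ N * (2 * (H : ℝ) + 1) ^ N
      ≤ 1 / 2 / κ ^ N * (κ ^ N * (2 * H' + 1) ^ N) :=
        mul_le_mul_of_nonneg_left h12 (by positivity)
    _ = 1 / 2 * (2 * (H' : ℝ) + 1) ^ N := by
        field_simp

end Pool.Agent.Q46.ND
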