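import Pool.Agent.Q46.ND.StmF

/-! Project ND (helper46): assembly of the counting theorems. -/

set_option autoImplicit false

open MvPolynomial NumberField Filter
open scoped Classical

namespace Pool.Agent.Q46.ND

open Pool.Agent.TH214.RM

/-- `W` is positive and divisible by the squares of the prime numbers `p ≤ M` and of its prime
divisors. -/
def Adm (M W : ℕ) : Prop := 1 ≤ W ∧ ∀ p : ℕ, p.Prime → (p ≤ M ∨ p ∣ W) → p ^ 2 ∣ W

theorem exists_prime_mem {O : Type} [CommRing O] (𝔭 : Ideal O) [h𝔭 : 𝔭.IsPrime] (W : ℕ)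
    (hW : W ≠ 0) (h : (W : O) ∈ 𝔭) : ∃ p : ℕ, p.Prime ∧ p ∣ W ∧ (p : O) ∈ 𝔭 := by
  induction W using Nat.recOnMul with
  | zero => exact absurd rfl hW
  | one =>
    exfalso
    rw [Nat.cast_one] at h
    exact (Ideal.ne_top_iff_one 𝔭).1 h𝔭.ne_top h
  | prime p hp => exact ⟨p, hp, dvd_rfl, h⟩
  | mul a b ha hb =>
    rw [Nat.cast_mul] at h
    rcases h𝔭.mem_or_mem h with h1 | h1
    · obtain ⟨p, hp, hpa, hpm⟩ := ha (left_ne_zero_of_mul hW) h1
      exact ⟨p, hp, hpa.mul_right b, hpm⟩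
    · obtain ⟨p, hp, hpa, hpm⟩ := hb (right_ne_zero_of_mul hW) h1
      exact ⟨p, hp, hpa.mul_left a, hpm⟩

theorem mem_sq {O : Type} [CommRing O] (𝔭 : Ideal O) [h𝔭 : 𝔭.IsPrime] (M W : ℕ)
    (hW : Adm M W) (h : (W : O) ∈ 𝔭) : (W : O) ∈ 𝔭 ^ 2 := by
  obtain ⟨p, hp, hpW, hpm⟩ := exists_prime_mem 𝔭 W (by have := hW.1; omega) h
  obtain ⟨c, hc⟩ := hW.2 p hp (Or.inr hpW)
  rw [hc, Nat.cast_mul, Nat.cast_pow]
  exact Ideal.mul_mem_right _ _ (Ideal.pow_mem_pow hpm 2)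

section

variable {K : Type} [Field K] [NumberField K] {n d : ℕ}

theorem isMaximal_of_ne_bot (𝔭 : Ideal (𝓞 K)) (hp : 𝔭.IsPrime) (h0 : 𝔭 ≠ ⊥) : 𝔭.IsMaximal :=
  Ideal.IsPrime.isMaximal hp h0

theorem locNode_near (hFB : P_FB) (hFD2 : P_FD2) (hd : 1 ≤ d) (M W : ℕ) (hM : 2 ≤ M)
    (hW : Adm M W) (F₀ G : MvPolynomial (Fin (n + 2)) (𝓞 K)) (hF₀ : F₀.IsHomogeneous d)
    (hG : G.IsHomogeneous d)
    (hcrit : ∀ 𝔭 : Ideal (𝓞 K), 𝔭.IsPrime → (W : 𝓞 K) ∈ 𝔭 → Crit 𝔭 F₀)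
    (hsm : Smooth (map (algebraMap (𝓞 K) K) (F₀ + C (W : 𝓞 K) * G)))
    (hlone : ∀ 𝔭 : Ideal (𝓞 K), Far M W 𝔭 → ∃ i : Fin (n + 2),
      LoneNode 𝔭 (rename (Equiv.swap 0 i) (F₀ + C (W : 𝓞 K) * G))) :
    LocNode (𝓞 K) (map (algebraMap (𝓞 K) K) (F₀ + C (W : 𝓞 K) * G)) := by
  have hhom : (F₀ + C (W : 𝓞 K) * G).IsHomogeneous d := by
    refine hF₀.add ?_
    have h1 := (isHomogeneous_C (Fin (n + 2)) (W : 𝓞 K)).mul hG
    rwa [zero_add] at h1
  refine hFB hd _ hhom hsm fun 𝔭 hp h0 => ?_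
  by_cases hWp : (W : 𝓞 K) ∈ 𝔭
  · left
    exact hFD2 𝔭 F₀ G W (mem_sq 𝔭 M W hW hWp) (hcrit 𝔭 hp hWp)
  · right
    have hfar : Far M W 𝔭 := by
      refine ⟨isMaximal_of_ne_bot 𝔭 hp h0, fun p hpp hpM hpm => hWp ?_, hWp⟩
      obtain ⟨c, hc⟩ := hW.2 p hpp (Or.inl hpM)
      rw [hc, Nat.cast_mul, Nat.cast_pow, pow_two, mul_assoc]
      exact Ideal.mul_mem_right _ _ hpm
    exact ⟨by simpa using hfar.2.1 2 Nat.prime_two hM, hlone 𝔭 hfar⟩

theorem locNode_away (hFB : P_FB) (hEO : P_EO) (hd : 1 ≤ d) (M : ℕ) (hM : 2 ≤ M)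
    (f : MvPolynomial (Fin (n + 2)) (𝓞 K)) (hf : f.IsHomogeneous d)
    (hsm : Smooth (map (algebraMap (𝓞 K) K) f))
    (hlone : ∀ 𝔭 : Ideal (𝓞 K), Far M 1 𝔭 → ∃ i : Fin (n + 2),
      LoneNode 𝔭 (rename (Equiv.swap 0 i) f))
    (O' : Type) [CommRing O'] [Algebra (𝓞 K) O'] [Algebra O' K] [IsScalarTower (𝓞 K) O' K]
    [IsLocalization.Away ((M.factorial : ℕ) : 𝓞 K) O'] :
    ∃ (_ : IsDedekindDomain O') (_ : IsFractionRing O' K),
      LocNode O' (map (algebraMap (𝓞 K) K) f) := by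
  have hN0 : ((M.factorial : ℕ) : 𝓞 K) ≠ 0 := by
    rw [Nat.cast_ne_zero]
    exact M.factorial_ne_zero
  have hle : Submonoid.powers ((M.factorial : ℕ) : 𝓞 K) ≤ nonZeroDivisors (𝓞 K) :=
    powers_le_nonZeroDivisors_of_noZeroDivisors hN0
  have hdom : IsDomain O' := IsLocalization.isDomain_of_le_nonZeroDivisors O' hle
  have hded : IsDedekindDomain O' := IsLocalization.isDedekindDomain (𝓞 K) hle O'
  have hfr : IsFractionRing O' K :=
    IsFractionRing.isFractionRing_of_isDomain_of_isLocalization (R := 𝓞 K)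
      (Submonoid.powers ((M.factorial : ℕ) : 𝓞 K)) O' K
  refine ⟨hded, hfr, ?_⟩
  have hmm : map (algebraMap (𝓞 K) K) f =
      map (algebraMap O' K) (map (algebraMap (𝓞 K) O') f) := by
    rw [MvPolynomial.map_map, ← IsScalarTower.algebraMap_eq]
  have hinj : Function.Injective (algebraMap (𝓞 K) O') := IsLocalization.injective O' hle
  rw [hmm] at hsm ⊢
  refine hFB hd _ (hf.map _) hsm fun 𝔓 hP h0 => ?_
  right
  have hcp : (𝔓.comap (algebraMap (𝓞 K) O')).IsPrime := Ideal.comap_isPrime _ _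
  have hunit : IsUnit (algebraMap (𝓞 K) O' ((M.factorial : ℕ) : 𝓞 K)) :=
    IsLocalization.Away.algebraMap_isUnit _
  have hNp : ((M.factorial : ℕ) : 𝓞 K) ∉ 𝔓.comap (algebraMap (𝓞 K) O') := by
    intro h
    exact hP.ne_top (Ideal.eq_top_of_isUnit_mem _ h hunit)
  have hc0 : 𝔓.comap (algebraMap (𝓞 K) O') ≠ ⊥ := by
    intro h
    apply h0
    rw [eq_bot_iff]
    intro y hy
    obtain ⟨⟨a, s⟩, hs⟩ := IsLocalization.surj
      (Submonoid.powers ((M.factorial : ℕ) : 𝓞 K)) y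
    have h1 : a ∈ 𝔓.comap (algebraMap (𝓞 K) O') := by
      rw [Ideal.mem_comap]
      change algebraMap (𝓞 K) O' (a, s).1 ∈ 𝔓
      rw [← hs]
      exact 𝔓.mul_mem_right _ hy
    rw [h, Ideal.mem_bot] at h1
    have h2 : y * algebraMap (𝓞 K) O' (s : 𝓞 K) = 0 := by
      have h3 : y * algebraMap (𝓞 K) O' ((a, s).2 : 𝓞 K) = algebraMap (𝓞 K) O' (a, s).1 := hs
      simp only [h1, map_zero] at h3
      exact h3
    rcases mul_eq_zero.1 h2 with h3 | h3
    · rw [h3]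
      exact Ideal.zero_mem _
    · exact absurd h3 (IsLocalization.map_units O' s).ne_zero
  have hfar : Far M 1 (𝔓.comap (algebraMap (𝓞 K) O')) := by
    refine ⟨isMaximal_of_ne_bot _ hcp hc0, fun p hpp hpM hpm => hNp ?_, ?_⟩
    · obtain ⟨c, hc⟩ := (Nat.Prime.dvd_factorial hpp).2 hpM
      rw [hc, Nat.cast_mul]
      exact Ideal.mul_mem_right _ _ hpm
    · rw [Nat.cast_one]
      exact (Ideal.ne_top_iff_one _).1 hcp.ne_top
  obtain ⟨i, hi⟩ := hlone _ hfar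
  refine ⟨fun h2 => ?_, i, ?_⟩
  · apply hfar.2.1 2 Nat.prime_two hM
    rw [Ideal.mem_comap, Nat.cast_ofNat, map_ofNat]
    exact h2
  · have h1 := (hEO _ _).2 (algebraMap (𝓞 K) O') 𝔓 rfl hi
    rwa [map_rename] at h1

end

section count

variable {K ι : Type} [Field K] [NumberField K] [Fintype ι] (ω : Module.Basis ι ℤ (𝓞 K))

/-- The forms with coordinates at most `H`. -/
def formsB (n d H : ℕ) : Set (MvPolynomial (Fin (n + 2)) (𝓞 K)) :=
  {F | F.IsHomogeneous d ∧ ∀ α i, |ω.repr (coeff α F) i| ≤ (H : ℤ)}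

theorem ncard_formsB (hFF : P_FF) (n d H : ℕ) (P : MvPolynomial (Fin (n + 2)) (𝓞 K) → Prop) :
    {F ∈ formsB ω n d H | P F}.ncard =
      ((boxJ ω (Mon (n + 1) d) H).filter fun g => P (form g)).card :=
  (hFF ω (n + 1) d).1 H P

theorem ncard_formsB' (hSA : P_SA) (hFF : P_FF) (n d H : ℕ) :
    (formsB ω n d H).ncard = (box ω H).card ^ Fintype.card (Mon (n + 1) d) := by
  have h1 := ncard_formsB ω hFF n d H fun _ => True
  simp only [and_true, Set.ofPred_mem_eq, Finset.filter_true] at h1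
  rw [h1, ((hSA ω H).2.2 (Mon (n + 1) d))]

theorem count_core (hSA : P_SA) (hFG : P_FG) (hFH : P_FH) (n d : ℕ) (hn : 1 ≤ n) (hd : 3 ≤ d) :
    ∃ C₀ : ℝ, 0 ≤ C₀ ∧ ∀ M W : ℕ, 2 ≤ M → 1 ≤ W → ∀ a₀ : Mon (n + 1) d → 𝓞 K,
      ∀ᶠ H : ℕ in atTop, (1 - C₀ / M) * ((box ω H).card : ℝ) ^ Fintype.card (Mon (n + 1) d) ≤
        (((boxJ ω (Mon (n + 1) d) H).filter fun g =>
          Smooth (map (algebraMap (𝓞 K) K) (form (pt a₀ W g))) ∧
          ∀ 𝔭 : Ideal (𝓞 K), Far M W 𝔭 → ∃ i : Fin (n + 2),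
            LoneNode 𝔭 (rename (Equiv.swap 0 i) (form (pt a₀ W g)))).card : ℝ) := by
  obtain ⟨C₁, hC₁⟩ := hFG ω n d hn hd
  refine ⟨max C₁ 0 + 1, by positivity, fun M W hM hW a₀ => ?_⟩
  have hM0 : (0 : ℝ) < M := by
    have : 0 < M := by omega
    exact_mod_cast this
  have e1 := hC₁ M W (by omega) a₀
  have e2 := hFH ω n d hn hd W hW a₀ (1 / M) (by positivity)
  filter_upwards [e1, e2] with H h1 h2
  have hcard : (boxJ ω (Mon (n + 1) d) H).card =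
      (box ω H).card ^ Fintype.card (Mon (n + 1) d) := (hSA ω H).2.2 _
  set S : ℝ := ((box ω H).card : ℝ) ^ Fintype.card (Mon (n + 1) d) with hS
  have hS0 : 0 ≤ S := by positivity
  set A := (boxJ ω (Mon (n + 1) d) H).filter fun g =>
    Smooth (map (algebraMap (𝓞 K) K) (form (pt a₀ W g))) ∧
      ∀ 𝔭 : Ideal (𝓞 K), Far M W 𝔭 → ∃ i : Fin (n + 2),
        LoneNode 𝔭 (rename (Equiv.swap 0 i) (form (pt a₀ W g))) with hA
  set B := (boxJ ω (Mon (n + 1) d) H).filter fun g => ∃ 𝔭 : Ideal (𝓞 K), Far M W 𝔭 ∧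
    ¬ ∃ i : Fin (n + 2), LoneNode 𝔭 (rename (Equiv.swap 0 i) (form (pt a₀ W g))) with hB
  set D := (boxJ ω (Mon (n + 1) d) H).filter fun g => ¬ Smooth
    (map (algebraMap (𝓞 K) K) (form (pt a₀ W g))) with hD
  have hsub : boxJ ω (Mon (n + 1) d) H ⊆ A ∪ (B ∪ D) := by
    intro g hg
    rw [Finset.mem_union, Finset.mem_union, hA, hB, hD, Finset.mem_filter, Finset.mem_filter,
      Finset.mem_filter]
    by_cases h3 : Smooth (map (algebraMap (𝓞 K) K) (form (pt a₀ W g)))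
    · by_cases h4 : ∀ 𝔭 : Ideal (𝓞 K), Far M W 𝔭 → ∃ i : Fin (n + 2),
        LoneNode 𝔭 (rename (Equiv.swap 0 i) (form (pt a₀ W g)))
      · exact Or.inl ⟨hg, h3, h4⟩
      · right; left
        refine ⟨hg, ?_⟩
        by_contra hcon
        apply h4
        intro 𝔭 h𝔭
        by_contra h5
        exact hcon ⟨𝔭, h𝔭, h5⟩
    · exact Or.inr (Or.inr ⟨hg, h3⟩)
  have h3 : (boxJ ω (Mon (n + 1) d) H).card ≤ A.card + (B.card + D.card) :=
    (Finset.card_le_card hsub).trans ((Finset.card_union_le _ _).trans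
      (Nat.add_le_add_left (Finset.card_union_le _ _) _))
  have h4 : (S : ℝ) ≤ A.card + (B.card + D.card) := by
    have : ((boxJ ω (Mon (n + 1) d) H).card : ℝ) ≤ ((A.card + (B.card + D.card) : ℕ) : ℝ) := by
      exact_mod_cast h3
    rw [hcard] at this
    push_cast at this
    exact this
  have h5 : (B.card : ℝ) ≤ max C₁ 0 / M * S := by
    refine h1.trans ?_
    refine mul_le_mul_of_nonneg_right ?_ hS0
    exact div_le_div_of_nonneg_right (le_max_left _ _) hM0.le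
  have h6 : (D.card : ℝ) ≤ 1 / M * S := h2
  have h7 : (1 - (max C₁ 0 + 1) / M) * S = S - max C₁ 0 / M * S - 1 / M * S := by ring
  rw [h7]
  linarith

/-- Most forms near a form which is regular at the primes dividing `W`. -/
theorem most_near (hSA : P_SA) (hFB : P_FB) (hFD2 : P_FD2) (hFF : P_FF) (hFG : P_FG) (hFH : P_FH)
    (n d : ℕ) (hn : 1 ≤ n) (hd : 3 ≤ d) :
    ∃ C₀ : ℝ, 0 ≤ C₀ ∧ ∀ M : ℕ, 1 ≤ M → ∀ W : ℕ, Adm M W →
      ∀ F₀ : MvPolynomial (Fin (n + 2)) (𝓞 K), F₀.IsHomogeneous d →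
      (∀ 𝔭 : Ideal (𝓞 K), 𝔭.IsPrime → (W : 𝓞 K) ∈ 𝔭 → Crit 𝔭 F₀) →
      ∀ᶠ H : ℕ in atTop, (1 - C₀ / M) * ((formsB ω n d H).ncard : ℝ) ≤
        ({G ∈ formsB ω n d H |
          Smooth (map (algebraMap (𝓞 K) K) (F₀ + C (W : 𝓞 K) * G)) ∧
          LocNode (𝓞 K) (map (algebraMap (𝓞 K) K) (F₀ + C (W : 𝓞 K) * G))}.ncard : ℝ) := by
  obtain ⟨C₀, hC₀, h⟩ := count_core ω hSA hFG hFH n d hn hd
  refine ⟨max C₀ 1, by positivity, fun M hM W hW F₀ hF₀ hcrit => ?_⟩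
  rcases Nat.lt_or_ge M 2 with hM2 | hM2
  · obtain rfl : M = 1 := by omega
    refine Eventually.of_forall fun H => ?_
    have h1 : (1 - max C₀ 1 / ((1 : ℕ) : ℝ)) ≤ 0 := by
      rw [Nat.cast_one, div_one]
      linarith [le_max_right C₀ 1]
    exact (mul_nonpos_of_nonpos_of_nonneg h1 (Nat.cast_nonneg _)).trans (Nat.cast_nonneg _)
  · have hM0 : (0 : ℝ) < M := by
      have : 0 < M := by omega
      exact_mod_cast this
    filter_upwards [h M W hM2 hW.1 fun α => coeff α.1 F₀] with H hH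
    rw [ncard_formsB ω hFF, ncard_formsB' ω hSA hFF, Nat.cast_pow]
    refine le_trans ?_ (le_trans hH ?_)
    · refine mul_le_mul_of_nonneg_right ?_ (by positivity)
      have : C₀ / M ≤ max C₀ 1 / M := div_le_div_of_nonneg_right (le_max_left _ _) hM0.le
      linarith
    · rw [Nat.cast_le]
      refine Finset.card_le_card fun g hg => ?_
      simp only [Finset.mem_filter] at hg ⊢
      obtain ⟨hg0, hg1, hg2⟩ := hg
      have h1 : form (pt (fun α : Mon (n + 1) d => coeff α.1 F₀) W g) =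
          F₀ + C (W : 𝓞 K) * form g := by
        rw [(hFF ω (n + 1) d).2.1, ← (hFF ω (n + 1) d).2.2 F₀ hF₀]
      rw [h1] at hg1 hg2
      have hgh : (form g : MvPolynomial (Fin (n + 2)) (𝓞 K)).IsHomogeneous d := by
        refine IsHomogeneous.sum _ _ _ fun α _ => ?_
        exact isHomogeneous_monomial _ α.2
      exact ⟨hg0, hg1, locNode_near hFB hFD2 (by omega) M W hM2 hW F₀ (form g) hF₀ hgh hcrit hg1
        hg2⟩

/-- Most forms outside the small primes. -/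
theorem most_away (hSA : P_SA) (hFB : P_FB) (hEO : P_EO) (hFF : P_FF) (hFG : P_FG) (hFH : P_FH)
    (n d : ℕ) (hn : 1 ≤ n) (hd : 3 ≤ d) :
    ∃ C₀ : ℝ, 0 ≤ C₀ ∧ ∀ M : ℕ, 1 ≤ M →
      ∀ᶠ H : ℕ in atTop, (1 - C₀ / M) * ((formsB ω n d H).ncard : ℝ) ≤
        ({F ∈ formsB ω n d H |
          Smooth (map (algebraMap (𝓞 K) K) F) ∧
          ∀ (O' : Type) [CommRing O'] [Algebra (𝓞 K) O'] [Algebra O' K] [IsScalarTower (𝓞 K) O' K]
            [IsLocalization.Away ((M.factorial : ℕ) : 𝓞 K) O'],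
            ∃ (_ : IsDedekindDomain O') (_ : IsFractionRing O' K),
              LocNode O' (map (algebraMap (𝓞 K) K) F)}.ncard : ℝ) := by
  obtain ⟨C₀, hC₀, h⟩ := count_core ω hSA hFG hFH n d hn hd
  refine ⟨max C₀ 1, by positivity, fun M hM => ?_⟩
  rcases Nat.lt_or_ge M 2 with hM2 | hM2
  · obtain rfl : M = 1 := by omega
    refine Eventually.of_forall fun H => ?_
    have h1 : (1 - max C₀ 1 / ((1 : ℕ) : ℝ)) ≤ 0 := by
      rw [Nat.cast_one, div_one]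
      linarith [le_max_right C₀ 1]
    exact (mul_nonpos_of_nonpos_of_nonneg h1 (Nat.cast_nonneg _)).trans (Nat.cast_nonneg _)
  · have hM0 : (0 : ℝ) < M := by
      have : 0 < M := by omega
      exact_mod_cast this
    filter_upwards [h M 1 hM2 le_rfl fun _ => 0] with H hH
    rw [ncard_formsB ω hFF, ncard_formsB' ω hSA hFF, Nat.cast_pow]
    refine le_trans ?_ (le_trans hH ?_)
    · refine mul_le_mul_of_nonneg_right ?_ (by positivity)
      have : C₀ / M ≤ max C₀ 1 / M := div_le_div_of_nonneg_right (le_max_left _ _) hM0.le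
      linarith
    · rw [Nat.cast_le]
      refine Finset.card_le_card fun g hg => ?_
      simp only [Finset.mem_filter] at hg ⊢
      obtain ⟨hg0, hg1, hg2⟩ := hg
      have h1 : pt (fun _ : Mon (n + 1) d => (0 : 𝓞 K)) 1 g = g := by
        funext j
        simp [pt]
      rw [h1] at hg1 hg2
      have hgh : (form g : MvPolynomial (Fin (n + 2)) (𝓞 K)).IsHomogeneous d := by
        refine IsHomogeneous.sum _ _ _ fun α _ => ?_
        exact isHomogeneous_monomial _ α.2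
      exact ⟨hg0, hg1, fun O' _ _ _ _ _ => locNode_away hFB hEO (by omega) M hM2 (form g) hgh hg1
        hg2 O'⟩

end count

end Pool.Agent.Q46.ND
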