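import Pool.Agent.Q56.OD.EK6
import Pool.Agent.Q56.OD.EK5
import Pool.Agent.Q261.OD.EK124

/-! Project ND/OD: coprime equations over `ℤ` for the forms with degenerate reduction modulo a prime
ideal of an arbitrary ring. The proof is the one of helper56 (`Pool.Agent.Q56.OD.EK6`). -/

set_option autoImplicit false

namespace Pool.Agent.Q46.ND

open Pool.Agent.Q40.OD Pool.Agent.TH214.RM Pool.Agent.H918R2.Quad MvPolynomial
open Pool.Agent.Q56.OD (Zu Zs map_form image_Zs elim1)

/-- Coprime equations for the forms with degenerate reduction, over all rings. -/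
theorem ek6_gen (n d : ℕ) (hd : 2 ≤ d) :
    ∃ (S : Finset (MvPolynomial (Ix n d) ℤ)) (N₀ : ℕ),
      Cop (S : Set (MvPolynomial (Ix n d) ℤ)) ∧
      ∀ (O : Type) [CommRing O] (𝔭 : Ideal O) [𝔭.IsPrime],
        (∀ a : ℕ, 1 ≤ a → a ≤ N₀ → (a : O) ∉ 𝔭) → ∀ c : Ix n d → O,
        ¬ Nondeg 𝔭 (form n d c) → ∀ G ∈ S, aeval c G ∈ 𝔭 := by
  classical
  have h4 : S_EK4 := Pool.Agent.Q261.OD.s_ek4
  have h5 : S_EK5 := Pool.Agent.Q56.OD.ek5
  let J : ∀ s : Fin (n + 2), Ideal (MvPolynomial (Ix n d ⊕ {j : Fin (n + 2) // j ≠ s}) ℚ) :=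
    fun s => Ideal.span (map (Int.castRingHom ℚ) '' Zu n d s)
  let I : Ideal (MvPolynomial (Ix n d) ℤ) := ⨅ s, ((J s).radical.comap
    ((rename (Sum.inl : Ix n d → Ix n d ⊕ {j : Fin (n + 2) // j ≠ s}) :
      MvPolynomial (Ix n d) ℚ →ₐ[ℚ] _).toRingHom.comp (map (Int.castRingHom ℚ))))
  have hI : ∀ G, G ∈ I ↔ ∀ s, rename Sum.inl (map (Int.castRingHom ℚ) G) ∈ (J s).radical := by
    intro G
    simp only [I, Ideal.mem_iInf, Ideal.mem_comap]
    rfl
  obtain ⟨S, hS⟩ : I.FG := IsNoetherian.noetherian I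
  have hne : Nonempty (Ix n d) := ⟨⟨Finsupp.single 0 d, Finsupp.degree_single _ _⟩⟩
  have hcl : ∀ (s : Fin (n + 2)) (G : MvPolynomial (Ix n d) ℤ), G ∈ I → ∃ a e : ℕ, 0 < a ∧
      C (a : ℤ) * rename Sum.inl G ^ e ∈ Ideal.span (Zu n d s) := by
    intro s G hG
    obtain ⟨e, he⟩ := (hI G).1 hG s
    have he' : map (algebraMap ℤ ℚ) (rename Sum.inl G ^ e) ∈
        Ideal.span (map (algebraMap ℤ ℚ) '' Zu n d s) := by
      have h1 : map (algebraMap ℤ ℚ) (rename Sum.inl G ^ e :
          MvPolynomial (Ix n d ⊕ {j : Fin (n + 2) // j ≠ s}) ℤ) =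
          rename Sum.inl (map (Int.castRingHom ℚ) G) ^ e := by
        rw [map_pow, map_rename]
        rfl
      rw [h1]
      exact he
    obtain ⟨a, ha, y, hy, hya⟩ := clear_span (nonZeroDivisors ℤ) _ _ he'
    rw [← map_C, ← map_mul] at hya
    have hinj : Function.Injective (map (algebraMap ℤ ℚ) :
        MvPolynomial (Ix n d ⊕ {j : Fin (n + 2) // j ≠ s}) ℤ → _) :=
      map_injective _ (RingHom.injective_int _)
    have h2 := hinj hya
    rw [h2] at hy
    refine ⟨a.natAbs, e, Int.natAbs_pos.2 (nonZeroDivisors.ne_zero ha), ?_⟩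
    rcases Int.natAbs_eq a with h3 | h3
    · rw [← h3]
      exact hy
    · have h4 : ((a.natAbs : ℕ) : ℤ) = -a := by omega
      rw [h4, C_neg, neg_mul]
      exact Ideal.neg_mem_iff _ |>.2 hy
  choose! A e hA hAe using hcl
  refine ⟨S, ∑ G ∈ S, ∑ s, A s G, ?_, ?_⟩
  · intro P₀ hP₀
    by_contra hnu
    obtain ⟨P₁, hP₁, hdvd, hnu1⟩ : ∃ P₁ : MvPolynomial (Ix n d) ℚ, (Ideal.span {P₁}).IsPrime ∧
        P₁ ∣ P₀ ∧ ¬ IsUnit P₁ := by
      by_cases h0 : P₀ = 0
      · refine ⟨0, ?_, by rw [h0], not_isUnit_zero⟩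
        rw [Ideal.span_singleton_eq_bot.2 rfl]
        exact Ideal.isPrime_bot
      · obtain ⟨P₁, hirr, hd1⟩ := WfDvdMonoid.exists_irreducible_factor hnu h0
        exact ⟨P₁, (Ideal.span_singleton_prime hirr.ne_zero).2 hirr.prime, hd1, hirr.not_isUnit⟩
    obtain ⟨G, hG1, hG2⟩ := elim1 (fun s : Fin (n + 2) => {j : Fin (n + 2) // j ≠ s}) (Zu n d)
      (Ideal.span {P₁}) (by
        intro s Λ _ _ c P hz
        have himg : ∀ f ∈ Zs s c P, f = 0 := by
          have h1 := image_Zs (eval₂Hom (Int.castRingHom Λ) (Sum.elim c P)) s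
            (fun α : Ix n d => X (Sum.inl α)) (fun j => X (Sum.inr j))
          simp only [eval₂Hom_X', Sum.elim_inl, Sum.elim_inr] at h1
          intro f hf
          rw [← h1] at hf
          obtain ⟨g, hg, rfl⟩ := hf
          exact hz g hg
        have h6 := h5 hd c s P (himg _ (Set.mem_insert _ _))
          (fun b => himg _ (Set.mem_insert_of_mem _ (Set.mem_insert_of_mem _ ⟨b, rfl⟩)))
          (himg _ (Set.mem_insert_of_mem _ (Set.mem_insert _ _)))
        by_contra hcon
        push Not at hcon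
        exact hnu1 (h4 c h6 P₁ fun G hG => Ideal.mem_span_singleton.1 (hcon G hG)))
    apply hG1
    have hGI : G ∈ I := (hI G).2 hG2
    rw [← hS] at hGI
    have h7 : Ideal.span (S : Set (MvPolynomial (Ix n d) ℤ)) ≤
        (Ideal.span {P₁}).comap (map (Int.castRingHom ℚ)) := by
      rw [Ideal.span_le]
      intro G' hG'
      exact Ideal.mem_span_singleton.2 (hdvd.trans (hP₀ G' hG'))
    exact h7 hGI
  · intro O _ 𝔭 _ hN c hdeg G hG
    have hGI : G ∈ I := by
      rw [← hS]
      exact Ideal.subset_span hG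
    unfold Nondeg at hdeg
    push Not at hdeg
    obtain ⟨s, Q, hQ, hQp, h1, h2, h3⟩ := hdeg
    have hle : A s G ≤ ∑ G ∈ S, ∑ s, A s G :=
      (Finset.single_le_sum (f := fun s => A s G) (fun _ _ => Nat.zero_le _)
        (Finset.mem_univ s)).trans
        (Finset.single_le_sum (f := fun G => ∑ s, A s G) (fun _ _ => Nat.zero_le _) hG)
    let θ : MvPolynomial (Ix n d ⊕ {j : Fin (n + 2) // j ≠ s}) ℤ →+*
        MvPolynomial {j : Fin (n + 2) // j ≠ s} O :=
      eval₂Hom (C.comp (Int.castRingHom O)) (Sum.elim (fun α => C (c α)) X)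
    have himg : θ '' Zu n d s ⊆ Q := by
      have h5 := image_Zs θ s (fun α : Ix n d => X (Sum.inl α)) (fun j => X (Sum.inr j))
      have h6 : (fun α : Ix n d => θ (X (Sum.inl α))) = fun α => C (c α) := by
        funext α
        simp only [θ, eval₂Hom_X', Sum.elim_inl]
      have h7 : (fun j => θ (X (Sum.inr j))) = X := by
        funext j
        simp only [θ, eval₂Hom_X', Sum.elim_inr]
      rw [h6, h7] at h5
      change θ '' Zs s _ _ ⊆ Q
      rw [h5]
      have h8 : ∀ f : MvPolynomial {j : Fin (n + 2) // j ≠ s} O, eval X (map C f) = f := by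
        intro f
        rw [eval_map]
        exact eval₂_eta f
      unfold Zs
      rw [← map_form, ← map_deh, h8]
      rintro f (rfl | rfl | ⟨b, rfl⟩)
      · exact h1
      · have h9 : (Hess (map C (deh s (form n d c)))).map (eval X) =
            Hess (deh s (form n d c)) := by
          ext1 a b
          simp only [Hess, Matrix.map_apply, Matrix.of_apply, pderiv_map]
          exact h8 _
        rw [h9]
        exact h3
      · change eval X (pderiv b (map C (deh s (form n d c)))) ∈ Q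
        rw [pderiv_map, h8]
        exact h2 b
    have h10 : Ideal.span (Zu n d s) ≤ Q.comap θ := by
      rw [Ideal.span_le]
      intro f hf
      exact himg ⟨f, hf, rfl⟩
    have h11 : θ (C (A s G : ℤ) * rename Sum.inl G ^ e s G) ∈ Q := h10 (hAe s G hGI)
    have h12 : θ (rename Sum.inl G) = C (aeval c G) := by
      have h13 : θ.comp (rename (Sum.inl : Ix n d → Ix n d ⊕ {j : Fin (n + 2) // j ≠ s}) :
          MvPolynomial (Ix n d) ℤ →ₐ[ℤ] _).toRingHom =
          (C : O →+* MvPolynomial {j : Fin (n + 2) // j ≠ s} O).comp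
            (aeval c : MvPolynomial (Ix n d) ℤ →ₐ[ℤ] O).toRingHom := by
        apply MvPolynomial.ringHom_ext'
        · exact RingHom.ext_int _ _
        · intro j
          change θ (rename Sum.inl (X j)) = C (aeval c (X j))
          rw [rename_X, aeval_X]
          simp only [θ, eval₂Hom_X', Sum.elim_inl]
      exact DFunLike.congr_fun h13 G
    have h14 : θ (C (A s G : ℤ)) = C (A s G : O) := by
      simp only [θ, eval₂Hom_C, RingHom.comp_apply]
      simp
    rw [map_mul, map_pow, h12, h14, ← C_pow, ← C_mul, hQp] at h11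
    rcases (inferInstance : 𝔭.IsPrime).mem_or_mem h11 with h15 | h15
    · exact absurd h15 (hN _ (hA s G hGI) hle)
    · exact (inferInstance : 𝔭.IsPrime).mem_of_pow_mem _ h15

end Pool.Agent.Q46.ND
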