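import Pool.Agent.Q261.OD.EK124

/-! Project ND/OD: polynomials over `ℤ` without common factor over `ℚ` have none over a field of
characteristic zero. -/

set_option autoImplicit false

namespace Pool.Agent.Q46.ND

open Pool.Agent.Q40.OD MvPolynomial

theorem cop_rename {ι κ : Type} [DecidableEq κ] (e : ι ≃ κ) (S : Finset (MvPolynomial ι ℤ))
    (hS : Cop (S : Set (MvPolynomial ι ℤ))) :
    Cop ((S.image fun G : MvPolynomial ι ℤ => rename e G : Finset (MvPolynomial κ ℤ)) :
      Set (MvPolynomial κ ℤ)) := by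
  intro P hP
  have h1 : IsUnit (rename e.symm P) := by
    refine hS _ fun G hG => ?_
    have h2 := hP (rename e G) (by
      rw [Finset.coe_image]
      exact ⟨G, hG, rfl⟩)
    have h3 := map_dvd (rename (R := ℚ) e.symm) h2
    rw [map_rename, rename_rename, Equiv.symm_comp_self, rename_id_apply] at h3
    exact h3
  have h4 := h1.map (rename (R := ℚ) e)
  rwa [rename_rename, Equiv.self_comp_symm, rename_id_apply] at h4

theorem cop_field {ι : Type} [Fintype ι] (S : Finset (MvPolynomial ι ℤ))
    (hS : Cop (S : Set (MvPolynomial ι ℤ))) {K : Type} [Field K] [CharZero K]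
    (Q : MvPolynomial ι K) (hQ : ∀ G ∈ S, Q ∣ map (Int.castRingHom K) G) : IsUnit Q := by
  classical
  have hinj : Function.Injective (Int.castRingHom K) := RingHom.injective_int _
  have hQ0 : Q ≠ 0 := by
    rintro rfl
    have h1 : ∀ G ∈ S, G = 0 := by
      intro G hG
      have h2 := zero_dvd_iff.1 (hQ G hG)
      exact map_injective _ hinj (by rw [h2, map_zero])
    have h2 : IsUnit (0 : MvPolynomial ι ℚ) := hS 0 fun G hG => by
      rw [h1 G hG, map_zero]
    exact not_isUnit_zero h2
  refine Pool.Agent.Q261.OD.isUnit_of_degreeOf Q hQ0 fun i => ?_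
  obtain ⟨N, hN⟩ : ∃ N, Fintype.card ι = N + 1 := by
    have : 0 < Fintype.card ι := Fintype.card_pos_iff.2 ⟨i⟩
    exact ⟨Fintype.card ι - 1, by omega⟩
  let e₀ : ι ≃ Fin (N + 1) := Fintype.equivFinOfCardEq hN
  let e : ι ≃ Fin (N + 1) := e₀.trans (Equiv.swap (e₀ i) 0)
  have hei : e i = 0 := by
    change Equiv.swap (e₀ i) 0 (e₀ i) = 0
    exact Equiv.swap_apply_left _ _
  obtain ⟨R, hR0, hR⟩ := Pool.Agent.Q261.OD.s_ek2 _ (cop_rename e S hS)
  have h1 : ∀ H ∈ Ideal.span ((S.image fun G : MvPolynomial ι ℤ => rename e G :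
      Finset (MvPolynomial (Fin (N + 1)) ℤ)) : Set (MvPolynomial (Fin (N + 1)) ℤ)),
      rename e Q ∣ map (Int.castRingHom K) H := by
    intro H hH
    have h2 : Ideal.span ((S.image fun G : MvPolynomial ι ℤ => rename e G :
        Finset (MvPolynomial (Fin (N + 1)) ℤ)) : Set (MvPolynomial (Fin (N + 1)) ℤ)) ≤
        (Ideal.span {rename e Q}).comap (map (Int.castRingHom K)) := by
      rw [Ideal.span_le]
      intro G hG
      rw [Finset.coe_image] at hG
      obtain ⟨G', hG', rfl⟩ := hG
      refine Ideal.mem_span_singleton.2 ?_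
      rw [map_rename]
      exact map_dvd _ (hQ G' hG')
    exact Ideal.mem_span_singleton.1 (h2 hH)
  have h2 := h1 _ hR
  rw [map_rename] at h2
  have h3 : map (Int.castRingHom K) R ≠ 0 := fun h => hR0 (map_injective _ hinj (by
    rw [h, map_zero]))
  have h4 : rename (Fin.succ (n := N)) (map (Int.castRingHom K) R) ≠ 0 := fun h =>
    h3 (rename_injective _ (Fin.succ_injective N) (by rw [h, map_zero]))
  have h5 : degreeOf 0 (rename (Fin.succ (n := N)) (map (Int.castRingHom K) R)) = 0 := by
    by_contra h6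
    have h7 : (0 : Fin (N + 1)) ∉ (rename (Fin.succ (n := N))
        (map (Int.castRingHom K) R)).vars := by
      intro h8
      obtain ⟨k, _, hk⟩ := mem_vars_rename _ _ h8
      exact Fin.succ_ne_zero k hk
    apply h7
    rw [mem_vars_iff_mem_support]
    by_contra h8
    push Not at h8
    apply h6
    have h9 : degreeOf 0 (rename (Fin.succ (n := N)) (map (Int.castRingHom K) R)) ≤ 0 := by
      rw [degreeOf_le_iff]
      intro m hm
      have := h8 m hm
      rw [Finsupp.notMem_support_iff] at this
      omega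
    omega
  obtain ⟨A, hA⟩ := h2
  rw [hA] at h4 h5
  rw [degreeOf_mul_eq (left_ne_zero_of_mul h4) (right_ne_zero_of_mul h4), ← hei,
    degreeOf_rename_of_injective e.injective] at h5
  omega

end Pool.Agent.Q46.ND
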