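import Pool.Agent.Q38.OD.EK6P
import Pool.Agent.Q56.OD.EK5

/-! Project ND/OD: an equation over `ℤ` for the singular forms over an arbitrary field of
characteristic zero. The proof is the one of helper38 (`Pool.Agent.Q38.OD.EK6P`). -/

set_option autoImplicit false

namespace Pool.Agent.Q46.ND

open Pool.Agent.Q40.OD Pool.Agent.TH214.RM MvPolynomial
open Pool.Agent.Q38.OD (map_form hom_eval form_hom Bs uf Js Js_kill exists_disc exists_fieldhom)

/-- a geometric singular point -/
theorem exists_pt {K : Type} [Field K] [CharZero K] {n d : ℕ} (hd : 1 ≤ d)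
    (G : MvPolynomial (Fin (n + 2)) K) (hG : G.IsHomogeneous d) (h : ¬ Smooth G) :
    ∃ (Λ : Type) (_ : Field Λ) (_ : CharZero Λ) (_ : Algebra K Λ) (x : Fin (n + 2) → Λ)
      (i : Fin (n + 2)), x i ≠ 0 ∧ (∀ j, aeval x (pderiv j G) = 0) ∧ aeval x G = 0 := by
  classical
  unfold Smooth at h
  push Not at h
  obtain ⟨i, hcon⟩ := h
  set I := Ideal.span (Set.range fun j => pderiv j G) with hI
  obtain ⟨P, hIP, hPp, hiP⟩ : ∃ P : Ideal (MvPolynomial (Fin (n + 2)) K), I ≤ P ∧ P.IsPrime ∧
      X i ∉ P := by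
    rw [Ideal.radical_eq_sInf, Submodule.mem_sInf] at hcon
    push Not at hcon
    obtain ⟨P, ⟨h1, h2⟩, h3⟩ := hcon
    exact ⟨P, h1, h2, h3⟩
  obtain ⟨Λ, _, ψ, hψ⟩ := exists_fieldhom P hPp
  have hinj : Function.Injective (ψ.comp (C : K →+* _)) := RingHom.injective _
  have hch : CharZero Λ := charZero_of_injective_ringHom hinj
  let _ : Algebra K Λ := (ψ.comp (C : K →+* _)).toAlgebra
  let x : Fin (n + 2) → Λ := fun j => ψ (X j)
  have hx : ∀ H : MvPolynomial (Fin (n + 2)) K, ψ H = aeval x H := by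
    intro H
    have h1 : ψ = (aeval x : _ →ₐ[K] Λ).toRingHom := by
      apply MvPolynomial.ringHom_ext'
      · ext r
        change ψ (C r) = aeval x (C r)
        rw [aeval_C]
        rfl
      · intro j
        change ψ (X j) = aeval x (X j)
        rw [aeval_X]
    exact congrArg (fun f => f H) h1
  have hpd : ∀ j, aeval x (pderiv j G) = 0 := by
    intro j
    rw [← hx, hψ]
    exact hIP (Ideal.subset_span ⟨j, rfl⟩)
  have hG0 : aeval x G = 0 := by
    have h1 := congrArg (aeval x) hG.sum_X_mul_pderiv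
    rw [map_sum, map_nsmul] at h1
    simp only [map_mul, hpd, mul_zero, Finset.sum_const_zero] at h1
    rw [eq_comm, smul_eq_zero] at h1
    rcases h1 with h1 | h1
    · omega
    · exact h1
  exact ⟨Λ, _, hch, _, x, i, fun h0 => hiP ((hψ _).1 h0), hpd, hG0⟩

/-- An equation for the singular forms. -/
theorem ek6p_gen (n d : ℕ) (hd : 2 ≤ d) :
    ∃ Δ : MvPolynomial (Ix n d) ℤ, Δ ≠ 0 ∧
      ∀ (K : Type) [Field K] [CharZero K] (c : Ix n d → K),
        ¬ Smooth (form n d c) → aeval c Δ = 0 := by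
  classical
  choose Δ hΔ0 hΔ using fun s : Fin (n + 2) =>
    exists_disc (n := n) (d := d) (s := s) Pool.Agent.Q56.OD.ek5p hd
  have hprod : ∏ s, Δ s ≠ 0 := Finset.prod_ne_zero_iff.2 fun s _ => hΔ0 s
  obtain ⟨m, hm, y, hy⟩ := clear_poly (O := ℤ) (R := ℚ) (nonZeroDivisors ℤ) (∏ s, Δ s)
  have hm0 : (m : ℚ) ≠ 0 := by
    have := nonZeroDivisors.ne_zero hm
    exact_mod_cast this
  refine ⟨y, ?_, fun K _ _ c hc => ?_⟩
  · rintro rfl
    rw [map_zero] at hy
    refine mul_ne_zero ?_ hprod hy.symm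
    rw [Ne, C_eq_zero]
    exact hm0
  · obtain ⟨Λ, _, _, _, x, s, hxs, hpd, hG0⟩ := exists_pt (by omega) (form n d c)
      (form_hom n d c) hc
    let t : Fin (n + 2) → Λ := fun j => x j * (x s)⁻¹
    have hts : t s = 1 := mul_inv_cancel₀ hxs
    have haev : ∀ (H : MvPolynomial (Fin (n + 2)) K) (e : ℕ), H.IsHomogeneous e →
        aeval x H = 0 → aeval (fun j : {j : Fin (n + 2) // j ≠ s} => t j) (deh s H) = 0 := by
      intro H e he h0
      rw [aeval_deh s t hts, aeval_scale x _ e H he, h0, zero_mul]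
    let P : {j : Fin (n + 2) // j ≠ s} → Λ := fun j => t j
    let cc : Ix n d → Λ := fun α => algebraMap K Λ (c α)
    let φ : Bs n d s →+* Λ := (aeval (Sum.elim cc P) : Bs n d s →ₐ[ℚ] Λ).toRingHom
    obtain ⟨h0, h1⟩ := Js_kill φ cc P (fun α => aeval_X _ _) (fun j => aeval_X _ _)
    have hmf : form n d cc = map (algebraMap K Λ) (form n d c) := by
      rw [map_form]
    have hev : ∀ H : MvPolynomial {j : Fin (n + 2) // j ≠ s} K,
        eval P (map (algebraMap K Λ) H) = aeval P H := by
      intro H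
      rw [eval_map, aeval_def]
    have hker : Js n d s ≤ RingHom.ker φ := by
      unfold Js
      rw [Ideal.span_le]
      rintro z (rfl | ⟨b, rfl⟩)
      · change φ _ = 0
        rw [h0, hmf, ← map_deh, hev]
        exact haev _ d (form_hom n d c) hG0
      · change φ _ = 0
        rw [h1, hmf, ← map_deh, pderiv_map, hev, pderiv_deh]
        exact haev _ (d - 1) (form_hom n d c).pderiv (hpd _)
    have h2 : φ (rename Sum.inl (Δ s)) = 0 := hker (hΔ s)
    have h3 : φ (rename Sum.inl (Δ s)) = algebraMap K Λ (aeval c (Δ s)) := by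
      have h4 : φ.comp (rename Sum.inl : MvPolynomial (Ix n d) ℚ →ₐ[ℚ] Bs n d s).toRingHom =
          (algebraMap K Λ).comp (aeval c : MvPolynomial (Ix n d) ℚ →ₐ[ℚ] K).toRingHom := by
        apply MvPolynomial.ringHom_ext'
        · exact RingHom.ext_rat _ _
        · intro α
          change aeval _ (rename Sum.inl (X α)) = algebraMap K Λ (aeval _ (X α))
          rw [rename_X, aeval_X, aeval_X]
          rfl
      exact congrArg (fun f => f (Δ s)) h4
    rw [h3] at h2
    have h5 : aeval c (Δ s) = 0 := (map_eq_zero _).1 h2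
    have h6 : aeval c y = aeval c (map (algebraMap ℤ ℚ) y) := by
      rw [aeval_map_algebraMap]
    rw [hy, map_mul, map_prod, Finset.prod_eq_zero (Finset.mem_univ s) h5, mul_zero] at h6
    exact h6

end Pool.Agent.Q46.ND
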