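import Pool.Agent.Q46.ND.StmS
import Pool.Agent.Q46.ND.K1
import Pool.Agent.Q46.ND.K2
import Pool.Agent.Q46.ND.K3

/-! Project ND/OD (helper46): forms over the integers of a number field. Most forms have
nondegenerate reductions at all large primes, almost all forms are smooth. -/

set_option autoImplicit false

open MvPolynomial NumberField Filter
open scoped Classical

namespace Pool.Agent.Q46.ND

open Pool.Agent.TH214.RM Pool.Agent.Q40.OD

variable {K ι : Type} [Field K] [NumberField K] [Fintype ι] (ω : Module.Basis ι ℤ (𝓞 K))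

theorem nat_notMem_of_far {K : Type} [Field K] [NumberField K] (M W : ℕ) (𝔭 : Ideal (𝓞 K))
    (h : Far M W 𝔭) (a : ℕ) (ha : 1 ≤ a) (haM : a ≤ M) : (a : 𝓞 K) ∉ 𝔭 := by
  have hp : 𝔭.IsPrime := h.1.isPrime
  induction a using Nat.recOnMul with
  | zero => omega
  | one =>
    rw [Nat.cast_one]
    exact (Ideal.ne_top_iff_one 𝔭).1 hp.ne_top
  | prime p hpp => exact h.2.1 p hpp haM
  | mul a b iha ihb =>
    have ha0 : 0 < a := Nat.pos_of_mul_pos_right ha
    have hb0 : 0 < b := Nat.pos_of_mul_pos_left ha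
    rw [Nat.cast_mul]
    intro hab
    rcases hp.mem_or_mem hab with h1 | h1
    · exact iha ha0 (le_trans (Nat.le_mul_of_pos_right a hb0) haM) h1
    · exact ihb hb0 (le_trans (Nat.le_mul_of_pos_left b ha0) haM) h1

/-- Most forms have nondegenerate reductions at the large primes. -/
theorem fg (hSA : P_SA) (hSL : P_SL) (n d : ℕ) (hd : 2 ≤ d) :
    ∃ C : ℝ, Rare ω (Ix n d) C fun M W a₀ g => ∃ 𝔭 : Ideal (𝓞 K), Far M W 𝔭 ∧
      ¬ Nondeg 𝔭 (form n d (pt a₀ W g)) := by
  obtain ⟨S, N₀, hS, h⟩ := ek6_gen n d hd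
  obtain ⟨C, hC⟩ := hSL (J := Ix n d) ω (κ := S)
    (fun G => map (Int.castRingHom (𝓞 K)) (G : MvPolynomial (Ix n d) ℤ)) (by
      intro Q hQ
      refine cop_field S hS Q fun G hG => ?_
      have h1 := hQ ⟨G, hG⟩
      rw [MvPolynomial.map_map] at h1
      have h2 : (algebraMap (𝓞 K) K).comp (Int.castRingHom (𝓞 K)) = Int.castRingHom K :=
        RingHom.ext_int _ _
      rwa [h2] at h1)
  refine ⟨max C N₀, fun M W hM a₀ => ?_⟩
  rcases le_or_gt N₀ M with hMN | hMN
  · filter_upwards [hC M W hM a₀] with H hH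
    have hM0 : (0 : ℝ) < M := by exact_mod_cast hM
    refine le_trans ?_ (hH.trans ?_)
    · rw [Nat.cast_le]
      refine Finset.card_le_card fun g hg => ?_
      simp only [Finset.mem_filter] at hg ⊢
      obtain ⟨hg0, 𝔭, hfar, hnd⟩ := hg
      have hp : 𝔭.IsPrime := hfar.1.isPrime
      refine ⟨hg0, 𝔭, hfar, fun G => ?_⟩
      have h3 := h (𝓞 K) 𝔭 (fun a ha haN => nat_notMem_of_far M W 𝔭 hfar a ha (haN.trans hMN))
        (pt a₀ W g) hnd G G.2
      rw [eval_map]
      exact h3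
    · refine mul_le_mul_of_nonneg_right ?_ (by positivity)
      exact div_le_div_of_nonneg_right (le_max_left _ _) hM0.le
  · refine Eventually.of_forall fun H => ?_
    have hM0 : (0 : ℝ) < M := by exact_mod_cast hM
    have h1 : (1 : ℝ) ≤ max C N₀ / M := by
      rw [le_div_iff₀ hM0, one_mul]
      refine le_trans ?_ (le_max_right _ _)
      exact_mod_cast hMN.le
    calc (((boxJ ω (Ix n d) H).filter _).card : ℝ) ≤ ((boxJ ω (Ix n d) H).card : ℝ) := by
          exact_mod_cast Finset.card_filter_le _ _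
      _ = ((box ω H).card : ℝ) ^ Fintype.card (Ix n d) := by
          rw [(hSA ω H).2.2 (Ix n d)]
          push_cast
          rfl
      _ ≤ max C N₀ / M * ((box ω H).card : ℝ) ^ Fintype.card (Ix n d) :=
          le_mul_of_one_le_left (by positivity) h1

/-- Almost all forms are smooth. -/
theorem fh (hSI : P_SI) (n d : ℕ) (hd : 2 ≤ d) (W : ℕ) (hW : 1 ≤ W) (a₀ : Ix n d → 𝓞 K)
    (ε : ℝ) (hε : 0 < ε) : ∀ᶠ H : ℕ in atTop,
    (((boxJ ω (Ix n d) H).filter fun g => ¬ Pool.Agent.TH214.RM.Smooth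
      (map (algebraMap (𝓞 K) K) (form n d (pt a₀ W g)))).card : ℝ) ≤
      ε * ((box ω H).card : ℝ) ^ Fintype.card (Ix n d) := by
  obtain ⟨Δ, hΔ, h⟩ := ek6p_gen n d hd
  have h1 : map (Int.castRingHom (𝓞 K)) Δ ≠ 0 := fun h0 => hΔ
    (map_injective _ (RingHom.injective_int (Int.castRingHom (𝓞 K))) (by rw [h0, map_zero]))
  filter_upwards [hSI ω (map (Int.castRingHom (𝓞 K)) Δ) h1 W hW a₀ ε hε] with H hH
  refine le_trans ?_ hH
  rw [Nat.cast_le]
  refine Finset.card_le_card fun g hg => ?_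
  simp only [Finset.mem_filter] at hg ⊢
  refine ⟨hg.1, ?_⟩
  have h2 := hg.2
  rw [Pool.Agent.Q38.OD.map_form] at h2
  have h3 := h K _ h2
  have h4 : algebraMap (𝓞 K) K (eval (pt a₀ W g) (map (Int.castRingHom (𝓞 K)) Δ)) = 0 := by
    rw [eval_map, ← h3]
    change _ = eval₂ (algebraMap ℤ K) _ Δ
    rw [hom_eval₂]
    congr 1
  exact (map_eq_zero_iff _ (FaithfulSMul.algebraMap_injective (𝓞 K) K)).1 h4

end Pool.Agent.Q46.ND
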