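import Pool.Agent.Q46.ND.StmN
import Pool.Agent.Q46.ND.K4
import Pool.Agent.Q46.ND.K5

/-! Project ND/OD (helper46): assembly of the counting theorems. -/

set_option autoImplicit false
set_option linter.unusedSectionVars false

open MvPolynomial NumberField Filter
open scoped Classical

namespace Pool.Agent.Q46.ND

open Pool.Agent.TH214.RM Pool.Agent.Q40.OD

/-- The reductions at the nonzero primes which do not contain `N` are nondegenerate. -/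
def NdOut {O ι : Type} [CommRing O] [Fintype ι] [DecidableEq ι] (N : O) (F : MvPolynomial ι O) :
    Prop :=
  ∀ 𝔭 : Ideal O, 𝔭.IsPrime → 𝔭 ≠ ⊥ → N ∉ 𝔭 → Nondeg 𝔭 F

section

variable {K : Type} [Field K] [NumberField K] {n d : ℕ}

theorem isMaximal_of_ne_bot' (𝔭 : Ideal (𝓞 K)) (hp : 𝔭.IsPrime) (h0 : 𝔭 ≠ ⊥) : 𝔭.IsMaximal :=
  Ideal.IsPrime.isMaximal hp h0

theorem factorial_ne_zero' (M : ℕ) : ((M.factorial : ℕ) : 𝓞 K) ≠ 0 := by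
  rw [Nat.cast_ne_zero]
  exact M.factorial_ne_zero

/-- A nonzero prime ideal without `M!` is far. -/
theorem far_of_notMem (M k : ℕ) (𝔭 : Ideal (𝓞 K)) (hp : 𝔭.IsPrime) (h0 : 𝔭 ≠ ⊥)
    (hM : ((M.factorial : ℕ) : 𝓞 K) ∉ 𝔭) : Far M (M.factorial ^ k) 𝔭 := by
  refine ⟨isMaximal_of_ne_bot' 𝔭 hp h0, fun p hpp hpM hpm => hM ?_, fun h => hM ?_⟩
  · obtain ⟨c, hc⟩ := (Nat.Prime.dvd_factorial hpp).2 hpM
    rw [hc, Nat.cast_mul]
    exact Ideal.mul_mem_right _ _ hpm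
  · rw [Nat.cast_pow] at h
    exact hp.mem_of_pow_mem _ h

theorem goodAt_of {O K : Type} [CommRing O] [Field K] [Algebra O K] (𝔭 : Ideal O) {n : ℕ}
    (H : MvPolynomial (Fin (n + 2)) O) (h : Crit 𝔭 H ∨ Nondeg 𝔭 H) :
    GoodAt 𝔭 (map (algebraMap O K) H) := by
  refine ⟨H, 1, 1, 1, one_ne_zero, Matrix.mul_one 1, ?_, h⟩
  have h1 : (fun i : Fin (n + 2) => ∑ j, C ((1 : Matrix (Fin (n + 2)) (Fin (n + 2)) K) i j) *
      (X j : MvPolynomial (Fin (n + 2)) K)) = X := by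
    funext i
    rw [Finset.sum_eq_single i]
    · rw [Matrix.one_apply_eq, C_1, one_mul]
    · intro j _ hj
      rw [Matrix.one_apply_ne hj.symm, C_0, zero_mul]
    · intro h
      exact absurd (Finset.mem_univ i) h
  rw [h1, C_1, one_mul, aeval_X_left, AlgHom.id_apply]

theorem locGood_iff {O K : Type} [CommRing O] [Field K] [Algebra O K] {n : ℕ}
    (G : MvPolynomial (Fin (n + 2)) K) :
    LocGood O G ↔ ∀ 𝔭 : Ideal O, 𝔭.IsPrime → 𝔭 ≠ ⊥ → GoodAt 𝔭 G := Iff.rfl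

end

section count

variable {K ι : Type} [Field K] [NumberField K] [Fintype ι] (ω : Module.Basis ι ℤ (𝓞 K))

/-- The forms of degree `d` with coefficients in the box. -/
def formsX (n d H : ℕ) : Set (MvPolynomial (Fin (n + 2)) (𝓞 K)) :=
  {F | F.IsHomogeneous d ∧ ∀ α i, |ω.repr (coeff α F) i| ≤ (H : ℤ)}

theorem ncard_formsX (hN2 : P_N2) (n d H : ℕ) (P : MvPolynomial (Fin (n + 2)) (𝓞 K) → Prop) :
    {F ∈ formsX ω n d H | P F}.ncard =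
      ((boxJ ω (Ix n d) H).filter fun g => P (form n d g)).card :=
  (hN2 ω n d).1 H P

theorem ncard_formsX' (hSA : P_SA) (hN2 : P_N2) (n d H : ℕ) :
    (formsX ω n d H).ncard = (box ω H).card ^ Fintype.card (Ix n d) := by
  have h1 := ncard_formsX ω hN2 n d H fun _ => True
  simp only [and_true, Set.ofPred_mem_eq, Finset.filter_true] at h1
  rw [h1, ((hSA ω H).2.2 (Ix n d))]

theorem count_core' (hSA : P_SA) (hSL : P_SL) (hSI : P_SI) (n d : ℕ) (hd : 2 ≤ d) :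
    ∃ C₀ : ℝ, 0 ≤ C₀ ∧ ∀ M W : ℕ, 1 ≤ M → 1 ≤ W → ∀ a₀ : Ix n d → 𝓞 K,
      ∀ᶠ H : ℕ in atTop, (1 - C₀ / M) * ((box ω H).card : ℝ) ^ Fintype.card (Ix n d) ≤
        (((boxJ ω (Ix n d) H).filter fun g =>
          Smooth (map (algebraMap (𝓞 K) K) (form n d (pt a₀ W g))) ∧
          ∀ 𝔭 : Ideal (𝓞 K), Far M W 𝔭 → Nondeg 𝔭 (form n d (pt a₀ W g))).card : ℝ) := by
  obtain ⟨C₁, hC₁⟩ := fg ω hSA hSL n d hd
  refine ⟨max C₁ 0 + 1, by positivity, fun M W hM hW a₀ => ?_⟩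
  have hM0 : (0 : ℝ) < M := by
    have : 0 < M := by omega
    exact_mod_cast this
  have e1 := hC₁ M W (by omega) a₀
  have e2 := fh ω hSI n d hd W hW a₀ (1 / M) (by positivity)
  filter_upwards [e1, e2] with H h1 h2
  have hcard : (boxJ ω (Ix n d) H).card =
      (box ω H).card ^ Fintype.card (Ix n d) := (hSA ω H).2.2 _
  set S : ℝ := ((box ω H).card : ℝ) ^ Fintype.card (Ix n d) with hS
  have hS0 : 0 ≤ S := by positivity
  set A := (boxJ ω (Ix n d) H).filter fun g =>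
    Smooth (map (algebraMap (𝓞 K) K) (form n d (pt a₀ W g))) ∧
      ∀ 𝔭 : Ideal (𝓞 K), Far M W 𝔭 → Nondeg 𝔭 (form n d (pt a₀ W g)) with hA
  set B := (boxJ ω (Ix n d) H).filter fun g => ∃ 𝔭 : Ideal (𝓞 K), Far M W 𝔭 ∧
    ¬ Nondeg 𝔭 (form n d (pt a₀ W g)) with hB
  set D := (boxJ ω (Ix n d) H).filter fun g => ¬ Smooth
    (map (algebraMap (𝓞 K) K) (form n d (pt a₀ W g))) with hD
  have hsub : boxJ ω (Ix n d) H ⊆ A ∪ (B ∪ D) := by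
    intro g hg
    rw [Finset.mem_union, Finset.mem_union, hA, hB, hD, Finset.mem_filter, Finset.mem_filter,
      Finset.mem_filter]
    by_cases h3 : Smooth (map (algebraMap (𝓞 K) K) (form n d (pt a₀ W g)))
    · by_cases h4 : ∀ 𝔭 : Ideal (𝓞 K), Far M W 𝔭 → Nondeg 𝔭 (form n d (pt a₀ W g))
      · exact Or.inl ⟨hg, h3, h4⟩
      · right; left
        refine ⟨hg, ?_⟩
        by_contra hcon
        apply h4
        intro 𝔭 h𝔭
        by_contra h5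
        exact hcon ⟨𝔭, h𝔭, h5⟩
    · exact Or.inr (Or.inr ⟨hg, h3⟩)
  have h3 : (boxJ ω (Ix n d) H).card ≤ A.card + (B.card + D.card) :=
    (Finset.card_le_card hsub).trans ((Finset.card_union_le _ _).trans
      (Nat.add_le_add_left (Finset.card_union_le _ _) _))
  have h4 : (S : ℝ) ≤ A.card + (B.card + D.card) := by
    have : ((boxJ ω (Ix n d) H).card : ℝ) ≤ ((A.card + (B.card + D.card) : ℕ) : ℝ) := by
      exact_mod_cast h3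
    rw [hcard] at this
    push_cast at this
    exact this
  have h5 : (B.card : ℝ) ≤ max C₁ 0 / M * S := by
    refine h1.trans ?_
    refine mul_le_mul_of_nonneg_right ?_ hS0
    exact div_le_div_of_nonneg_right (le_max_left _ _) hM0.le
  have h6 : (D.card : ℝ) ≤ 1 / M * S := h2
  have h7 : (1 - (max C₁ 0 + 1) / M) * S = S - max C₁ 0 / M * S - 1 / M * S := by ring
  rw [h7]
  linarith

/-- The core counting theorem in terms of forms. -/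
theorem core_forms (hSA : P_SA) (hSL : P_SL) (hSI : P_SI) (hN2 : P_N2) (n d : ℕ) (hd : 2 ≤ d) :
    ∃ C₀ : ℝ, 0 ≤ C₀ ∧ ∀ M k : ℕ, 1 ≤ M →
      ∀ F₀ : MvPolynomial (Fin (n + 2)) (𝓞 K), F₀.IsHomogeneous d →
      ∀ᶠ H : ℕ in atTop, (1 - C₀ / M) * ((formsX ω n d H).ncard : ℝ) ≤
        ({G ∈ formsX ω n d H |
          Smooth (map (algebraMap (𝓞 K) K) (F₀ + C (((M.factorial : ℕ) : 𝓞 K) ^ k) * G)) ∧
          NdOut ((M.factorial : ℕ) : 𝓞 K) (F₀ + C (((M.factorial : ℕ) : 𝓞 K) ^ k) * G)}.ncard :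
            ℝ) := by
  obtain ⟨C₀, hC₀, h⟩ := count_core' ω hSA hSL hSI n d hd
  refine ⟨C₀, hC₀, fun M k hM F₀ hF₀ => ?_⟩
  filter_upwards [h M (M.factorial ^ k) hM
    (Nat.one_le_iff_ne_zero.2 (pow_ne_zero _ M.factorial_ne_zero))
    fun α => coeff α.1 F₀] with H hH
  rw [ncard_formsX ω hN2, ncard_formsX' ω hSA hN2, Nat.cast_pow]
  refine hH.trans ?_
  rw [Nat.cast_le]
  refine Finset.card_le_card fun g hg => ?_
  simp only [Finset.mem_filter] at hg ⊢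
  obtain ⟨hg0, hg1, hg2⟩ := hg
  have h1 : form n d (pt (fun α : Ix n d => coeff α.1 F₀) (M.factorial ^ k) g) =
      F₀ + C (((M.factorial : ℕ) : 𝓞 K) ^ k) * form n d g := by
    rw [(hN2 ω n d).2.1, ← (hN2 ω n d).2.2 F₀ hF₀, Nat.cast_pow]
  rw [h1] at hg1 hg2
  exact ⟨hg0, hg1, fun 𝔭 hp h0 hM' => hg2 𝔭 (far_of_notMem M k 𝔭 hp h0 hM')⟩

/-- Most forms near a form which is locally good at the small primes. -/
theorem near_good (hSA : P_SA) (hSL : P_SL) (hSI : P_SI) (hN1 : P_N1) (hN2 : P_N2)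
    (n d : ℕ) (hd : 2 ≤ d) :
    ∃ C₀ : ℝ, 0 ≤ C₀ ∧ ∀ M : ℕ, 1 ≤ M →
      ∀ F₀ : MvPolynomial (Fin (n + 2)) (𝓞 K), F₀.IsHomogeneous d →
      (∀ 𝔭 : Ideal (𝓞 K), 𝔭.IsPrime → ((M.factorial : ℕ) : 𝓞 K) ∈ 𝔭 →
        GoodAt 𝔭 (map (algebraMap (𝓞 K) K) F₀)) →
      ∃ k₀ : ℕ, ∀ k : ℕ, k₀ ≤ k →
      ∀ᶠ H : ℕ in atTop, (1 - C₀ / M) * ((formsX ω n d H).ncard : ℝ) ≤
        ({G ∈ formsX ω n d H |
          Smooth (map (algebraMap (𝓞 K) K) (F₀ + C (((M.factorial : ℕ) : 𝓞 K) ^ k) * G)) ∧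
          LocGood (𝓞 K) (map (algebraMap (𝓞 K) K)
            (F₀ + C (((M.factorial : ℕ) : 𝓞 K) ^ k) * G))}.ncard : ℝ) := by
  obtain ⟨C₀, hC₀, h⟩ := core_forms ω hSA hSL hSI hN2 n d hd
  refine ⟨C₀, hC₀, fun M hM F₀ hF₀ hgood => ?_⟩
  have hMspan : Ideal.span {((M.factorial : ℕ) : 𝓞 K)} ≠ ⊥ := by
    rw [Ne, Ideal.span_singleton_eq_bot]
    exact factorial_ne_zero' M
  let S : Finset (Ideal (𝓞 K)) :=
    (UniqueFactorizationMonoid.normalizedFactors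
      (Ideal.span {((M.factorial : ℕ) : 𝓞 K)})).toFinset
  have hS : ∀ 𝔭, 𝔭 ∈ S ↔ 𝔭.IsPrime ∧ ((M.factorial : ℕ) : 𝓞 K) ∈ 𝔭 := by
    intro 𝔭
    rw [Multiset.mem_toFinset, Ideal.mem_normalizedFactors_iff hMspan,
      Ideal.span_singleton_le_iff_mem]
  have hex : ∀ 𝔭 : Ideal (𝓞 K), ∃ k₀ : ℕ, 𝔭.IsPrime → ((M.factorial : ℕ) : 𝓞 K) ∈ 𝔭 →
      ∀ k : ℕ, k₀ ≤ k → ∀ G : MvPolynomial (Fin (n + 2)) (𝓞 K), G.IsHomogeneous d →
        GoodAt 𝔭 (map (algebraMap (𝓞 K) K)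
          (F₀ + C (((M.factorial : ℕ) : 𝓞 K) ^ k) * G)) := by
    intro 𝔭
    by_cases hp : 𝔭.IsPrime ∧ ((M.factorial : ℕ) : 𝓞 K) ∈ 𝔭
    · have h0 : 𝔭 ≠ ⊥ := by
        rintro rfl
        exact factorial_ne_zero' M (Ideal.mem_bot.1 hp.2)
      obtain ⟨k₀, hk₀⟩ := hN1 𝔭 hp.1 h0 _ hp.2 F₀ hF₀ (hgood 𝔭 hp.1 hp.2)
      exact ⟨k₀, fun _ _ => hk₀⟩
    · exact ⟨0, fun h1 h2 => absurd ⟨h1, h2⟩ hp⟩
  choose k₁ hk₁ using hex
  refine ⟨S.sup k₁, fun k hk => ?_⟩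
  filter_upwards [h M k hM F₀ hF₀] with H hH
  refine hH.trans ?_
  rw [Nat.cast_le, ncard_formsX ω hN2, ncard_formsX ω hN2]
  refine Finset.card_le_card fun g hg => ?_
  simp only [Finset.mem_filter] at hg ⊢
  obtain ⟨hg0, hg1, hg2⟩ := hg
  refine ⟨hg0, hg1, fun 𝔭 hp h0 => ?_⟩
  by_cases hMp : ((M.factorial : ℕ) : 𝓞 K) ∈ 𝔭
  · refine hk₁ 𝔭 hp hMp k ((Finset.le_sup ((hS 𝔭).2 ⟨hp, hMp⟩)).trans hk) (form n d g) ?_
    exact Pool.Agent.Q38.OD.form_hom n d g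
  · exact goodAt_of 𝔭 _ (Or.inr (hg2 𝔭 hp h0 hMp))

/-- Most forms near a form which has nondegenerate reductions at the small primes. -/
theorem near_nondeg (hSA : P_SA) (hSL : P_SL) (hSI : P_SI) (hN2 : P_N2)
    (n d : ℕ) (hd : 2 ≤ d) :
    ∃ C₀ : ℝ, 0 ≤ C₀ ∧ ∀ M k : ℕ, 1 ≤ M → 1 ≤ k →
      ∀ F₀ : MvPolynomial (Fin (n + 2)) (𝓞 K), F₀.IsHomogeneous d →
      (∀ 𝔭 : Ideal (𝓞 K), 𝔭.IsPrime → ((M.factorial : ℕ) : 𝓞 K) ∈ 𝔭 → Nondeg 𝔭 F₀) →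
      ∀ᶠ H : ℕ in atTop, (1 - C₀ / M) * ((formsX ω n d H).ncard : ℝ) ≤
        ({G ∈ formsX ω n d H |
          Smooth (map (algebraMap (𝓞 K) K) (F₀ + C (((M.factorial : ℕ) : 𝓞 K) ^ k) * G)) ∧
          NdOut 1 (F₀ + C (((M.factorial : ℕ) : 𝓞 K) ^ k) * G)}.ncard : ℝ) := by
  obtain ⟨C₀, hC₀, h⟩ := core_forms ω hSA hSL hSI hN2 n d hd
  refine ⟨C₀, hC₀, fun M k hM hk F₀ hF₀ hgood => ?_⟩
  filter_upwards [h M k hM F₀ hF₀] with H hH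
  refine hH.trans ?_
  rw [Nat.cast_le, ncard_formsX ω hN2, ncard_formsX ω hN2]
  refine Finset.card_le_card fun g hg => ?_
  simp only [Finset.mem_filter] at hg ⊢
  obtain ⟨hg0, hg1, hg2⟩ := hg
  refine ⟨hg0, hg1, fun 𝔭 hp h0 _ => ?_⟩
  by_cases hMp : ((M.factorial : ℕ) : 𝓞 K) ∈ 𝔭
  · exact nondeg_add 𝔭 F₀ _ _ (Ideal.pow_mem_of_mem 𝔭 hMp k hk) (hgood 𝔭 hp hMp)
  · exact hg2 𝔭 hp h0 hMp

/-- Most forms have nondegenerate reductions outside of the small primes. -/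
theorem most_forms (hSA : P_SA) (hSL : P_SL) (hSI : P_SI) (hN2 : P_N2)
    (n d : ℕ) (hd : 2 ≤ d) :
    ∃ C₀ : ℝ, 0 ≤ C₀ ∧ ∀ M : ℕ, 1 ≤ M →
      ∀ᶠ H : ℕ in atTop, (1 - C₀ / M) * ((formsX ω n d H).ncard : ℝ) ≤
        ({F ∈ formsX ω n d H | Smooth (map (algebraMap (𝓞 K) K) F) ∧
          NdOut ((M.factorial : ℕ) : 𝓞 K) F}.ncard : ℝ) := by
  obtain ⟨C₀, hC₀, h⟩ := core_forms ω hSA hSL hSI hN2 n d hd
  refine ⟨C₀, hC₀, fun M hM => ?_⟩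
  filter_upwards [h M 0 hM 0 (isHomogeneous_zero _ _ _)] with H hH
  simpa using hH

end count

end Pool.Agent.Q46.ND
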