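import Pool.Agent.Q46.ND.StmN
import Pool.Agent.Q195.ND.SA
import Pool.Agent.Q40.OD.Count

/-! Project ND/OD: forms and coefficient vectors (N2). The proof is the one of helper195. -/

set_option autoImplicit false

open MvPolynomial NumberField Filter
open scoped Classical

namespace Pool.Agent.Q46.ND

open Pool.Agent.Q40.OD Pool.Agent.Q195.ND

theorem t_N2 : P_N2 := by
  intro K ι _ _ _ ω n d
  have hinj : Function.Injective (form n d : (Ix n d → 𝓞 K) → MvPolynomial (Fin (n + 2)) (𝓞 K)) := by
    intro a b h
    funext α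
    rw [← Pool.Agent.Q40.OD.coeff_form a, ← Pool.Agent.Q40.OD.coeff_form b, h]
  refine ⟨?_, ?_, fun F hF => (form_of_homog F hF).symm⟩
  · intro H P
    have hset : {F : MvPolynomial (Fin (n + 2)) (𝓞 K) | (F.IsHomogeneous d ∧
        ∀ α i, |ω.repr (coeff α F) i| ≤ (H : ℤ)) ∧ P F} =
        form n d '' (↑((boxJ ω (Ix n d) H).filter fun g => P (form n d g)) :
          Set (Ix n d → 𝓞 K)) := by
      ext F
      simp only [Set.mem_ofPred_eq, Set.mem_image, Finset.mem_coe, Finset.mem_filter, mem_boxJ]
      constructor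
      · rintro ⟨⟨h1, h2⟩, h3⟩
        refine ⟨fun α => coeff α.1 F, ⟨?_, ?_⟩, form_of_homog F h1⟩
        · intro α
          rw [(t_SA ω H).1]
          exact h2 α.1
        · rw [form_of_homog F h1]
          exact h3
      · rintro ⟨g, ⟨h1, h2⟩, rfl⟩
        refine ⟨⟨form_homog g, ?_⟩, h2⟩
        intro β i
        by_cases h : β.degree = d
        · have := Pool.Agent.Q40.OD.coeff_form g ⟨β, h⟩
          simp only at this
          rw [this]
          exact (t_SA ω H).1 _ |>.mp (h1 _) i
        · rw [coeff_form' g β h]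
          simp
    rw [hset, Set.ncard_image_of_injective _ hinj, Set.ncard_coe_finset]
  · intro a₀ W g
    unfold form
    rw [Finset.mul_sum, ← Finset.sum_add_distrib]
    apply Finset.sum_congr rfl
    intro α _
    rw [C_mul_monomial, ← map_add]
    rfl

end Pool.Agent.Q46.ND
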