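import Pool.Agent.TH214.RM.Fin
import Pool.Agent.H945R2.D.RA

/-!
Project ND (helper46), local part: regular models of nondegenerate double points
`π^k u + ℓ(x) + q(x) + h(x) = 0` of arithmetic hypersurfaces. Statements with complete proofs.

Notation of the library: `𝒪` a local subring of the field `F` (`IsLoc`), `U 𝒪 y`: `y` is a unit of
`𝒪`; `deh s G`: the equation in the chart `x_s = 1`; `tau s j` the coordinates of the chart;
`chart O M f = O[M/f]`, `IsLocOf 𝒪 A`: `𝒪` is a localization of `A`; `LocMod 𝔭 x`, `RegAt 𝔭 M`.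
Files: `Pool/Agent/TH214/RM/{Good,Crit,Glob,Smooth,Fin}.lean`, `Pool/Agent/H918R2/Quad/*.lean`.
-/

set_option autoImplicit false

open scoped Pointwise

namespace Pool.Agent.Q46.ND

open Pool.Agent.H918R2.Quad Pool.Agent.H945R2.E Pool.Agent.W418 Pool.Agent.TH214.RM MvPolynomial

/-- The second derivative at the origin. -/
noncomputable def hess {R σ : Type} [CommRing R] (E : MvPolynomial σ R) (i j : σ) : R :=
  constantCoeff (pderiv i (pderiv j E))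

/-- `E = π^k u + ℓ + q + h` with `u` a unit, `ℓ` linear and divisible by `π^k`, `q` a quadratic form
with invertible Hessian matrix, `h` of order at least three; `2` is a unit. -/
structure NodeR {R σ : Type} [CommRing R] [Fintype σ] [DecidableEq σ] (π : R) (k : ℕ)
    (E : MvPolynomial σ R) : Prop where
  one_le : 1 ≤ k
  two : IsUnit (2 : R)
  const : ∃ u : R, IsUnit u ∧ constantCoeff E = π ^ k * u
  lin : ∀ j, π ^ k ∣ coeff (Finsupp.single j 1) E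
  det : IsUnit (Matrix.det (Matrix.of (hess E)))

/-- Coordinates in the chart `i₀` of the blow-up. The variables: `none` is `z`, `some i₀` is `y`,
`some i` is `τ_i` for `i ≠ i₀`; `τ_{i₀} = 1`. -/
noncomputable def Tau {R σ : Type} [CommRing R] [DecidableEq σ] (i₀ i : σ) :
    MvPolynomial (Option σ) R :=
  if i = i₀ then 1 else X (some i)

/-- The equation in the chart `i₀` of the blow-up:
`c z^2 + z ∑ l_i τ_i + ∑_{|α| ≥ 2} E_α (ϖ y)^(|α|-2) τ^α`. -/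
noncomputable def FB {R σ : Type} [CommRing R] [Fintype σ] [DecidableEq σ] (ϖ : R) (i₀ : σ)
    (c : R) (l : σ → R) (E : MvPolynomial σ R) : MvPolynomial (Option σ) R :=
  C c * X none ^ 2 + X none * ∑ i, C (l i) * Tau i₀ i +
    ∑ α ∈ E.support.filter (fun α => 2 ≤ α.degree),
      C (coeff α E) * (C ϖ * X (some i₀)) ^ (α.degree - 2) * ∏ i, Tau i₀ i ^ α i

/-- `0 + 1 + ... + a`. -/
def tri (a : ℕ) : ℕ := ∑ j ∈ Finset.range (a + 1), j

/-- The generators in degree `D` of the local module: `π^(tri (e-s)) x_0^(D-s) ∏_{i<s} x_{φ i}`,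
`φ i ≠ 0` (the product of the modules `(π^j x_0, x_1, x_2, ...)`, `1 ≤ j ≤ e`, times the forms of
degree `D - e`). -/
def gens {R F : Type} [CommRing R] [Field F] [Algebra R F] (π : R) (e D : ℕ) {n : ℕ}
    (x : Fin (n + 2) → F) : Set F :=
  {g | ∃ (s : ℕ) (φ : Fin s → {j : Fin (n + 2) // j ≠ 0}), s ≤ D ∧
    g = algebraMap R F π ^ tri (e - s) * x 0 ^ (D - s) * ∏ i, x (φ i)}

/-- LA1 (RESCALING). Let `NodeR π k E`, `e = k / 2`. Then `E(π^e X) = π^(2e) E'` with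
`E' = π^(k-2e) u + ...`, linear coefficients divisible by `π`, the same Hessian, and, if `e ≥ 1`,
coefficients of the monomials of degree `≥ 3` divisible by `π`.
Proof. The coefficient of `x^α` in `E(π^e X)` is `π^(e|α|) E_α`; divide by `π^(2e)`: for `|α| ≥ 2`
put `E'_α = π^(e(|α|-2)) E_α`; `|α| = 1`: `E_α = π^k l`, `π^(e+k) = π^(2e) π^(k-e)`, `k - e ≥ 1`;
`|α| = 0`: `π^k = π^(2e) π^(k-2e)`. Define `E'` as the sum over the support of `E` (choose the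
quotients), e.g. `E' = C (π^(k-2e) u) + ∑_j C (π^(k-e) l_j) X j + ∑_{α ∈ support, |α| ≥ 2} ...`. -/
def P_LA1 : Prop := ∀ {R σ : Type} [CommRing R] [IsDomain R] [Fintype σ] [DecidableEq σ] (π : R)
  (k e : ℕ) (E : MvPolynomial σ R), NodeR π k E → e = k / 2 →
  ∃ E' : MvPolynomial σ R,
    aeval (fun j => C (π ^ e) * X j : σ → MvPolynomial σ R) E = C (π ^ (2 * e)) * E' ∧
    (∃ u, IsUnit u ∧ constantCoeff E' = π ^ (k - 2 * e) * u) ∧
    (∀ j, π ∣ coeff (Finsupp.single j 1) E') ∧ (∀ i j, hess E' i j = hess E i j) ∧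
    (1 ≤ e → ∀ α : σ →₀ ℕ, 3 ≤ α.degree → π ∣ coeff α E')

/-- LA2 (REGULARITY IN THE LAST CHART). Let `R` be a discrete valuation ring with parameter `π`,
`2` a unit, `E` a polynomial with constant coefficient `π^ε u`, `ε ≤ 1`, `u` a unit, linear
coefficients divisible by `π` and invertible Hessian matrix at the origin. Let `Q` be a prime ideal
over the closed point containing `E`. If the coefficients of degree `≥ 3` are divisible by `π`, or
all `X j ∈ Q`, then some partial derivative of `E` is not in `Q` or `E` is not in the square of the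
maximal ideal of the localization at `Q`.
Proof. Assume that all `∂_jE ∈ Q`. Modulo `Q` (which contains `C π`) we have
`∂_jE ≡ ∑_i H_ij X_i`, `H` the Hessian matrix: the linear part of `E` contributes `π`, and the part of
degree `≥ 3` is divisible by `π`, or its derivatives are in the ideal of the `X_i X_j`. Multiply by
the adjugate of `H`: all `X_i ∈ Q`. Then `E ∈ Q` gives `C (π^ε u) ∈ Q`, so `ε = 1`. Now
`E - C (π u) ∈ Q^2` (the other terms are multiples of `X_i X_j` or of `C π X_i`). Suppose `h ∉ Q` and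
`h E ∈ Q^2`; then `h C (π u) ∈ Q^2`, so `h C π ∈ Q^2`. For every `P ∈ Q` the constant coefficient is
not a unit, hence divisible by `π` (`P - C (constantCoeff P)` is in the ideal of the `X_i`), so
constant coefficients of elements of `Q^2` are divisible by `π^2`. Hence `π` divides the constant
coefficient of `h`, so `h ∈ Q`: contradiction. -/
def P_LA2 : Prop := ∀ {R σ : Type} [CommRing R] [IsDomain R] [IsDiscreteValuationRing R]
  [Fintype σ] [DecidableEq σ] (π : R), Irreducible π → IsUnit (2 : R) → ∀ (E : MvPolynomial σ R)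
  (ε : ℕ), ε ≤ 1 → (∃ u, IsUnit u ∧ constantCoeff E = π ^ ε * u) →
  (∀ j, π ∣ coeff (Finsupp.single j 1) E) → IsUnit (Matrix.det (Matrix.of (hess E))) →
  ∀ Q : Ideal (MvPolynomial σ R), Q.IsPrime → (∀ r : R, C r ∈ Q ↔ ¬ IsUnit r) → E ∈ Q →
  ((∀ α : σ →₀ ℕ, 3 ≤ α.degree → π ∣ coeff α E) ∨ ∀ j, X j ∈ Q) →
  (∃ j, pderiv j E ∉ Q) ∨ ∀ h, h ∉ Q → h * E ∉ Q ^ 2

/-- LB1 (EQUATION OF THE BLOW-UP). If the constant coefficient of `E` is `π^2 ϖ^2 c` and the linear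
ones are `π ϖ l_i` then `E(ϖ y τ) ≡ (ϖ y)^2 FB` modulo `π - z y`.
Proof. Constant term: `π^2 ϖ^2 c - (ϖ y)^2 c z^2 = ϖ^2 c (π - z y)(π + z y)`. Linear terms:
`π ϖ l_i ϖ y τ_i - (ϖ y)^2 z l_i τ_i = ϖ^2 y l_i τ_i (π - z y)`. For `|α| ≥ 2` the terms
`E_α (ϖ y)^|α| τ^α` agree. (Split the sum over the support of `E` according to the degree.) -/
def P_LB1 : Prop := ∀ {R σ : Type} [CommRing R] [Fintype σ] [DecidableEq σ] (π ϖ : R) (i₀ : σ)
  (c : R) (l : σ → R) (E : MvPolynomial σ R), constantCoeff E = π ^ 2 * ϖ ^ 2 * c →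
  (∀ i, coeff (Finsupp.single i 1) E = π * ϖ * l i) →
  aeval (fun i => C ϖ * X (some i₀) * Tau i₀ i : σ → MvPolynomial (Option σ) R) E -
    (C ϖ * X (some i₀)) ^ 2 * FB ϖ i₀ c l E ∈
    Ideal.span {(C π - X none * X (some i₀) : MvPolynomial (Option σ) R)}

/-- LB2 (REGULARITY IN THE CHARTS OF THE BLOW-UP). `R` a discrete valuation ring with parameter
`π`, `2` a unit, `E` with invertible Hessian matrix at the origin. The local rings of
`R[z, y, τ]/(π - z y, FB)` at primes containing `z` and `ϖ y` are regular.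
Proof. By `Pool.Agent.H945R2.D.RA_ok` (with `h = X (some i₀)`) it is enough to find `i ≠ i₀` with
`pr (∂_{τ_i} FB) ∉ q`. Modulo `q` (which contains `z`, `ϖ y`, and `π = z y`):
`FB ≡ q₂(τ) := ∑_{|α|=2} E_α τ^α` and, for `i ≠ i₀`, `∂_{τ_i}FB ≡ ∑_j H_ij τ_j`, `H` the Hessian
matrix (`H_ij = E_{e_i+e_j}` for `i ≠ j`, `H_ii = 2 E_{2e_i}`), because the derivative with respect
to `τ_i`, `i ≠ i₀`, does not touch `y` and `z`. Also `2 q₂(τ) = ∑_i τ_i ∑_j H_ij τ_j`. Suppose that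
`∑_j H_ij τ_j ∈ q` for all `i ≠ i₀`. As `FB ↦ 0`, `q₂(τ) ∈ q`, so
`τ_{i₀} ∑_j H_{i₀ j} τ_j = ∑_j H_{i₀ j} τ_j ∈ q`, too. Multiply with the adjugate of `H`:
`det H τ_{i₀} = det H ∈ q`, a contradiction, since `det H` is a unit. -/
def P_LB2 : Prop := ∀ {R A σ : Type} [CommRing R] [IsDomain R] [IsDiscreteValuationRing R]
  [Fintype σ] [DecidableEq σ] [CommRing A] (π ϖ : R), Irreducible π → IsUnit (2 : R) →
  ∀ (i₀ : σ) (c : R) (l : σ → R) (E : MvPolynomial σ R),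
  IsUnit (Matrix.det (Matrix.of (hess E))) →
  ∀ (pr : MvPolynomial (Option σ) R →+* A), Function.Surjective pr →
  RingHom.ker pr = Ideal.span {C π - X none * X (some i₀), FB ϖ i₀ c l E} →
  ∀ (q : Ideal A) [q.IsPrime], pr (X none) ∈ q → pr (C ϖ * X (some i₀)) ∈ q →
  IsRegularLocalRing (Localization.AtPrime q)

/-- LC (ONE CHART OF THE HYPERSURFACE). The local ring `𝒪` is regular if it is a localization of the
chart `x_s ≠ 0` of the hypersurface `G = 0` and the equation satisfies the criterion at its prime.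
Proof. This is the second half of the proof of `Pool.Agent.TH214.RM.gdg` (copy it), for the prime
`Q` of the nonunits instead of all primes. -/
def P_LC : Prop := ∀ {R F ι : Type} [CommRing R] [IsDomain R] [IsRegularRing R] [Field F]
  [Algebra R F] [Fintype ι] [DecidableEq ι] (𝒪 : Subring F), IsLoc 𝒪 →
  (∀ r : R, algebraMap R F r ∈ 𝒪) → (∀ r : R, U 𝒪 (algebraMap R F r) → IsUnit r) →
  ∀ (G : MvPolynomial ι R), G ≠ 0 → ∀ (d : ℕ), G.IsHomogeneous d →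
  ∀ (x : ι → F), aeval x G = 0 → ∀ s, x s ≠ 0 → (∀ j, x j / x s ∈ 𝒪) →
  (∃ j₀ : {i : ι // i ≠ s},
    AlgebraicIndependent R (fun i : {i : {i : ι // i ≠ s} // i ≠ j₀} => x i / x s)) →
  (∀ y ∈ 𝒪, ∃ a b : MvPolynomial {j : ι // j ≠ s} R,
    aeval (fun j : {j : ι // j ≠ s} => x j / x s) b ≠ 0 ∧
    (aeval (fun j : {j : ι // j ≠ s} => x j / x s) b)⁻¹ ∈ 𝒪 ∧
    y = aeval (fun j : {j : ι // j ≠ s} => x j / x s) a /
      aeval (fun j : {j : ι // j ≠ s} => x j / x s) b) →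
  (∀ Q : Ideal (MvPolynomial {j : ι // j ≠ s} R), Q.IsPrime →
    (∀ w, w ∈ Q ↔ ¬ U 𝒪 (aeval (fun j : {j : ι // j ≠ s} => x j / x s) w)) →
    deh s G ∈ Q → (∀ r : R, C r ∈ Q ↔ ¬ IsUnit r) →
    (∃ j, pderiv j (deh s G) ∉ Q) ∨ ∀ h, h ∉ Q → h * deh s G ∉ Q ^ 2) →
  IsRegularLocalRing 𝒪

/-- LD (THRESHOLDS). The position of the local ring `𝒪` with respect to the coordinates. Write
`t_j = x_j / x_0`, `p` for the image of `π` in `F`.
Proof. Let `g = p^(tri (e-s)) x_0^(D-s) ∏ x_{φ i}` be the given generator, `U (g/f)`; then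
`g'/g ∈ 𝒪` for all generators `g'`, and `g ≠ 0`.
(a) There is `s₀` with `x_{s₀} ≠ 0` and all `x_j/x_{s₀} ∈ 𝒪`. If `s < D`: replacing one factor `x_0` of
`g` by `x_j` (`j ≠ 0`) gives `p^(tri(e-s-1) - tri(e-s)) x_j/x_0 ∈ 𝒪`, i.e. `x_j/(p^(e-s) x_0) ∈ 𝒪`
(for `s < e`; for `s ≥ e` the exponents are zero; in the natural numbers
`tri (e-s) = tri (e-s-1) + (e-s)`), so `s₀ = 0`. If `s = D ≥ e + 1`, replacing a factor `x_{φ i}` by
`x_j`, `j ≠ 0`, or by `x_0` (then `tri (e - (D-1)) = tri 0 = 0`) shows that `s₀ = φ i` works.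
(b) If `s₀ ≠ 0`, or `s₀ = 0` and some `t_j`, `j ≠ 0`, is a unit: the first alternative with `s = s₀`.
Every generator is `x_s^D` times an element of `𝒪`; the generator `x_j^D` (`s = D`, `φ = j`
constant, `tri (e - D) = 0`) for `j = s₀` resp. `j` is `x_s^D` times a unit. So `g/x_s^D` divides a
unit in `𝒪`, it is a unit, and so is `f/x_s^D`.
(c) Otherwise `s₀ = 0` and all `t_j`, `j ≠ 0`, are nonunits. Let `j₀ ≤ e` be maximal with
`t_j/p^{j₀} ∈ 𝒪` for all `j ≠ 0`. If `j₀ = e`: the generator `g₀ = p^(tri e) x_0^D` divides every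
generator: `g'/g₀ = p^(tri (e-s') - tri e) ∏ t_{φ' i}` and `∏ t_{φ' i} ∈ p^(e s') 𝒪`,
`tri e ≤ tri (e - s') + e s'`. So `g₀/f` is a unit: second alternative.
(d) `j₀ < e`. From (a): if `s < D` and `s < e` then `t_j/p^(e-s) ∈ 𝒪` for all `j`, so `e - s ≤ j₀`. In
all cases `s ≥ e - j₀ ≥ 1`. Let `i = φ 0` (any factor). Replacing the factor `x_i` by `x_j` gives
`x_j/x_i ∈ 𝒪`. Replacing it by `x_0` gives `p^(tri (e-s+1) - tri (e-s)) x_0/x_i ∈ 𝒪`. If `s > e` this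
says `x_0/x_i ∈ 𝒪`, so `t_i` is a unit, a contradiction. So `s ≤ e`, `p^(e-s+1)/t_i ∈ 𝒪`, and as
`e - s + 1 ≤ j₀ + 1` also `z = p^(j₀+1)/t_i ∈ 𝒪`. If `z` were a unit, then `t_i/p^(j₀+1) ∈ 𝒪` and
`t_j/p^(j₀+1) = (x_j/x_i) (t_i/p^(j₀+1)) ∈ 𝒪` for all `j`, against the maximality of `j₀`. So `z` is a
nonunit. Let `g₁ = p^(tri j₀) x_0^(D-e+j₀) x_i^(e-j₀)` (`s₁ = e - j₀`, `φ = i` constant). It divides
every generator `g'` (`s'`, `φ'`): `g'/x_0^D = p^(tri (e-s')) ∏ t_{φ'}` and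
`∏ t_{φ'} = t_i^{s'} · (element of 𝒪)`. If `s' ≥ s₁`: `tri j₀ ≤ tri (e-s') + j₀ (s'-s₁)` and
`t_i^(s'-s₁) ∈ p^(j₀(s'-s₁)) 𝒪`. If `s' < s₁`: `tri (e-s') ≥ tri j₀ + (j₀+1)(s₁-s')` and
`p^((j₀+1)(s₁-s'))/t_i^(s₁-s') = z^(s₁-s') ∈ 𝒪`. So `g₁/g ∈ 𝒪` and `g/g₁ ∈ 𝒪`, and `g₁/f` is a unit:
third alternative. -/
def P_LD : Prop := ∀ {R F : Type} [CommRing R] [Field F] [Algebra R F] (𝒪 : Subring F), IsLoc 𝒪 →
  ∀ (π : R), algebraMap R F π ∈ 𝒪 → algebraMap R F π ≠ 0 → ¬ U 𝒪 (algebraMap R F π) →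
  ∀ (e D : ℕ), e + 1 ≤ D → ∀ {n : ℕ} (x : Fin (n + 2) → F) (f : F),
  (∀ g ∈ gens π e D x, g / f ∈ 𝒪) → (∃ g ∈ gens π e D x, U 𝒪 (g / f)) →
  (∃ s, x s ≠ 0 ∧ (∀ j, x j / x s ∈ 𝒪) ∧ U 𝒪 (f / x s ^ D) ∧
    (s = 0 → ∃ j, j ≠ 0 ∧ U 𝒪 (x j / x 0))) ∨
  (x 0 ≠ 0 ∧ (∀ j, j ≠ 0 → ¬ U 𝒪 (x j / x 0)) ∧
    (∀ j, j ≠ 0 → x j / (algebraMap R F π ^ e * x 0) ∈ 𝒪) ∧
    U 𝒪 (f / (algebraMap R F π ^ tri e * x 0 ^ D))) ∨
  (x 0 ≠ 0 ∧ (∀ j, j ≠ 0 → ¬ U 𝒪 (x j / x 0)) ∧ ∃ j₀, j₀ < e ∧ ∃ i, i ≠ 0 ∧ x i ≠ 0 ∧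
    (∀ j, j ≠ 0 → x j / x i ∈ 𝒪) ∧
    x i / (algebraMap R F π ^ j₀ * x 0) ∈ 𝒪 ∧
    algebraMap R F π ^ (j₀ + 1) * x 0 / x i ∈ 𝒪 ∧
    ¬ U 𝒪 (algebraMap R F π ^ (j₀ + 1) * x 0 / x i) ∧
    U 𝒪 (f / (algebraMap R F π ^ tri j₀ * x 0 ^ (D - e + j₀) * x i ^ (e - j₀))))

/-- LE (ASSEMBLY IN THE LAST CHART). The second alternative of LD gives a regular local ring.
Proof. Uses LA1, LA2. `W = R[X_j, j ≠ 0]`, `eW : X_j ↦ x_j/(p^e x_0)`, `E = deh 0 G`, `E'` as in LA1;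
`eW E' = 0` since `p^(2e) eW(E') = E(x_j/x_0) = 0` (`aeval_deh`, `aeval_scale`). Let `A = W/(E')`
(`exists_quot`). Apply `regular_of_pres` with `y_j = C (π^e) X_j` (`eW (y_j) = x_j/x_0`), `P = E`
(`aeval y E = C (π^(2e)) E' ↦ 0`), the given `j₀` and independence; `hgen`: for `w` of degree `N`
the product `C (π^(eN)) w` is a polynomial in the `y_j` (induction on `w`, `p' = C (π^(eN))`). The
fractions: `frac_of_chart` with `h = p^(tri e) x_0^D`; every generator is `h · eW w`: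
`p^(tri (e-s)) x_0^(D-s) ∏ x_{φ i} = h · p^(tri(e-s) + e s - tri e) ∏ (x_{φ i}/(p^e x_0))`, with
`tri e ≤ tri (e-s) + e s`. Regularity of `A_q`: let `Q` be the preimage of `q`; `C r ∈ Q` iff `r` is
not a unit. LA2 with `ε = k - 2e ≤ 1`: if `e = 0` then `X_j ∈ Q` since `x_j/x_0` is a nonunit; if
`e ≥ 1` the coefficients of degree `≥ 3` are divisible by `π`. Conclude as at the end of the proof
of `Pool.Agent.TH214.RM.gdg` (`regular_of_pderiv`, `reg_crit_one`). -/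
def P_LE : Prop := ∀ {R F : Type} [CommRing R] [IsDomain R] [IsDiscreteValuationRing R] [Field F]
  [Algebra R F] (𝒪 : Subring F), IsLoc 𝒪 → (∀ r : R, algebraMap R F r ∈ 𝒪) →
  (∀ r : R, U 𝒪 (algebraMap R F r) → IsUnit r) → Function.Injective (algebraMap R F) →
  ∀ (π : R), Irreducible π → ∀ {n : ℕ} (k e D d : ℕ) (G : MvPolynomial (Fin (n + 2)) R), G ≠ 0 →
  G.IsHomogeneous d → NodeR π k (deh 0 G) → e = k / 2 → ∀ (x : Fin (n + 2) → F),
  aeval x G = 0 → x 0 ≠ 0 → (∀ j, j ≠ 0 → ¬ U 𝒪 (x j / x 0)) →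
  (∀ j, j ≠ 0 → x j / (algebraMap R F π ^ e * x 0) ∈ 𝒪) →
  (∃ j₀ : {i : Fin (n + 2) // i ≠ 0}, AlgebraicIndependent R
    (fun i : {i : {i : Fin (n + 2) // i ≠ 0} // i ≠ j₀} => x i / x 0)) →
  ∀ f : F, f ∈ Submodule.span R (gens π e D x) →
  U 𝒪 (f / (algebraMap R F π ^ tri e * x 0 ^ D)) →
  IsLocOf 𝒪 (chart R (Submodule.span R (gens π e D x)) f) → IsRegularLocalRing 𝒪

/-- LF (ASSEMBLY IN THE OTHER CHARTS). The third alternative of LD gives a regular local ring.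
Proof. Uses LB1, LB2. Let `σ = {j // j ≠ 0}`, `i₀ : σ` the index of LD, `ϖ = π^j₀`,
`W = MvPolynomial (Option σ) R`, `eW : X none ↦ z = p^(j₀+1) x_0/x_{i₀}`,
`X (some i₀) ↦ y = x_{i₀}/(p^j₀ x_0)`, `X (some i) ↦ x_i/x_{i₀}`. All values are in `𝒪`. Since
`2 j₀ + 2 ≤ k` write the constant coefficient of `E = deh 0 G` as `π^2 ϖ^2 c`, `c = π^(k-2j₀-2) u`,
and the linear ones as `π ϖ l_i`. `eW (C π - z y) = 0`; the coordinates
`Y_i = C ϖ * X (some i₀) * Tau i₀ i` have the values `x_i/x_0`, so LB1 gives `eW (FB) = 0`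
(`E(x_i/x_0) = 0`, `ϖ y ↦ x_{i₀}/x_0 ≠ 0`). `A = W/(π - z y, FB)`. Apply `regular_of_pres` with `Y`,
`P = E` (its value at `Y` is in the ideal by LB1), the given `j₀` and independence; `hgen` for
`w = X o`: `z`: `p' = X i₀` (value `ϖ y`), `Y_{i₀} z ≡ ϖ π`, `p = C (ϖ π)`; `y`: `p' = C ϖ`,
`p = X i₀`; `τ_i`: `p' = X i₀`, `p = X i` (`Y_i = Y_{i₀} τ_i`); products and sums as in the proof of
`Pool.Agent.H918R2.Quad.regular_exc` (file Bad2). Fractions: `frac_of_chart` with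
`h = p^(tri j₀) x_0^(D-e+j₀) x_{i₀}^(e-j₀)`; every generator is `h · eW w`: with `s₁ = e - j₀` the
quotient by `x_0^D` is `p^(tri(e-s)) ∏ t_{φ i}`, `t_i = t_{i₀} τ_i`, `t_{i₀} = ϖ y`, `p = z y`. If
`s ≥ s₁`: `p^(tri (e-s)) t_{i₀}^s = p^(tri j₀) t_{i₀}^{s₁} · p^(tri(e-s) + j₀(s-s₁) - tri j₀) y^(s-s₁)`.
If `s < s₁`: `p^(tri (e-s)) t_{i₀}^s = p^(tri j₀) t_{i₀}^{s₁} · p^(tri(e-s) - tri j₀ - (j₀+1)(s₁-s)) z^(s₁-s)`
because `p^(j₀+1) = z t_{i₀}`. Regularity of `A_q`: LB2; `z` is a nonunit; `ϖ y` is the nonunit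
`x_{i₀}/x_0`. -/
def P_LF : Prop := ∀ {R F : Type} [CommRing R] [IsDomain R] [IsDiscreteValuationRing R] [Field F]
  [Algebra R F] (𝒪 : Subring F), IsLoc 𝒪 → (∀ r : R, algebraMap R F r ∈ 𝒪) →
  (∀ r : R, U 𝒪 (algebraMap R F r) → IsUnit r) → Function.Injective (algebraMap R F) →
  ∀ (π : R), Irreducible π → ∀ {n : ℕ} (k e D d : ℕ) (G : MvPolynomial (Fin (n + 2)) R), G ≠ 0 →
  G.IsHomogeneous d → NodeR π k (deh 0 G) → e = k / 2 → e ≤ D → ∀ (x : Fin (n + 2) → F),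
  aeval x G = 0 → x 0 ≠ 0 → (∀ j, j ≠ 0 → ¬ U 𝒪 (x j / x 0)) →
  ∀ j₀, j₀ < e → ∀ i, i ≠ 0 → x i ≠ 0 → (∀ j, j ≠ 0 → x j / x i ∈ 𝒪) →
  x i / (algebraMap R F π ^ j₀ * x 0) ∈ 𝒪 → algebraMap R F π ^ (j₀ + 1) * x 0 / x i ∈ 𝒪 →
  ¬ U 𝒪 (algebraMap R F π ^ (j₀ + 1) * x 0 / x i) →
  (∃ j₁ : {i : Fin (n + 2) // i ≠ 0}, AlgebraicIndependent R
    (fun i : {i : {i : Fin (n + 2) // i ≠ 0} // i ≠ j₁} => x i / x 0)) →
  ∀ f : F, f ∈ Submodule.span R (gens π e D x) →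
  U 𝒪 (f / (algebraMap R F π ^ tri j₀ * x 0 ^ (D - e + j₀) * x i ^ (e - j₀))) →
  IsLocOf 𝒪 (chart R (Submodule.span R (gens π e D x)) f) → IsRegularLocalRing 𝒪

/-- LG (LOCAL THEOREM OVER A DISCRETE VALUATION RING). Let `G` have a node of type `NodeR π k` at
`(1 : 0 : ... : 0)` and satisfy the criterion at all the other points over the closed point. All
local rings `𝒪` of the charts of the module generated by `gens π e D x`, `e = k / 2`, are regular.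
Proof. `exists_U_gen` and LD. First alternative: LC; the fractions by `frac_of_chart` with
`h = x_s^D` and `W = R[X_j, j ≠ s]`, `eW = aeval (x_j/x_s)`: each generator is
`x_s^D · eW (C π^(tri (e-s')) tau s 0^(D-s') ∏ tau s (φ i))`; the criterion at the prime `Q` of LC:
in the exceptional case all `tau s j ∈ Q`, `j ≠ 0`: if `s ≠ 0` then `tau s s = 1 ∈ Q`,
a contradiction, and if `s = 0` then all `x_j/x_0`, `j ≠ 0`, are nonunits, a contradiction. Second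
and third alternative: LE, LF. -/
def P_LG : Prop := ∀ {R F : Type} [CommRing R] [IsDomain R] [IsDiscreteValuationRing R] [Field F]
  [Algebra R F] (𝒪 : Subring F), IsLoc 𝒪 → (∀ r : R, algebraMap R F r ∈ 𝒪) →
  (∀ r : R, U 𝒪 (algebraMap R F r) → IsUnit r) → Function.Injective (algebraMap R F) →
  ∀ (π : R), Irreducible π → ∀ {n : ℕ} (k e D d : ℕ) (G : MvPolynomial (Fin (n + 2)) R), G ≠ 0 →
  G.IsHomogeneous d → NodeR π k (deh 0 G) → e = k / 2 → e + 1 ≤ D →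
  (∀ (s : Fin (n + 2)) (Q : Ideal (MvPolynomial {j : Fin (n + 2) // j ≠ s} R)), Q.IsPrime →
    deh s G ∈ Q → (∀ r : R, C r ∈ Q ↔ ¬ IsUnit r) → (∃ j, pderiv j (deh s G) ∉ Q) ∨
      (∀ h, h ∉ Q → h * deh s G ∉ Q ^ 2) ∨ ∀ j, j ≠ 0 → tau s j ∈ Q) →
  ∀ (x : Fin (n + 2) → F), aeval x G = 0 →
  (∀ s, x s ≠ 0 → ∃ j₀ : {i : Fin (n + 2) // i ≠ s}, AlgebraicIndependent R
    (fun i : {i : {i : Fin (n + 2) // i ≠ s} // i ≠ j₀} => x i / x s)) →
  ∀ f : F, f ≠ 0 → f ∈ Submodule.span R (gens π e D x) → (∀ g ∈ gens π e D x, g / f ∈ 𝒪) →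
  IsLocOf 𝒪 (chart R (Submodule.span R (gens π e D x)) f) → IsRegularLocalRing 𝒪

/-- A node over `𝔭` at `(1 : 0 : ... : 0)`, the criterion at the other points over `𝔭`. -/
structure NodeO {O : Type} [CommRing O] (𝔭 : Ideal O) (k : ℕ) {n : ℕ}
    (H : MvPolynomial (Fin (n + 2)) O) : Prop where
  one_le : 1 ≤ k
  two : (2 : O) ∉ 𝔭
  const : constantCoeff (deh 0 H) ∈ 𝔭 ^ k
  const' : constantCoeff (deh 0 H) ∉ 𝔭 ^ (k + 1)
  lin : ∀ j, coeff (Finsupp.single j 1) (deh 0 H) ∈ 𝔭 ^ k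
  det : Matrix.det (Matrix.of (hess (deh 0 H))) ∉ 𝔭
  off : ∀ (s : Fin (n + 2)) (Q : Ideal (MvPolynomial {j : Fin (n + 2) // j ≠ s} O)), Q.IsPrime →
    (∀ r : O, C r ∈ Q ↔ r ∈ 𝔭) → deh s H ∈ Q → (∃ j, pderiv j (deh s H) ∉ Q) ∨
      (∀ h, h ∉ Q → h * deh s H ∉ Q ^ 2) ∨ ∀ j, j ≠ 0 → tau s j ∈ Q

/-- LH (LOCAL MODULE AT A NODE). As `Pool.Agent.TH214.RM.locMod_of_crit`, with `NodeO 𝔭 k G` in
place of `Crit 𝔭 G`.
Proof. By `locMod_lin` it is enough to prove `LocMod 𝔭 x'` (as in `locMod_of_crit`). Let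
`π ∈ 𝔭`, `π ∉ 𝔭^2`, `e = k/2`, `D₀ = e + 1`, `N = span O (range x'^D)`, and
`P = {y ∈ N | s • y ∈ span O (gens π e D x') for some s ∉ 𝔭}`. Conditions: (1) `P ≤ N`.
(2) `π^(tri e) • N ≤ span (gens)` (a product of `D` coordinates with `s` factors `≠ x'_0` times
`π^(tri e)` is a multiple of a generator), and `c ∈ 𝔭^(tri e)` satisfies `s c = b π^(tri e)` for some
`s ∉ 𝔭` (`exists_pow_dvd`). (3) Let `M ≤ P` generate `P` at `𝔭`. As in the proof of `regAt_of_crit`: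
`R = O_𝔭` inside `K`, `transfer 𝔭 M (gens) ...` (with `gens` over `R` and `algebraMap O R π`, the
same set) gives a local ring `𝒪` over `R` to which LG applies: `R` is a discrete valuation ring
with parameter `π`; `NodeR` for the image of `G` over `R`: `constantCoeff = π^k u` with `u` a unit as
it is in `𝔭^k R = (π^k)` and not in `(π^(k+1))` (if `π^(k+1) ∣ c` in `R` then `s c ∈ 𝔭^(k+1)` with
`s ∉ 𝔭`, hence `c ∈ 𝔭^(k+1)`, `𝔭` maximal); `off` over `R` as in `crit_loc`; independence of the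
ratios by `hind_of` as in `regAt_of_crit`. `deh` and `hess` commute with `map` (`map_deh`). -/
def P_LH : Prop := ∀ {O K F : Type} [CommRing O] [IsDedekindDomain O] [Field K] [Algebra O K]
  [IsFractionRing O K] [Field F] [Algebra K F] [Algebra O F] [IsScalarTower O K F]
  (𝔭 : Ideal O) [𝔭.IsPrime], 𝔭 ≠ ⊥ → ∀ {n : ℕ} (G : MvPolynomial (Fin (n + 2)) O), G ≠ 0 →
  ∀ d : ℕ, G.IsHomogeneous d → ∀ k : ℕ, NodeO 𝔭 k G →
  ∀ (x : Fin (n + 2) → F), x 0 = 1 → IntermediateField.adjoin K (Set.range x) = ⊤ →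
  ∀ (b : Fin n → F), IsTranscendenceBasis K b →
  ∀ (x' : Fin (n + 2) → F) (u u' : Fin (n + 2) → Fin (n + 2) → K),
  (∀ i, x i = ∑ j, algebraMap K F (u i j) * x' j) →
  (∀ i, x' i = ∑ j, algebraMap K F (u' i j) * x j) → aeval x' G = 0 → LocMod 𝔭 x

/-- Over each nonzero prime the hypersurface has in suitable coordinates an equation which is
regular or has one node. -/
def LocNode (O : Type) {K : Type} [CommRing O] [Field K] [Algebra O K] {n : ℕ}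
    (G : MvPolynomial (Fin (n + 2)) K) : Prop :=
  ∀ 𝔭 : Ideal O, 𝔭.IsPrime → 𝔭 ≠ ⊥ →
    ∃ (H : MvPolynomial (Fin (n + 2)) O) (l : K) (T T' : Matrix (Fin (n + 2)) (Fin (n + 2)) K),
      l ≠ 0 ∧ T * T' = 1 ∧
      map (algebraMap O K) H = C l * aeval (fun i => ∑ j, C (T i j) * X j) G ∧
      (Crit 𝔭 H ∨ ∃ k, NodeO 𝔭 k H)

/-- LI (GLOBAL MODULE). As `Pool.Agent.TH214.RM.goodModule_of_locReg`, with `LocNode O G`.
Proof. Copy the proof; at the end of the first bullet distinguish the two cases: `locMod_of_crit`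
or LH (same arguments). -/
def P_LI : Prop := ∀ {O K F : Type} [CommRing O] [IsDedekindDomain O] [Field K] [Algebra O K]
  [IsFractionRing O K] [Field F] [Algebra K F] [Algebra O F] [IsScalarTower O K F] {n : ℕ}
  (G : MvPolynomial (Fin (n + 2)) K), G ≠ 0 → ∀ d : ℕ, G.IsHomogeneous d →
  Pool.Agent.TH214.RM.Smooth G → LocNode O G → ∀ (x : Fin (n + 2) → F), x 0 = 1 →
  aeval x G = 0 → IntermediateField.adjoin K (Set.range x) = ⊤ →
  ∀ (b : Fin n → F), IsTranscendenceBasis K b → GoodModule O x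

end Pool.Agent.Q46.ND
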