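import Pool.Agent.Q46.ND.StmS
import Pool.Agent.Q46.ND.StmE
import Pool.Agent.Q46.ND.StmL

/-!
Project ND (helper46), global part: statements with complete proofs.
-/

set_option autoImplicit false

open AlgebraicGeometry CategoryTheory CategoryTheory.Limits MvPolynomial NumberField Filter
open scoped Classical

namespace Pool.Agent.Q46.ND

open Pool.Agent.H918R2.Quad Pool.Agent.H945R2.E Pool.Agent.W418 Pool.Agent.TH214.RM

/-- Translation by `b`: `x_j ↦ x_j + b_j x_0` for `j ≠ 0`. -/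
noncomputable def trans {A : Type} [CommRing A] {m : ℕ} (b : Fin (m + 1) → A)
    (f : MvPolynomial (Fin (m + 1)) A) : MvPolynomial (Fin (m + 1)) A :=
  aeval (fun j => if j = 0 then X 0 else X j + C (b j) * X 0 :
    Fin (m + 1) → MvPolynomial (Fin (m + 1)) A) f

/-- FA (FROM THE LONE NODE TO THE LOCAL EQUATION). Let `O` be a Dedekind domain, `𝔭` maximal,
`2 ∉ 𝔭`, `f` a form over `O`, smooth over the field of fractions, with `LoneNode 𝔭 f`. Then
`Crit 𝔭 f`, or `NodeO 𝔭 k (trans b f)` for some `b` and `k`.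
Proof. Take `b` from `LoneNode`.
Points: let `s`, `Q` be as in `Crit` (or `NodeO.off`) for a form `g`, and suppose that `deh s g ∈ Q`
and all `∂_j (deh s g) ∈ Q`. By `all_pderiv_mem` all `deh s (∂_jg) ∈ Q`. Let `k₁` be the field of
fractions of `O[X_j, j ≠ s]/Q`, `ψ : O → k₁` (kernel `𝔭`), `v_j` the class of `tau s j`, `v_s = 1`. Then
`eval v (map ψ P)` is the class of `deh s P` for all forms `P`, so `v ≠ 0` is a singular point of `g`
over `k₁`.
Case 1: not (all `(∂_jf)(b) ∈ 𝔭` and `f(b) ∈ 𝔭`). Then `Crit 𝔭 f`: otherwise there is a singular point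
`v`, `v_j = v_0 ψ(b_j)`, `v_0 ≠ 0`, and `0 = (∂_jf)(v) = v_0^(d-1) ψ((∂_jf)(b))`,
`0 = f(v) = v_0^d ψ(f(b))` (EL (3), over `k₁`), so all `(∂_jf)(b)`, `f(b)` are in `ker ψ = 𝔭`.
Case 2: all these values are in `𝔭`, and the Hessian determinant is not. HC gives `b' ≡ b` and `k`.
Let `H = trans b' f`. Then `deh 0 H` is `f(1, x + b')`: its constant coefficient is `f(b')`, its linear
coefficients are `(∂_jf)(b')` and its second derivatives at the origin are `(∂_i∂_jf)(b')`, congruent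
modulo `𝔭` to `(∂_i∂_jf)(b)` (chain rule `∂_j (trans b' f) = trans b' (∂_jf)` for `j ≠ 0`). `off`: suppose
`deh s H ∈ Q` and all its partial derivatives are in `Q`; let `v` be the singular point of `H` as
above; `w = (v_0, v_j + b'_j v_0)` is a singular point of `f`: `f(w) = H(v) = 0`,
`(∂_jf)(w) = (∂_jH)(v) = 0` for `j ≠ 0`, and `(∂_0H)(v) = (∂_0f)(w) + ∑_{j≠0} b'_j (∂_jf)(w)`; `w ≠ 0`.
So `w_j = w_0 ψ(b_j) = v_0 ψ(b'_j)` and `v_j = 0` for `j ≠ 0`: `tau s j ∈ Q`. -/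
def P_FA : Prop := ∀ {O K : Type} [CommRing O] [IsDedekindDomain O] [Field K] [Algebra O K]
  [IsFractionRing O K] (𝔭 : Ideal O), 𝔭.IsMaximal → (2 : O) ∉ 𝔭 → ∀ {n d : ℕ}, 1 ≤ d →
  ∀ f : MvPolynomial (Fin (n + 2)) O, f.IsHomogeneous d →
  Pool.Agent.TH214.RM.Smooth (map (algebraMap O K) f) → LoneNode 𝔭 f →
  Crit 𝔭 f ∨ ∃ (b : Fin (n + 2) → O) (k : ℕ), NodeO 𝔭 k (trans b f)

/-- FB (LOCAL EQUATIONS). Let `f` be a form over the Dedekind domain `O`, smooth over the field of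
fractions, such that for every nonzero prime `𝔭` either `Crit 𝔭 f`, or `2 ∉ 𝔭` and `LoneNode` holds
after exchanging the coordinates `0` and `i` for some `i`. Then `LocNode O (map f)`.
Proof. Let `σ = Equiv.swap 0 i`, `f₁ = rename σ f`. It is a form, smooth over `K` (permute). FA for
`f₁`: either `Crit 𝔭 f₁`: take `H = f₁`, `l = 1`, `T` the permutation matrix (`T i j = 1` if `j = σ i`);
or `NodeO 𝔭 k (trans b f₁)`: take `H = trans b f₁`, `l = 1` and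
`T i j = [j = σ i] + [j = 0 and σ i ≠ 0] b_{σ i}`, so that `∑_j T_ij X_j` is the image of `X_i` under
`rename σ` and `trans b`; `T' = ` the matrix of the inverse substitution
(`x_j ↦ x_j - b_j x_0`, then `σ`). If `Crit 𝔭 f`: `H = f`, `T = 1`. -/
def P_FB : Prop := ∀ {O K : Type} [CommRing O] [IsDedekindDomain O] [Field K] [Algebra O K]
  [IsFractionRing O K] {n d : ℕ}, 1 ≤ d →
  ∀ f : MvPolynomial (Fin (n + 2)) O, f.IsHomogeneous d →
  Pool.Agent.TH214.RM.Smooth (map (algebraMap O K) f) →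
  (∀ 𝔭 : Ideal O, 𝔭.IsPrime → 𝔭 ≠ ⊥ → Crit 𝔭 f ∨
    ((2 : O) ∉ 𝔭 ∧ ∃ i : Fin (n + 2), LoneNode 𝔭 (rename (Equiv.swap 0 i) f))) →
  LocNode O (map (algebraMap O K) f)

/-- FC (MODELS). As `Pool.Agent.TH214.RM.model_Z`, and `model_O` over an arbitrary Dedekind domain,
with `LocNode` in place of `LocReg`.
Proof. Copy the proofs, with LI in place of `goodModule_of_locReg`. -/
def P_FC : Prop :=
  (∀ {K : Type} [Field K] [NumberField K] {n : ℕ}, 1 ≤ n →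
    ∀ (G : MvPolynomial (Fin (n + 2)) K) (d : ℕ), 2 ≤ d → G.IsHomogeneous d →
    Pool.Agent.TH214.RM.Smooth G → LocNode (𝓞 K) G → ∀ {A : Type} [CommRing A] [Algebra K A]
    (π : MvPolynomial (Fin (n + 2)) K →ₐ[K] A), Function.Surjective π →
    RingHom.ker π = Ideal.span {G} → ∀ (𝒜 : ℕ → Submodule K A) [GradedAlgebra 𝒜],
    (∀ d, 𝒜 d = (homogeneousSubmodule (Fin (n + 2)) K d).map π.toLinearMap) →
    ∀ (Y : Scheme.{0}), Nonempty (Y ≅ Proj 𝒜) → HasRegularModel Y) ∧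
  (∀ {O K : Type} [CommRing O] [IsDedekindDomain O] [Field K] [Algebra O K] [IsFractionRing O K]
    {n : ℕ}, 1 ≤ n →
    ∀ (G : MvPolynomial (Fin (n + 2)) K) (d : ℕ), 2 ≤ d → G.IsHomogeneous d →
    Pool.Agent.TH214.RM.Smooth G → LocNode O G → ∀ {A : Type} [CommRing A] [Algebra K A]
    (π : MvPolynomial (Fin (n + 2)) K →ₐ[K] A), Function.Surjective π →
    RingHom.ker π = Ideal.span {G} → ∀ (𝒜 : ℕ → Submodule K A) [GradedAlgebra 𝒜],
    (∀ d, 𝒜 d = (homogeneousSubmodule (Fin (n + 2)) K d).map π.toLinearMap) →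
    ∀ {Y : Scheme.{0}} (f : Y ⟶ Spec (CommRingCat.of K)) (i : Y ≅ Proj 𝒜),
    i.hom ≫ GO.projStr 𝒜 = f → GO.HasModel O K f)

/-- FD1 (A REGULAR FORM). Let `𝔭` be a maximal ideal, `b ∈ 𝔭`, `b ∉ 𝔭^2`, `d ≥ 3`. The form
`∑_{i ≤ n} x_i^(d-1) x_{i+1} + b x_{n+1}^d` satisfies `Crit 𝔭`.
Proof. Let `deh s f ∈ Q` and suppose that all its partial derivatives are in `Q`; by
`all_pderiv_mem` all `deh s (∂_jf) ∈ Q`. Write `t_j = tau s j`. `∂_{n+1}`: `t_n^(d-1) + d b t_{n+1}^(d-1)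
∈ Q` and `b ∈ Q`, so `t_n ∈ Q`. `∂_j`, `1 ≤ j ≤ n`: `t_{j-1}^(d-1) + (d-1) t_j^(d-2) t_{j+1} ∈ Q`; as
`t_j ∈ Q` and `d ≥ 3`, `t_{j-1} ∈ Q`. So `t_0, ..., t_n ∈ Q`, hence `s = n + 1` (as `t_s = 1`). Now
`deh s f - C b = ∑_{i<n} X_i^(d-1) X_{i+1} + X_n^(d-1) ∈ Q^2`. If `h ∉ Q` and `h deh s f ∈ Q^2` then
`h C b ∈ Q^2`. The constant coefficients of the elements of `Q` are in `𝔭` (`P - C (P_0)` is in the
ideal of the `X_i ⊂ Q`, and `C r ∈ Q` iff `r ∈ 𝔭`), so `h_0 b ∈ 𝔭^2`, and `h_0 ∉ 𝔭` since `h ∉ Q`.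
With `w h_0 - 1 ∈ 𝔭`: `b = w h_0 b - (w h_0 - 1) b ∈ 𝔭^2`, a contradiction. -/
def P_FD1 : Prop := ∀ {O : Type} [CommRing O] (𝔭 : Ideal O), 𝔭.IsMaximal → ∀ b ∈ 𝔭, b ∉ 𝔭 ^ 2 →
  ∀ n d : ℕ, 3 ≤ d →
  Crit 𝔭 (∑ i : Fin (n + 1), (X i.castSucc ^ (d - 1) * X i.succ : MvPolynomial (Fin (n + 2)) O) +
    C b * X (Fin.last (n + 1)) ^ d)

/-- FD2 (STABILITY). If `Crit 𝔭 f` and `W ∈ 𝔭^2`, then `Crit 𝔭 (f + W g)`.
Proof. `deh s (f + C W * g) = deh s f + C W * deh s g`, `C W ∈ Q^2` and `C W ∈ Q`, the derivatives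
change by elements of `Q`, and `h * (deh s f + C W * deh s g) ∈ Q^2` iff `h * deh s f ∈ Q^2`. -/
def P_FD2 : Prop := ∀ {O : Type} [CommRing O] (𝔭 : Ideal O) {n : ℕ}
  (f g : MvPolynomial (Fin (n + 2)) O) (W : O), W ∈ 𝔭 ^ 2 → Crit 𝔭 f → Crit 𝔭 (f + C W * g)

/-- FD3 (CHOICE OF `b`). For every finite set `S` of nonzero prime ideals of a Dedekind domain there
is `b` with `b ∈ 𝔭`, `b ∉ 𝔭^2` for all `𝔭 ∈ S`.
Proof. Choose `b_𝔭 ∈ 𝔭`, `∉ 𝔭^2` (`𝔭 ≠ 𝔭^2`) and `b ≡ b_𝔭` modulo `𝔭^2`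
(`IsDedekindDomain.exists_forall_sub_mem_ideal`). -/
def P_FD3 : Prop := ∀ {O : Type} [CommRing O] [IsDedekindDomain O] (S : Finset (Ideal O)),
  (∀ 𝔭 ∈ S, 𝔭.IsPrime ∧ 𝔭 ≠ ⊥) → ∃ b : O, ∀ 𝔭 ∈ S, b ∈ 𝔭 ∧ b ∉ 𝔭 ^ 2

/-- The permutation of the monomials induced by a permutation of the variables. -/
noncomputable def perm {m d : ℕ} (σ : Equiv.Perm (Fin (m + 1))) (α : Mon m d) : Mon m d :=
  ⟨Finsupp.equivMapDomain σ α.1, by
    have h := α.2
    rw [Finsupp.degree_eq_sum] at h ⊢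
    refine Eq.trans ?_ h
    exact Fintype.sum_equiv σ.symm _ _ fun i => rfl⟩

/-- FE (PERMUTATIONS AND THE COMMON FACTOR). (1) `rename σ (form a) = form (a ∘ perm σ.symm)`.
(2) Let `Δ ≠ 0` involve only the variables `α` with `α_0 = 0`, `d ≥ 1`. The polynomials
`Δ_i = rename (perm (Equiv.swap 0 i)) Δ`, `i : Fin (m+1)`, have no common nonunit factor over a field
`K` containing `O`.
Proof. (1) `rename` of a monomial is the monomial of `equivMapDomain`/`mapDomain`; reindex the sum.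
(2) `Δ_i` involves only `α` with `α_i = 0` (`vars_rename`). If `Q` divides all `map Δ_i` then, since
`map Δ_i ≠ 0` (`rename` and `map` are injective), the variables of `Q` are among those of `Δ_i`
(degrees in one variable add up in a product, `degreeOf_mul_eq`), for every `i`. So a variable `α`
of `Q` has `α_i = 0` for all `i`, contradicting the degree `d ≥ 1`. So `Q = C c`, and `c ≠ 0`. -/
def P_FE : Prop := (∀ {A : Type} [CommRing A] {m d : ℕ} (σ : Equiv.Perm (Fin (m + 1)))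
    (a : Mon m d → A), rename σ (form a) = form fun α => a (perm σ.symm α)) ∧
  ∀ {O K : Type} [CommRing O] [IsDomain O] [Field K] [Algebra O K] [IsFractionRing O K] {m d : ℕ},
    1 ≤ d → ∀ Δ : MvPolynomial (Mon m d) O, Δ ≠ 0 → (∀ α ∈ Δ.vars, α.1 0 = 0) →
    ∀ Q : MvPolynomial (Mon m d) K,
      (∀ i : Fin (m + 1), Q ∣ map (algebraMap O K) (rename (perm (Equiv.swap 0 i)) Δ)) → IsUnit Q

/-- FF (FORMS AND COEFFICIENT VECTORS). (1) The forms of degree `d` whose coefficients have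
coordinates at most `H` are the `form g`, `g ∈ boxJ`, and `form` is injective. So for a property
`P` of forms the number of these forms with `P` is the number of `g ∈ boxJ` with `P (form g)`.
(2) `form (pt a₀ W g) = form a₀ + W form g`. (3) Every homogeneous `F` of degree `d` is
`form (fun α => coeff α F)`.
Proof. `coeff α (form a) = a α` for `α` of degree `d`, and `0` otherwise; SA. -/
def P_FF : Prop := ∀ {K ι : Type} [Field K] [NumberField K] [Fintype ι]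
  (ω : Module.Basis ι ℤ (𝓞 K)) (m d : ℕ),
  (∀ (H : ℕ) (P : MvPolynomial (Fin (m + 1)) (𝓞 K) → Prop),
    {F : MvPolynomial (Fin (m + 1)) (𝓞 K) | (F.IsHomogeneous d ∧
      ∀ α i, |ω.repr (coeff α F) i| ≤ (H : ℤ)) ∧ P F}.ncard =
      ((boxJ ω (Mon m d) H).filter fun g => P (form g)).card) ∧
  (∀ (a₀ : Mon m d → 𝓞 K) (W : ℕ) (g : Mon m d → 𝓞 K),
    form (pt a₀ W g) = form a₀ + C (W : 𝓞 K) * form g) ∧
  ∀ F : MvPolynomial (Fin (m + 1)) (𝓞 K), F.IsHomogeneous d →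
    F = form (m := m) (d := d) fun α => coeff α.1 F

/-- FG (MOST FORMS HAVE AT MOST ONE NODE). The proportion of the `g` for which there is `𝔭` as in
`Far M W` such that `form (a₀ + W g)` has not the property `LoneNode 𝔭` after exchanging the
coordinates `0` and `i`, for any `i`, is at most `C / M`.
Proof. Let `Δ₀, χ₀, R₀` over `ℤ` be as in EM (with `m = n + 1`), and `Δ_i`, `χ_i`, `R_i` the images
over `𝓞 K` after the permutation `perm (swap 0 i)` of the variables (`R_i` in the variables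
`α ≠ v i := perm (swap 0 i) (v0)`). SM with `B i a 𝔭 := ` `Δ_i(a) ∉ 𝔭`, `R_i(a) ∈ 𝔭` and
`χ_i(a) ∈ 𝔭`; common factor: FE (2) (`Δ₀` over `𝓞 K` is nonzero since `ℤ → 𝓞 K` is injective). Classes:
for given `a`, `𝔭`, `i`: if `Δ_i(a) ∈ 𝔭` take `Z = ∅` (`Δ_i` does not involve the variable `v i`:
`α_i = 0` but `(v i)_i = d`); otherwise EM (2) over `k = 𝓞 K/𝔭`, lifted to `𝓞 K`.
Outside of the exceptional set of SM: for every `𝔭` there is `i` with `Δ_i(a) ∉ 𝔭` and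
(`R_i(a) ∉ 𝔭` or `χ_i(a) ∉ 𝔭`). By EM (3) over `𝓞 K/𝔭` and FE (1) the reduction of
`rename (swap 0 i) (form a) = form (a ∘ perm (swap 0 i))` has the property `LonePt`; by EO (1)
`LoneNode 𝔭` holds. (`Δ_i(a) = Δ₀(a ∘ perm (swap 0 i))`: `eval_rename`.) -/
def P_FG : Prop := ∀ {K ι : Type} [Field K] [NumberField K] [Fintype ι]
  (ω : Module.Basis ι ℤ (𝓞 K)) (n d : ℕ), 1 ≤ n → 3 ≤ d →
  ∃ C : ℝ, Rare ω (Mon (n + 1) d) C fun M W a₀ g => ∃ 𝔭 : Ideal (𝓞 K), Far M W 𝔭 ∧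
    ¬ ∃ i : Fin (n + 2), LoneNode 𝔭 (rename (Equiv.swap 0 i) (form (pt a₀ W g)))

/-- FH (ALMOST ALL FORMS ARE SMOOTH). For `W ≥ 1` the proportion of the `g` for which
`form (a₀ + W g)` is not smooth over `K` tends to zero.
Proof. SI for `Δ χ ≠ 0` of EM (over `𝓞 K`); if both values are nonzero then `NoSing` over `K`
(EM (4)), and EN. -/
def P_FH : Prop := ∀ {K ι : Type} [Field K] [NumberField K] [Fintype ι]
  (ω : Module.Basis ι ℤ (𝓞 K)) (n d : ℕ), 1 ≤ n → 3 ≤ d → ∀ W : ℕ, 1 ≤ W →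
  ∀ (a₀ : Mon (n + 1) d → 𝓞 K) (ε : ℝ), 0 < ε → ∀ᶠ H : ℕ in atTop,
  (((boxJ ω (Mon (n + 1) d) H).filter fun g => ¬ Pool.Agent.TH214.RM.Smooth
    (map (algebraMap (𝓞 K) K) (form (pt a₀ W g)))).card : ℝ) ≤
    ε * ((box ω H).card : ℝ) ^ Fintype.card (Mon (n + 1) d)

end Pool.Agent.Q46.ND
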