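import Pool.Agent.Q46.ND.StmS
import Pool.Agent.Q40.OD.Defs2

/-! Project ND/OD (helper46): statements N1, N2 with complete proofs. -/

set_option autoImplicit false

open MvPolynomial NumberField Filter
open scoped Classical

namespace Pool.Agent.Q46.ND

open Pool.Agent.TH214.RM Pool.Agent.Q40.OD

/-- At `𝔭` the hypersurface has, in suitable coordinates, a regular equation or an equation with
nondegenerate singular points. -/
def GoodAt {O K : Type} [CommRing O] [Field K] [Algebra O K] (𝔭 : Ideal O) {n : ℕ}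
    (G : MvPolynomial (Fin (n + 2)) K) : Prop :=
  ∃ (H : MvPolynomial (Fin (n + 2)) O) (l : K) (T T' : Matrix (Fin (n + 2)) (Fin (n + 2)) K),
    l ≠ 0 ∧ T * T' = 1 ∧
    map (algebraMap O K) H = C l * aeval (fun i => ∑ j, C (T i j) * X j) G ∧
      (Crit 𝔭 H ∨ Nondeg 𝔭 H)

/-- N1 (OPENNESS). `GoodAt` is an open condition.
Proof. Let `H, l, T, T'` be as in `GoodAt` for `F₀`, and `φ = aeval (fun i => ∑ j, C (T i j) * X j)`.
The coefficients of the forms `l φ(m)`, `m` a monomial of degree `d` (finitely many), have a common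
denominator `a ∈ O`, `a ≠ 0`: for every form `G` of degree `d` over `O` there is `G'` over `O` with
`map G' = C a * C l * φ (map G)` (write `G` as the sum of its monomials; or: multiply `l` and all
`T i j` by common denominators `b`, `c`: `φ` with `c T` is `c ^ d φ` on forms of degree `d`, so
`a = b c ^ d`). As `a ≠ 0` there is `v` with `a ∉ 𝔭 ^ (v + 1)` (Dedekind). Let `k₀ = v + 3` and `k ≥ k₀`.
There are `s, e ∈ O` with `s ∉ 𝔭`, `e ∈ 𝔭 ^ 2` and `s w ^ k = e a`: the ideal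
`J = {y | y a ∈ (w ^ k)}`... in detail: choose `v` minimal, `a ∈ 𝔭 ^ v`, `a ∉ 𝔭 ^ (v+1)`. The ideal
`𝔭 ^ 2 * (a)` is contained in `𝔭 ^ (v+2)` and its localization at `𝔭` is that of `𝔭 ^ (v+2)`;
`w ^ k ∈ 𝔭 ^ (v+2)`. Write `(a) = 𝔭 ^ v * 𝔞` with `𝔞` not contained in `𝔭` (`𝔭 ^ v ∣ (a)`,
`Ideal.dvd_iff_le`), choose `s ∈ 𝔞`, `s ∉ 𝔭`. Then `s w ^ k ∈ 𝔞 * 𝔭 ^ (v+2) = (a) * 𝔭 ^ 2`, so
`s w ^ k = a e` with `e ∈ 𝔭 ^ 2` (`Ideal.mem_span_singleton_mul`).
Put `H' = C s * H + C e * G'` and `l' = s l`. Then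
`map H' = s l φ(map F₀) + e a l φ(map G) = s l φ(map F₀ + w ^ k map G)`, as `s w ^ k = e a`.
`Crit 𝔭 H` implies `Crit 𝔭 (C s * H + C e * G')`: let `Q` lie over `𝔭` (so `C s ∉ Q`, `C e ∈ Q ^ 2`);
`deh (C s * H + C e * G') = C s * deh H + C e * deh G'`, its derivatives are `C s * ∂ + C e * ∂`. If
it and its derivatives are in `Q` then `deh H` and its derivatives are in `Q`, and if
`h * (C s * deh H + C e * deh G') ∈ Q ^ 2` then `(h * C s) * deh H ∈ Q ^ 2` with `h * C s ∉ Q`.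
(See the definition of `Crit` and its unfolding in Pool.Agent.TH214.RM.Crit.)
`Nondeg 𝔭 H` implies `Nondeg 𝔭 (C s * H + C e * G')`: `nondeg_add` (Pool.Agent.Q46.ND.K4) for `C e * G'`,
`e ∈ 𝔭`; and the Hessian determinant of `C s * H` is `C s ^ card` times that of `H`, the derivatives of
`C s * deh H` are `C s` times those of `deh H`. -/
def P_N1 : Prop := ∀ {O K : Type} [CommRing O] [IsDedekindDomain O] [Field K] [Algebra O K]
  [IsFractionRing O K] (𝔭 : Ideal O), 𝔭.IsPrime → 𝔭 ≠ ⊥ → ∀ w ∈ 𝔭, ∀ {n d : ℕ}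
  (F₀ : MvPolynomial (Fin (n + 2)) O), F₀.IsHomogeneous d →
  GoodAt 𝔭 (map (algebraMap O K) F₀) → ∃ k₀ : ℕ, ∀ k : ℕ, k₀ ≤ k →
  ∀ G : MvPolynomial (Fin (n + 2)) O, G.IsHomogeneous d →
    GoodAt 𝔭 (map (algebraMap O K) (F₀ + C (w ^ k) * G))

/-- N2 (FORMS AND COEFFICIENT VECTORS). (1) The forms of degree `d` whose coefficients have
coordinates at most `H` are the `form n d g`, `g ∈ boxJ`, and `form n d` is injective. So for a
property `P` of forms the number of these forms with `P` is the number of `g ∈ boxJ` with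
`P (form n d g)`. (2) `form (pt a₀ W g) = form a₀ + W form g`. (3) Every homogeneous `F` of degree
`d` is `form n d (fun α => coeff α F)`.
Proof. `coeff α (form n d a) = a α` for `α` of degree `d`, and `0` otherwise; SA. -/
def P_N2 : Prop := ∀ {K ι : Type} [Field K] [NumberField K] [Fintype ι]
  (ω : Module.Basis ι ℤ (𝓞 K)) (n d : ℕ),
  (∀ (H : ℕ) (P : MvPolynomial (Fin (n + 2)) (𝓞 K) → Prop),
    {F : MvPolynomial (Fin (n + 2)) (𝓞 K) | (F.IsHomogeneous d ∧
      ∀ α i, |ω.repr (coeff α F) i| ≤ (H : ℤ)) ∧ P F}.ncard =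
      ((boxJ ω (Ix n d) H).filter fun g => P (form n d g)).card) ∧
  (∀ (a₀ : Ix n d → 𝓞 K) (W : ℕ) (g : Ix n d → 𝓞 K),
    form n d (pt a₀ W g) = form n d a₀ + C (W : 𝓞 K) * form n d g) ∧
  ∀ F : MvPolynomial (Fin (n + 2)) (𝓞 K), F.IsHomogeneous d →
    F = form n d fun α => coeff α.1 F

end Pool.Agent.Q46.ND
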