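import Mathlib

/-!
Project ND (helper46), sieve part: statements with complete proofs.

`K` is a number field, `O = 𝓞 K`, `ω` a `ℤ`-basis of `O` indexed by `ι`, `r = card ι`. The box of
size `H` is the set of the integers of `K` with coordinates at most `H` in absolute value. All
counting is done for `g` in the box to the power `J`, at the point `a = a₀ + W g`.
-/

set_option autoImplicit false

open MvPolynomial NumberField Filter
open scoped Classical

namespace Pool.Agent.Q46.ND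

/-- The box: integers of `K` whose coordinates with respect to `ω` are at most `H`. -/
noncomputable def box {K ι : Type} [Field K] [NumberField K] [Fintype ι]
    (ω : Module.Basis ι ℤ (𝓞 K)) (H : ℕ) : Finset (𝓞 K) :=
  (Fintype.piFinset fun _ : ι => Finset.Icc (-(H : ℤ)) (H : ℤ)).image fun c => ∑ i, c i • ω i

/-- The power of the box. -/
noncomputable def boxJ {K ι : Type} [Field K] [NumberField K] [Fintype ι]
    (ω : Module.Basis ι ℤ (𝓞 K)) (J : Type) [Fintype J] (H : ℕ) : Finset (J → 𝓞 K) :=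
  Fintype.piFinset fun _ : J => box ω H

/-- `𝔭` is a maximal ideal containing neither `W` nor a prime number `p ≤ M`. -/
def Far {K : Type} [Field K] [NumberField K] (M W : ℕ) (𝔭 : Ideal (𝓞 K)) : Prop :=
  𝔭.IsMaximal ∧ (∀ p : ℕ, p.Prime → p ≤ M → (p : 𝓞 K) ∉ 𝔭) ∧ (W : 𝓞 K) ∉ 𝔭

/-- The point `a₀ + W g`. -/
def pt {K J : Type} [Field K] [NumberField K] (a₀ : J → 𝓞 K) (W : ℕ) (g : J → 𝓞 K) : J → 𝓞 K :=
  fun j => a₀ j + (W : 𝓞 K) * g j

/-- `Rare C P`: the proportion of the `g` in the box with the property `P M W a₀ g` is at most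
`C / M`, for every `M ≥ 1`, `W`, `a₀` and all large `H`. -/
def Rare {K ι : Type} [Field K] [NumberField K] [Fintype ι]
    (ω : Module.Basis ι ℤ (𝓞 K)) (J : Type) [Fintype J] (C : ℝ)
    (P : ℕ → ℕ → (J → 𝓞 K) → (J → 𝓞 K) → Prop) : Prop :=
  ∀ M W : ℕ, 1 ≤ M → ∀ a₀ : J → 𝓞 K, ∀ᶠ H : ℕ in atTop,
    (((boxJ ω J H).filter fun g => P M W a₀ g).card : ℝ) ≤
      C / M * ((box ω H).card : ℝ) ^ Fintype.card J

/-- SA (BOX). (1) `a` is in the box iff all its coordinates are at most `H` in absolute value.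
(2) The box has `(2H+1)^r` elements. (3) `boxJ` has `(card of the box)^(card J)` elements.
Proof. `ω.repr` and `Basis.sum_repr`, injectivity of `c ↦ ∑ c i • ω i` (`ω.equivFun.symm`),
`Finset.card_image_of_injective`, `Fintype.card_piFinset_const`, `Int.card_Icc`. -/
def P_SA : Prop := ∀ {K ι : Type} [Field K] [NumberField K] [Fintype ι]
  (ω : Module.Basis ι ℤ (𝓞 K)) (H : ℕ),
  (∀ a, a ∈ box ω H ↔ ∀ i, |ω.repr a i| ≤ (H : ℤ)) ∧
  (box ω H).card = (2 * H + 1) ^ Fintype.card ι ∧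
  ∀ (J : Type) [Fintype J], (boxJ ω J H).card = ((box ω H).card) ^ Fintype.card J

/-- SB (CLASSES). The number of elements of the box in a residue class modulo a maximal ideal.
There is `C₁` such that for every maximal ideal `𝔭` of `O`, every prime number `p ∈ 𝔭`, every
`H ≥ 1` and every `z ∈ O` the number `μ` of `g ∈ box H` with `g - z ∈ 𝔭` satisfies
`μ * N𝔭 ≤ C₁ (2H+1)^r` if `p ≤ H`, and `μ * (2H+1) ≤ C₁ (2H+1)^r` if `p > H`.
Proof. Let `r = card ι ≥ 1`. Case `p ≤ H`. The map `g ↦` (its class modulo `p O`) has fibres on the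
box of size at most `((2H+1)/p + 1)^r ≤ (4 (2H+1)/ (2 p))^r...`: in each coordinate the number of
integers in `[-H,H]` in a given class modulo `p` is at most `(2H+1)/p + 1 ≤ 2 (2H+1)/p` (as
`p ≤ 2H+1`), so the fibre has at most `(2 (2H+1)/p)^r` elements. The number of classes of `O/pO`
in the class of `z` modulo `𝔭` is `card (𝔭/pO) = p^r / N𝔭` (`O/pO` has `p^r` elements, it surjects
onto `O/𝔭` with fibres of equal size). So `μ ≤ (p^r/N𝔭) (2(2H+1)/p)^r = 2^r (2H+1)^r / N𝔭`.
An alternative which avoids `O/pO`: choose a set `T` of representatives; or count pairs: the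
translates. (If it is easier, any other constant `C₁` depending on `K`, `ω` is fine.)
Case `p > H`. Some `ω i` is not in `𝔭` (they generate `O` as a group). Fix all the coordinates but
the `i`-th: if `g, g'` differ only in the `i`-th coordinate and both are in the class of `z`, then
`(c - c') ω i ∈ 𝔭`, so `c - c' ∈ 𝔭`, so `p` divides `c - c'` (an integer in `𝔭` is divisible by
`p`, as `𝔭 ≠ O`). The number of integers in `[-H,H]` in a class modulo `p > H` is at most `3`. So
`μ ≤ 3 (2H+1)^(r-1)`. -/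
def P_SB : Prop := ∀ {K ι : Type} [Field K] [NumberField K] [Fintype ι]
  (ω : Module.Basis ι ℤ (𝓞 K)), ∃ C₁ : ℕ, ∀ 𝔭 : Ideal (𝓞 K), 𝔭.IsMaximal → ∀ p : ℕ, p.Prime →
  (p : 𝓞 K) ∈ 𝔭 → ∀ H : ℕ, 1 ≤ H → ∀ z : 𝓞 K,
  (p ≤ H → ((box ω H).filter fun g => g - z ∈ 𝔭).card * Ideal.absNorm 𝔭 ≤
    C₁ * (2 * H + 1) ^ Fintype.card ι) ∧
  (H < p → ((box ω H).filter fun g => g - z ∈ 𝔭).card * (2 * H + 1) ≤
    C₁ * (2 * H + 1) ^ Fintype.card ι)

/-- SC (WEIGHTED SCHWARTZ-ZIPPEL). Let `φ : O → k` be a map to a field, `B` a finite set of `O`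
such that each fibre of `φ` on `B` has at most `μ` elements. For every nonzero polynomial `P` over
`k` in the variables `J` the number of `g ∈ B^J` with `P(φ g) = 0` is at most
`deg P * μ * (card B)^(card J - 1)`.
Proof. Induction on the number of variables (first for `J = Fin n` with
`MvPolynomial.finSuccEquiv`, then transport along `Fintype.equivFin`). `n = 0`: `P` is a nonzero
constant, the count is `0`. `n + 1`: write `P = ∑ P_i(x') x_0^i` with `P_D ≠ 0`, `D = ` degree in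
`x_0`, `deg P_D ≤ deg P - D`. The `g` with `P_D(φ g') = 0`: at most
`deg P_D * μ * (card B)^(n-1) * card B` (if `n = 0` this is `0` since `P_D` is a nonzero constant).
For the other `g'` the polynomial `P(φ g', x_0)` has at most `D` roots in `k`, each with at most
`μ` elements `g_0` of `B` over it: at most `D * μ * (card B)^n`. The sum is at most
`deg P * μ * (card B)^n`. Compare `MvPolynomial.schwartz_zippel_sup_sum` and its proof in
`Mathlib.Algebra.MvPolynomial.SchwartzZippel`. -/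
def P_SC : Prop := ∀ {O k J : Type} [Fintype J] [Field k] (φ : O → k) (B : Finset O) (μ : ℕ),
  (∀ z : k, (B.filter fun g => φ g = z).card ≤ μ) → ∀ P : MvPolynomial J k, P ≠ 0 →
  ((Fintype.piFinset fun _ : J => B).filter fun g => eval (fun j => φ (g j)) P = 0).card ≤
    P.totalDegree * μ * B.card ^ (Fintype.card J - 1)

/-- SD (SUBSTITUTION). For `R` over `O`, `φ : O →+* k` a ring homomorphism to a field with
`map φ R ≠ 0`, and `W ∈ O` with `φ W ≠ 0`, `a₀ : J → O`: the polynomial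
`P = (map φ R)(φ a₀ + φ W X)` is nonzero, of total degree at most that of `R`, and
`P(φ g) = φ (R(a₀ + W g))`.
Proof. `P = aeval (fun j => C (φ (a₀ j)) + C (φ W) * X j) (map φ R)`. The inverse substitution
`X j ↦ C (φ W)⁻¹ * (X j - C (φ (a₀ j)))` gives `map φ R` back, so `P ≠ 0`. Degree: each variable is
replaced by a polynomial of degree at most `1` (`MvPolynomial.totalDegree_aeval_le` or by the sum
over the support), and `totalDegree (map φ R) ≤ totalDegree R`. Evaluation: `eval` after `aeval`,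
`MvPolynomial.eval₂_hom`/`eval_map`. -/
def P_SD : Prop := ∀ {O k J : Type} [CommRing O] [Field k] (φ : O →+* k) (R : MvPolynomial J O),
  map φ R ≠ 0 → ∀ W : O, φ W ≠ 0 → ∀ a₀ : J → O, ∃ P : MvPolynomial J k, P ≠ 0 ∧
  P.totalDegree ≤ R.totalDegree ∧
  ∀ g : J → O, eval (fun j => φ (g j)) P = φ (eval (fun j => a₀ j + W * g j) R)

/-- SE (FEW PRIME DIVISORS). For `R` over `O = 𝓞 K` there is `t` such that for all `W`, `a₀` and
all large `H`: for every `g ∈ boxJ H` with `R(a₀ + W g) ≠ 0` the set of maximal ideals `𝔭`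
containing `R(a₀ + W g)` and a prime number `p > H` is finite with at most `t` elements.
Proof. For every embedding `σ : K → ℂ` we have `|σ(g_j)| ≤ r A H` for `g_j` in the box, `A` the
maximum of the `|σ(ω i)|`, hence `|σ(R(a₀+Wg))| ≤ C H^D` for `H ≥ 1`, `D` the total degree of `R`
and `C` depending on `R, W, a₀, ω`. So `|N(R(a₀+Wg))| ≤ C^r H^(rD)` (the norm is the product over
the `[K:ℚ]` embeddings, `Algebra.norm_eq_prod_embeddings`). Let `x = R(a₀+Wg) ≠ 0` and let `S` be
any finite set of maximal ideals containing `x` and a prime number `> H`. The ideals are pairwise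
coprime so their product divides `(x)`, the norm of each `𝔭 ∈ S` is a power of the prime number
in it, hence `> H`, and `H^(card S) ≤ ∏ N𝔭 ≤ |N(x)| ≤ C^r H^(rD)`. If `card S ≥ t + 1` with
`t = r D` this gives `H ≤ C^r`, false for `H > C^r`. Hence `card S ≤ t`. -/
def P_SE : Prop := ∀ {K ι J : Type} [Field K] [NumberField K] [Fintype ι] [Fintype J]
  (ω : Module.Basis ι ℤ (𝓞 K)) (R : MvPolynomial J (𝓞 K)), ∃ t : ℕ, ∀ (W : ℕ) (a₀ : J → 𝓞 K),
  ∀ᶠ H : ℕ in atTop, ∀ g ∈ boxJ ω J H, eval (pt a₀ W g) R ≠ 0 →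
  {𝔭 : Ideal (𝓞 K) | 𝔭.IsMaximal ∧ eval (pt a₀ W g) R ∈ 𝔭 ∧
    ∃ p : ℕ, p.Prime ∧ H < p ∧ (p : 𝓞 K) ∈ 𝔭}.Finite ∧
  {𝔭 : Ideal (𝓞 K) | 𝔭.IsMaximal ∧ eval (pt a₀ W g) R ∈ 𝔭 ∧
    ∃ p : ℕ, p.Prime ∧ H < p ∧ (p : 𝓞 K) ∈ 𝔭}.ncard ≤ t

/-- SF (SUM OVER PRIME IDEALS). The set of the maximal ideals containing a prime number `p` with
`M < p ≤ H` is finite, and the sum of `1 / N𝔭 ^ 2` over it is at most `C₅ / M`.
Proof. Over a prime number `p` there are at most `[K:ℚ]` maximal ideals (the product of their norms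
divides the norm `p^[K:ℚ]` of `(p)`, and each norm is at least `p`; or
`Ideal.card_primesOverFinset_le`...), each with `N𝔭 ≥ p`. So the sum is at most
`[K:ℚ] ∑_{p > M} 1/p^2 ≤ [K:ℚ] ∑_{j > M} 1/j^2 ≤ [K:ℚ] / M` (`1/j^2 ≤ 1/(j-1) - 1/j`). -/
def P_SF : Prop := ∀ (K : Type) [Field K] [NumberField K], ∃ C₅ : ℝ, ∀ M H : ℕ, 1 ≤ M →
  ∃ S : Finset (Ideal (𝓞 K)), (∀ 𝔭, 𝔭 ∈ S ↔ 𝔭.IsMaximal ∧
    ∃ p : ℕ, p.Prime ∧ M < p ∧ p ≤ H ∧ (p : 𝓞 K) ∈ 𝔭) ∧
  ∑ 𝔭 ∈ S, (1 : ℝ) / (Ideal.absNorm 𝔭 : ℝ) ^ 2 ≤ C₅ / M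

/-- SG1 (FIBRES). Let `Q` be a property of `g : J → O` and `T` a property of the restrictions of `g`
to the indices `j ≠ i₀`. If `Q g` implies `T` of the restriction, and for every `g` whose
restriction has the property `T` at most `N` elements `c` of the box satisfy
`Q (Function.update g i₀ c)`, then the number of `g` in the box with `Q g` is at most `N` times the
number of the `g'` in the box (coordinates `≠ i₀`) with `T g'`.
Proof. Fibrewise count along the restriction map (`Finset.card_eq_sum_card_fiberwise` or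
`Finset.card_le_mul_card_image`); the fibre over `g'` is in bijection with the `c`, since `g` is
`Function.update g i₀ (g i₀)`. -/
def P_SG1 : Prop := ∀ {K ι J : Type} [Field K] [NumberField K] [Fintype ι] [Fintype J]
  (ω : Module.Basis ι ℤ (𝓞 K)) (i₀ : J) (Q : (J → 𝓞 K) → Prop)
  (T : ({j : J // j ≠ i₀} → 𝓞 K) → Prop) (H N : ℕ),
  (∀ g ∈ boxJ ω J H, Q g → T fun j => g j.1) →
  (∀ g ∈ boxJ ω J H, (T fun j => g j.1) →
    ((box ω H).filter fun c => Q (Function.update g i₀ c)).card ≤ N) →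
  ((boxJ ω J H).filter Q).card ≤ N * ((boxJ ω {j : J // j ≠ i₀} H).filter T).card

/-- SG2 (RESIDUE CLASSES). Let `𝔭` be maximal and `W ∉ 𝔭`. If `Bad a` holds, for `c` in the
coordinate `i₀`, only if `c` is congruent modulo `𝔭` to an element of a set with at most `m`
elements, and each class modulo `𝔭` has at most `μ` elements in the box, then for each `g` at most
`m μ` elements `c` of the box satisfy `Bad (a₀ + W (g with coordinate c at i₀))`.
Proof. With `a = pt a₀ W g` we have `pt a₀ W (update g i₀ c) = update a i₀ (a₀ i₀ + W c)`. So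
`a₀ i₀ + W c - z ∈ 𝔭` for some `z ∈ Z`. Let `w W - 1 ∈ 𝔭`; then `c - w (z - a₀ i₀) ∈ 𝔭`: at most `μ`
elements for each `z` (`Finset.card_biUnion_le`). -/
def P_SG2 : Prop := ∀ {K ι J : Type} [Field K] [NumberField K] [Fintype ι] [Fintype J]
  (ω : Module.Basis ι ℤ (𝓞 K)) (i₀ : J) (m : ℕ) (Bad : (J → 𝓞 K) → Prop) (𝔭 : Ideal (𝓞 K)),
  𝔭.IsMaximal →
  (∀ a, ∃ Z : Finset (𝓞 K), Z.card ≤ m ∧
    ∀ c, Bad (Function.update a i₀ c) → ∃ z ∈ Z, c - z ∈ 𝔭) →
  ∀ (W : ℕ), (W : 𝓞 K) ∉ 𝔭 → ∀ (a₀ : J → 𝓞 K) (H μ : ℕ),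
  (∀ z, ((box ω H).filter fun g => g - z ∈ 𝔭).card ≤ μ) → ∀ g : J → 𝓞 K,
  ((box ω H).filter fun c => Bad (pt a₀ W (Function.update g i₀ c))).card ≤ m * μ

/-- SH (CORE LEMMA). Let `Bad a 𝔭` be a property such that, for each `a` and `𝔭`, it holds for `c`
in the coordinate `i₀` only if `c` is congruent modulo `𝔭` to one of `m` elements, and implies
`R(a) ∈ 𝔭`, where `R ≠ 0` does not involve the variable `i₀`. Then the proportion of the `g` with
`Bad (a₀ + W g) 𝔭` for some `𝔭` as in `Far M W` is at most `C / M`.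
Proof. Hypotheses SA to SG2. Let `S = (2H+1)^r` be the number of elements of the box, `n = card J`,
`D = deg R`. Let `c₀` be a nonzero coefficient of `R` and `M_R = |N(c₀)|`. The integer `N(c₀)` is in
every maximal ideal containing `c₀`; so for `M ≥ M_R` and `Far M W 𝔭` the polynomial `R` is not zero
modulo `𝔭` (otherwise the prime number in `𝔭` divides `N(c₀) ≠ 0`, it is at most `M_R`).
If `M < M_R` the trivial bound `S^n ≤ (C/M) S^n` holds as soon as `C ≥ M_R`.
Let `M ≥ M_R`, `H` large. The `g` in question are in one of the sets: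
(i) `R(a₀ + W g) = 0`: their number is at most `D * 1 * S^(n-2) * S ≤ D S^(n-1)` by SC with
`φ : O → K` (`μ = 1`), applied to the variables `≠ i₀` (if there are none, `R` is a nonzero constant
and the set is empty) and times `S` for the coordinate `i₀`; `D S^(n-1) ≤ S^n / M` for large `H`.
(If `W = 0` then `Far M W 𝔭` is impossible and the filter is empty; so `W ≥ 1` here.)
(ii) `Bad (a₀+Wg) 𝔭` with `Far M W 𝔭` and a prime number `p ∈ 𝔭`, `M < p ≤ H`: by SG1, SG2, SB
(`μ ≤ C₁ S / N𝔭`), SC and SD (over the field `O/𝔭`) the number is at most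
`∑_𝔭 m (C₁ S/N𝔭) * D (C₁ S/N𝔭) S^(n-2) = m D C₁^2 S^n ∑_𝔭 1/N𝔭^2 ≤ m D C₁^2 C₅ S^n / M` by SF.
(iii) `R(a₀+Wg) ≠ 0` and `Bad (a₀+Wg) 𝔭` with a prime number `p ∈ 𝔭`, `p > H`: for each of the at
most `S^(n-1)` possible `g'` (coordinates `≠ i₀`) there are at most `t` such `𝔭` by SE, and for each
of them at most `m μ`, `μ ≤ C₁ S/(2H+1)`, values of `g i₀` (SG2; then SG1 with `T = ` true): at most
`t m C₁ S^n/(2H+1) ≤ S^n / M` for large `H`.
Every maximal ideal contains a prime number. Altogether `C = M_R + 2 + m D C₁^2 C₅` will do. -/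
def P_SH : Prop := ∀ {K ι J : Type} [Field K] [NumberField K] [Fintype ι] [Fintype J]
  (ω : Module.Basis ι ℤ (𝓞 K)) (i₀ : J) (R : MvPolynomial {j : J // j ≠ i₀} (𝓞 K)), R ≠ 0 →
  ∀ (m : ℕ) (Bad : (J → 𝓞 K) → Ideal (𝓞 K) → Prop),
  (∀ a 𝔭, Bad a 𝔭 → eval (fun j => a j.1) R ∈ 𝔭) →
  (∀ a 𝔭, 𝔭.IsMaximal → ∃ Z : Finset (𝓞 K), Z.card ≤ m ∧
    ∀ c, Bad (Function.update a i₀ c) 𝔭 → ∃ z ∈ Z, c - z ∈ 𝔭) →
  ∃ C : ℝ, Rare ω J C fun M W a₀ g => ∃ 𝔭, Far M W 𝔭 ∧ Bad (pt a₀ W g) 𝔭

/-- SI (ZEROS ARE NEGLIGIBLE). For `R ≠ 0` and `W ≥ 1` the proportion of the `g` with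
`R(a₀ + W g) = 0` tends to zero.
Proof. SC and SD with `φ : O → K` injective (`μ = 1`): the number is at most `D S^(n-1)`, `S` the
number of elements of the box (if `n = 0` the polynomial is a nonzero constant: no `g`), and
`S = (2H+1)^r → ∞` as `r ≥ 1`. -/
def P_SI : Prop := ∀ {K ι J : Type} [Field K] [NumberField K] [Fintype ι] [Fintype J]
  (ω : Module.Basis ι ℤ (𝓞 K)) (R : MvPolynomial J (𝓞 K)), R ≠ 0 → ∀ W : ℕ, 1 ≤ W →
  ∀ (a₀ : J → 𝓞 K) (ε : ℝ), 0 < ε → ∀ᶠ H : ℕ in atTop,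
  (((boxJ ω J H).filter fun g => eval (pt a₀ W g) R = 0).card : ℝ) ≤
    ε * ((box ω H).card : ℝ) ^ Fintype.card J

/-- SJ (ELIMINATION OF ONE VARIABLE). Let `P_i`, `i : κ`, be finitely many polynomials over a
domain `O` in the variables `x_0, ..., x_n` without common nonunit factor over the field of
fractions `K`. (1) There is `R ≠ 0` in the variables `x_1, ..., x_n` in the ideal generated by the
`P_i`. (2) The coefficients of the `P_i` as polynomials in `x_0` (with coefficients polynomials in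
`x_1, ..., x_n`) have no common nonunit factor over `K`.
Proof. `finSuccEquiv` identifies `O[x_0..x_n]` with `A[t]`, `A = O[x_1..x_n]`, and the same over
`K` with `B[t]`, `B = K[x_1..x_n]`, a unique factorization domain; `L` its field of fractions.
(2) A common factor `q ∈ B` of all the coefficients divides all the `P_i` in `B[t]`, so it is a
unit of `B[t]`, hence of `B` (`Polynomial.isUnit_C`).
(1) Let `g ∈ L[t]` be a generator of the ideal of `L[t]` generated by the `P_i`. If `g` is a unit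
then `1 = ∑ u_i P_i` with `u_i ∈ L[t]`; clear denominators (first to `B`, then to `A`): some
nonzero `R ∈ A` is `∑ U_i P_i`. If `g` is zero then all the `P_i` vanish, and `0` (or `X 0`) is a
common nonunit factor, a contradiction. Otherwise `g` is not constant; multiply it by a constant of
`L` so that it is a primitive polynomial of `B[t]` (`Polynomial.IsPrimitive`, `IsIntegrallyClosed`
or `NormalizedGCDMonoid`: `Polynomial.primPart`, `IsLocalization.integerNormalization`). As `g`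
divides `P_i` in `L[t]` and is primitive, it divides `P_i` in `B[t]` (Gauss,
`Polynomial.IsPrimitive.dvd_of_fraction_map_dvd_fraction_map` or `...dvd_iff...`), a common factor
of positive degree, not a unit: contradiction. -/
def P_SJ : Prop := ∀ {O K : Type} [CommRing O] [IsDomain O] [Field K] [Algebra O K]
  [IsFractionRing O K] (n : ℕ) {κ : Type} [Fintype κ] (P : κ → MvPolynomial (Fin (n + 1)) O),
  (∀ Q : MvPolynomial (Fin (n + 1)) K, (∀ i, Q ∣ map (algebraMap O K) (P i)) → IsUnit Q) →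
  (∃ R : MvPolynomial (Fin n) O, R ≠ 0 ∧ rename Fin.succ R ∈ Ideal.span (Set.range P)) ∧
  (∀ Q : MvPolynomial (Fin n) K,
    (∀ i l, Q ∣ map (algebraMap O K) ((finSuccEquiv O n (P i)).coeff l)) → IsUnit Q)

/-- SK (EKEDAHL LEMMA). Let `P_i`, `i : κ`, be finitely many polynomials over `𝓞 K` in `n`
variables without common nonunit factor over `K`. The proportion of the `g` for which all the
`P_i(a₀ + W g)` are in one `𝔭` as in `Far M W` is at most `C / M`.
Proof. Induction on `n`, with SH and SJ. `n = 0`: the `P_i` are constants `c_i`, not all zero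
(otherwise `0` is a common factor and not a unit); let `c_i ≠ 0`. If all are in `𝔭` then the prime
number in `𝔭` divides `N(c_i)`; so for `M ≥ |N(c_i)|` no `𝔭` exists, and for smaller `M` use
`C = |N(c_i)|`. `n + 1`: let `R` be as in SJ (1) and let `C₂` be the constant for the family of all
the coefficients `Q_{i,l} = (finSuccEquiv (P_i)).coeff l`, `l ≤ ` the maximum `D` of the degrees, in
`n` variables (SJ (2) and the induction hypothesis; the `g` whose last `n` coordinates `g'` are bad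
for this family: the proportion is the same as for `g'`, since `boxJ` for `Fin (n+1)` is the
product of the box and `boxJ` for `Fin n`). The other `g` for which all `P_i(a) ∈ 𝔭`,
`a = a₀ + W g`: not all the `Q_{i,l}(a')` are in this `𝔭`, where `a' = (a_1..a_n)`. Put
`Bad a 𝔭 :=` all `P_i(a) ∈ 𝔭`, and some `Q_{i,l}(a') ∉ 𝔭`. It implies `R(a') ∈ 𝔭`. For given `a'`
and `𝔭` let `P_i(a', t)` be nonzero modulo `𝔭`; it has at most `D` roots modulo `𝔭`, so `c = a_0` is
congruent to one of `D` elements. By SH (with `J = Fin (n+1)`, `i₀ = 0`, `R` renamed by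
`Fin n ≃ {j // j ≠ 0}`) the proportion is at most `C₃/M`. Take `C = C₂ + C₃`. -/
def P_SK : Prop := ∀ {K ι : Type} [Field K] [NumberField K] [Fintype ι]
  (ω : Module.Basis ι ℤ (𝓞 K)) (n : ℕ) {κ : Type} [Fintype κ]
  (P : κ → MvPolynomial (Fin n) (𝓞 K)),
  (∀ Q : MvPolynomial (Fin n) K, (∀ i, Q ∣ map (algebraMap (𝓞 K) K) (P i)) → IsUnit Q) →
  ∃ C : ℝ, Rare ω (Fin n) C fun M W a₀ g =>
    ∃ 𝔭 : Ideal (𝓞 K), Far M W 𝔭 ∧ ∀ i, eval (pt a₀ W g) (P i) ∈ 𝔭

/-- SL (EKEDAHL LEMMA, arbitrary variables). As SK with an arbitrary finite set `J` of variables.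
Proof. Transport along `Fintype.equivFin J`: `rename` is an isomorphism of polynomial rings, and
`boxJ ω J H` is in bijection with `boxJ ω (Fin (card J)) H`. -/
def P_SL : Prop := ∀ {K ι J : Type} [Field K] [NumberField K] [Fintype ι] [Fintype J]
  (ω : Module.Basis ι ℤ (𝓞 K)) {κ : Type} [Fintype κ] (P : κ → MvPolynomial J (𝓞 K)),
  (∀ Q : MvPolynomial J K, (∀ i, Q ∣ map (algebraMap (𝓞 K) K) (P i)) → IsUnit Q) →
  ∃ C : ℝ, Rare ω J C fun M W a₀ g =>
    ∃ 𝔭 : Ideal (𝓞 K), Far M W 𝔭 ∧ ∀ i, eval (pt a₀ W g) (P i) ∈ 𝔭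

/-- SM (SIEVE). Let `Δ_i`, `i : κ`, be finitely many polynomials over `𝓞 K` in the variables `J`
without common nonunit factor over `K`. For each `i` let `v i ∈ J`, let `R_i ≠ 0` be a polynomial
which does not involve the variable `v i`, and `B_i a 𝔭` a property which implies `R_i(a) ∈ 𝔭` and
holds, for given `a` and maximal `𝔭` and varying coordinate `v i` of `a`, only in at most `m`
residue classes. The proportion of the `g` for which there is `𝔭` as in `Far M W` such that for all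
`i` either `Δ_i(a₀ + W g) ∈ 𝔭` or `B_i (a₀ + W g) 𝔭`, is at most `C / M`.
Proof. Either all `Δ_i(a) ∈ 𝔭` (SL), or `B_i a 𝔭` for some `i` (SH for each `i`). The proportion is
at most the sum of the proportions (`Finset.card_union_le`, a sum over the finite set `κ`). -/
def P_SM : Prop := ∀ {K ι J : Type} [Field K] [NumberField K] [Fintype ι] [Fintype J]
  (ω : Module.Basis ι ℤ (𝓞 K)) {κ : Type} [Fintype κ] (Δ : κ → MvPolynomial J (𝓞 K)),
  (∀ Q : MvPolynomial J K, (∀ i, Q ∣ map (algebraMap (𝓞 K) K) (Δ i)) → IsUnit Q) →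
  ∀ (v : κ → J) (R : ∀ i, MvPolynomial {j : J // j ≠ v i} (𝓞 K)), (∀ i, R i ≠ 0) →
  ∀ (m : ℕ) (B : κ → (J → 𝓞 K) → Ideal (𝓞 K) → Prop),
  (∀ i a 𝔭, B i a 𝔭 → eval (fun j => a j.1) (R i) ∈ 𝔭) →
  (∀ i a 𝔭, 𝔭.IsMaximal → ∃ Z : Finset (𝓞 K), Z.card ≤ m ∧
    ∀ c, B i (Function.update a (v i) c) 𝔭 → ∃ z ∈ Z, c - z ∈ 𝔭) →
  ∃ C : ℝ, Rare ω J C fun M W a₀ g => ∃ 𝔭 : Ideal (𝓞 K), Far M W 𝔭 ∧
    ∀ i, eval (pt a₀ W g) (Δ i) ∈ 𝔭 ∨ B i (pt a₀ W g) 𝔭

end Pool.Agent.Q46.ND
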