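import Pool.Agent.Q46.ND.Tr
import Pool.Agent.Q46.ND.N2
import Pool.Agent.Q285.ND.N1
import Pool.Agent.Q46.ND.Ek
import Pool.Agent.Q40.OD.Asm1
import Pool.Agent.TH214.RM.Base

/-! Project ND/OD (helper46): the counting statements with inverted primes, and the models. -/

set_option autoImplicit false
set_option linter.unusedSectionVars false

open MvPolynomial NumberField
open scoped Classical

namespace Pool.Agent.Q46.ND

open Pool.Agent.TH214.RM Pool.Agent.Q40.OD Pool.Agent.H918R2.Quad Pool.Agent.W418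

/-- Regularity is stable under localization. -/
theorem crit_away {O R ι : Type} [CommRing O] [CommRing R] [Algebra O R] [DecidableEq ι]
    (M : Submonoid O) [IsLocalization M R] (hinj : Function.Injective (algebraMap O R))
    (𝔓 : Ideal R) (G : MvPolynomial ι O) (h : Crit (𝔓.comap (algebraMap O R)) G) :
    Crit 𝔓 (map (algebraMap O R) G) := by
  intro s Q hQ hlie hG
  set φ : MvPolynomial {j : ι // j ≠ s} O →+* MvPolynomial {j : ι // j ≠ s} R :=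
    map (algebraMap O R) with hφ
  have hφi : Function.Injective φ := map_injective _ hinj
  have hp : (Q.comap φ).IsPrime := Ideal.comap_isPrime _ _
  have hC : ∀ r : O, C r ∈ Q.comap φ ↔ r ∈ 𝔓.comap (algebraMap O R) := by
    intro r
    rw [Ideal.mem_comap, hφ, map_C, hlie, Ideal.mem_comap]
  have hs : ∀ r : O, r ∈ M → (C (algebraMap O R r) : MvPolynomial _ R) ∉ Q := by
    intro r hr h1
    refine hQ.ne_top (Ideal.eq_top_of_isUnit_mem _ h1 ?_)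
    exact (IsLocalization.map_units R (⟨r, hr⟩ : M)).map C
  have hdeh : φ (deh s G) = deh s (map (algebraMap O R) G) := map_deh _ _ _
  have hE : deh s G ∈ Q.comap φ := by
    rw [Ideal.mem_comap, hdeh]
    exact hG
  rcases h s (Q.comap φ) hp hC hE with ⟨j, hj⟩ | h1
  · left
    refine ⟨j, fun h2 => hj ?_⟩
    rw [Ideal.mem_comap, hφ, ← pderiv_map, ← hφ, hdeh]
    exact h2
  · right
    intro f hf hfQ
    obtain ⟨a, ha, y, hy⟩ := clear_poly M f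
    obtain ⟨b, hb, z, hz, hbz⟩ := clear_sq M Q _ hfQ
    have hy1 : y ∉ Q.comap φ := by
      intro h2
      rw [Ideal.mem_comap, hφ, hy] at h2
      rcases hQ.mem_or_mem h2 with h3 | h3
      · exact hs a ha h3
      · exact hf h3
    have hb1 : C b * y ∉ Q.comap φ := by
      intro h2
      rcases hp.mem_or_mem h2 with h3 | h3
      · rw [Ideal.mem_comap, hφ, map_C] at h3
        exact hs b hb h3
      · exact hy1 h3
    refine h1 _ hb1 ?_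
    have h4 : C b * y * deh s G = C a * z := by
      apply hφi
      rw [map_mul, map_mul, map_mul, hφ, hy, hbz, ← hφ, hdeh, hφ, map_C, map_C]
      ring
    rw [h4]
    exact Ideal.mul_mem_left _ _ hz

section count

variable {K ι : Type} [Field K] [NumberField K] [Fintype ι] (ω : Module.Basis ι ℤ (𝓞 K))

theorem mono_count (n d H : ℕ) (c : ℝ) (P P' : MvPolynomial (Fin (n + 2)) (𝓞 K) → Prop)
    (h : ∀ F, F.IsHomogeneous d → P F → P' F)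
    (h1 : c * ((formsX ω n d H).ncard : ℝ) ≤ ({F ∈ formsX ω n d H | P F}.ncard : ℝ)) :
    c * ((formsX ω n d H).ncard : ℝ) ≤ ({F ∈ formsX ω n d H | P' F}.ncard : ℝ) := by
  refine h1.trans ?_
  rw [Nat.cast_le, ncard_formsX ω t_N2, ncard_formsX ω t_N2]
  refine Finset.card_le_card fun g hg => ?_
  simp only [Finset.mem_filter] at hg ⊢
  exact ⟨hg.1, h _ (Pool.Agent.Q38.OD.form_hom n d g) hg.2⟩

/-- The two counting statements. -/
theorem uni_counts (n d : ℕ) (hd : 2 ≤ d) :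
    ∃ C₀ : ℝ, ∀ M N : ℕ, 1 ≤ M →
      ∀ F₀ : MvPolynomial (Fin (n + 2)) (𝓞 K), F₀.IsHomogeneous d →
      (∀ k : ℕ, (∀ 𝔭 : Ideal (𝓞 K), 𝔭.IsPrime → ((M.factorial : ℕ) : 𝓞 K) ∈ 𝔭 →
          (N : 𝓞 K) ∉ 𝔭 → 1 ≤ k ∧ Nondeg 𝔭 F₀) →
        ∃ H₀ : ℕ, ∀ H : ℕ, H₀ ≤ H → (1 - C₀ / M) * ((formsX ω n d H).ncard : ℝ) ≤
        ({G ∈ formsX ω n d H |
          Smooth (map (algebraMap (𝓞 K) K) (F₀ + C (((M.factorial : ℕ) : 𝓞 K) ^ k) * G)) ∧
          NdOut (N : 𝓞 K) (F₀ + C (((M.factorial : ℕ) : 𝓞 K) ^ k) * G)}.ncard : ℝ)) ∧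
      ((∀ 𝔭 : Ideal (𝓞 K), 𝔭.IsPrime → ((M.factorial : ℕ) : 𝓞 K) ∈ 𝔭 → (N : 𝓞 K) ∉ 𝔭 →
          GoodAt 𝔭 (map (algebraMap (𝓞 K) K) F₀)) →
        ∃ k₀ : ℕ, ∀ k : ℕ, k₀ ≤ k →
        ∃ H₀ : ℕ, ∀ H : ℕ, H₀ ≤ H → (1 - C₀ / M) * ((formsX ω n d H).ncard : ℝ) ≤
        ({G ∈ formsX ω n d H |
          Smooth (map (algebraMap (𝓞 K) K) (F₀ + C (((M.factorial : ℕ) : 𝓞 K) ^ k) * G)) ∧
          ∀ 𝔭 : Ideal (𝓞 K), 𝔭.IsPrime → 𝔭 ≠ ⊥ → (N : 𝓞 K) ∉ 𝔭 → GoodAt 𝔭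
            (map (algebraMap (𝓞 K) K)
            (F₀ + C (((M.factorial : ℕ) : 𝓞 K) ^ k) * G))}.ncard : ℝ)) := by
  have hSA : P_SA := Pool.Agent.Q195.ND.t_SA
  obtain ⟨C₀, hC₀, h⟩ := core_forms ω hSA t_SL Pool.Agent.Q195.ND.t_SI t_N2 n d hd
  refine ⟨C₀, fun M N hM F₀ hF₀ => ⟨?_, ?_⟩⟩
  · intro k hnd
    obtain ⟨H₀, hH₀⟩ := Filter.eventually_atTop.1 (h M k hM F₀ hF₀)
    refine ⟨H₀, fun H hH => mono_count ω n d H _ _ _ (fun G _ hp => ⟨hp.1, ?_⟩) (hH₀ H hH)⟩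
    intro 𝔭 hp𝔭 h0 hN
    by_cases hMp : ((M.factorial : ℕ) : 𝓞 K) ∈ 𝔭
    · obtain ⟨hk, hnd'⟩ := hnd 𝔭 hp𝔭 hMp hN
      exact nondeg_add 𝔭 F₀ _ _ (Ideal.pow_mem_of_mem 𝔭 hMp k hk) hnd'
    · exact hp.2 𝔭 hp𝔭 h0 hMp
  · intro hgood
    have hMspan : Ideal.span {((M.factorial : ℕ) : 𝓞 K)} ≠ ⊥ := by
      rw [Ne, Ideal.span_singleton_eq_bot]
      exact factorial_ne_zero' M
    let S : Finset (Ideal (𝓞 K)) :=
      (UniqueFactorizationMonoid.normalizedFactors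
        (Ideal.span {((M.factorial : ℕ) : 𝓞 K)})).toFinset
    have hS : ∀ 𝔭, 𝔭 ∈ S ↔ 𝔭.IsPrime ∧ ((M.factorial : ℕ) : 𝓞 K) ∈ 𝔭 := by
      intro 𝔭
      rw [Multiset.mem_toFinset, Ideal.mem_normalizedFactors_iff hMspan,
        Ideal.span_singleton_le_iff_mem]
    have hex : ∀ 𝔭 : Ideal (𝓞 K), ∃ k₀ : ℕ, 𝔭.IsPrime → ((M.factorial : ℕ) : 𝓞 K) ∈ 𝔭 →
        (N : 𝓞 K) ∉ 𝔭 →
        ∀ k : ℕ, k₀ ≤ k → ∀ G : MvPolynomial (Fin (n + 2)) (𝓞 K), G.IsHomogeneous d →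
          GoodAt 𝔭 (map (algebraMap (𝓞 K) K)
            (F₀ + C (((M.factorial : ℕ) : 𝓞 K) ^ k) * G)) := by
      intro 𝔭
      by_cases hp : 𝔭.IsPrime ∧ ((M.factorial : ℕ) : 𝓞 K) ∈ 𝔭 ∧ (N : 𝓞 K) ∉ 𝔭
      · have h0 : 𝔭 ≠ ⊥ := by
          rintro rfl
          exact factorial_ne_zero' M (Ideal.mem_bot.1 hp.2.1)
        obtain ⟨k₀, hk₀⟩ := Pool.Agent.Q285.ND.t_N1 𝔭 hp.1 h0 _ hp.2.1 F₀ hF₀
          (hgood 𝔭 hp.1 hp.2.1 hp.2.2)
        exact ⟨k₀, fun _ _ _ => hk₀⟩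
      · exact ⟨0, fun h1 h2 h3 => absurd ⟨h1, h2, h3⟩ hp⟩
    choose k₁ hk₁ using hex
    refine ⟨S.sup k₁, fun k hk => ?_⟩
    obtain ⟨H₀, hH₀⟩ := Filter.eventually_atTop.1 (h M k hM F₀ hF₀)
    refine ⟨H₀, fun H hH => mono_count ω n d H _ _ _ (fun G hG hp => ⟨hp.1, ?_⟩) (hH₀ H hH)⟩
    intro 𝔭 hp𝔭 h0 hN
    by_cases hMp : ((M.factorial : ℕ) : 𝓞 K) ∈ 𝔭
    · exact hk₁ 𝔭 hp𝔭 hMp hN k ((Finset.le_sup ((hS 𝔭).2 ⟨hp𝔭, hMp⟩)).trans hk) G hG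
    · exact goodAt_of 𝔭 _ (Or.inr (hp.2 𝔭 hp𝔭 h0 hMp))

theorem pos_count (n d : ℕ) (hd : 3 ≤ d) :
    ∃ c : ℝ, 0 < c ∧ ∃ H₀ : ℕ, ∀ H : ℕ, H₀ ≤ H → c * ((formsX ω n d H).ncard : ℝ) ≤
      ({F ∈ formsX ω n d H | Smooth (map (algebraMap (𝓞 K) K) F) ∧ NdOut 1 F}.ncard : ℝ) := by
  have hSA : P_SA := Pool.Agent.Q195.ND.t_SA
  obtain ⟨c, hc, h⟩ := positive' ω hSA t_SL Pool.Agent.Q195.ND.t_SI t_N2 n d hd
  exact ⟨c, hc, Filter.eventually_atTop.1 h⟩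

end count

/-- The local condition over the ring of integers with `N` inverted. -/
theorem locGood_away' {K : Type} [Field K] [NumberField K] {n : ℕ} (N : ℕ) (hN : N ≠ 0)
    (F : MvPolynomial (Fin (n + 2)) (𝓞 K))
    (hF : ∀ 𝔭 : Ideal (𝓞 K), 𝔭.IsPrime → 𝔭 ≠ ⊥ → (N : 𝓞 K) ∉ 𝔭 →
      GoodAt 𝔭 (map (algebraMap (𝓞 K) K) F))
    (R : Type) [CommRing R] [Algebra (𝓞 K) R] [Algebra R K] [IsScalarTower (𝓞 K) R K]
    [IsLocalization.Away ((N : ℕ) : 𝓞 K) R] :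
    LocGood R (map (algebraMap (𝓞 K) K) F) := by
  have hN0 : ((N : ℕ) : 𝓞 K) ≠ 0 := by
    rw [Nat.cast_ne_zero]
    exact hN
  have hle : Submonoid.powers ((N : ℕ) : 𝓞 K) ≤ nonZeroDivisors (𝓞 K) :=
    powers_le_nonZeroDivisors_of_noZeroDivisors hN0
  have hdom : IsDomain R := IsLocalization.isDomain_of_le_nonZeroDivisors R hle
  have hinj : Function.Injective (algebraMap (𝓞 K) R) := IsLocalization.injective R hle
  intro 𝔓 hp h0
  have hc0 : 𝔓.comap (algebraMap (𝓞 K) R) ≠ ⊥ := by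
    intro h
    apply h0
    rw [eq_bot_iff]
    intro y hy
    obtain ⟨⟨a, s⟩, hs⟩ := IsLocalization.surj
      (Submonoid.powers ((N : ℕ) : 𝓞 K)) y
    have h1 : a ∈ 𝔓.comap (algebraMap (𝓞 K) R) := by
      rw [Ideal.mem_comap]
      change algebraMap (𝓞 K) R (a, s).1 ∈ 𝔓
      rw [← hs]
      exact 𝔓.mul_mem_right _ hy
    rw [h, Ideal.mem_bot] at h1
    have h2 : y * algebraMap (𝓞 K) R (s : 𝓞 K) = 0 := by
      have h3 : y * algebraMap (𝓞 K) R ((a, s).2 : 𝓞 K) = algebraMap (𝓞 K) R (a, s).1 := hs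
      simp only [h1, map_zero] at h3
      exact h3
    rcases mul_eq_zero.1 h2 with h3 | h3
    · rw [h3]
      exact Ideal.zero_mem _
    · exact absurd h3 (IsLocalization.map_units R s).ne_zero
  have hNp : (N : 𝓞 K) ∉ 𝔓.comap (algebraMap (𝓞 K) R) := by
    intro h
    rw [Ideal.mem_comap, map_natCast] at h
    have hunit : IsUnit ((N : ℕ) : R) := by
      have h2 : IsUnit (algebraMap (𝓞 K) R ((N : ℕ) : 𝓞 K)) :=
        IsLocalization.Away.algebraMap_isUnit _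
      rwa [map_natCast] at h2
    exact hp.ne_top (Ideal.eq_top_of_isUnit_mem _ h hunit)
  obtain ⟨H, l, T, T', hl, hT, hH, hor⟩ := hF _ (Ideal.comap_isPrime (algebraMap (𝓞 K) R) 𝔓) hc0 hNp
  refine ⟨map (algebraMap (𝓞 K) R) H, l, T, T', hl, hT, ?_, ?_⟩
  · rw [MvPolynomial.map_map, ← IsScalarTower.algebraMap_eq]
    exact hH
  · rcases hor with hor | hor
    · exact Or.inl (crit_away (Submonoid.powers ((N : ℕ) : 𝓞 K)) hinj 𝔓 H hor)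
    · exact Or.inr (nondeg_map _ 𝔓 H hor)

open AlgebraicGeometry CategoryTheory CategoryTheory.Limits

/-- The models over a Dedekind domain. -/
theorem model_of {R E : Type} [CommRing R] [IsDedekindDomain R] [Field E] [Algebra R E]
    [IsFractionRing R E] {n : ℕ} (hn : 1 ≤ n) (G : MvPolynomial (Fin (n + 2)) E) (d : ℕ)
    (hd : 2 ≤ d) (hG : G.IsHomogeneous d) (hsm : Smooth G) (hloc : LocGood R G)
    (B : Type) [CommRing B] [Algebra E B]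
    (π : MvPolynomial (Fin (n + 2)) E →ₐ[E] B) (hπ : Function.Surjective π)
    (hker : RingHom.ker π = Ideal.span {G})
    (ℬ : ℕ → Submodule E B) [GradedAlgebra ℬ]
    (hℬ : ∀ d, ℬ d = (homogeneousSubmodule (Fin (n + 2)) E d).map π.toLinearMap)
    (X : Scheme.{0}) (f : X ⟶ Spec (CommRingCat.of E)) (i : X ≅ Proj ℬ)
    (hi : i.hom ≫ Proj.toSpecZero ℬ ≫ Spec.map (CommRingCat.ofHom (algebraMap E (ℬ 0))) = f) :
    ∃ (Y : Scheme.{0}) (g : Y ⟶ Spec (CommRingCat.of R)), IsProper g ∧ Flat g ∧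
    (∀ y : Y, ringKrullDim (Y.presheaf.stalk y) =
      (((Module.finrank (IsLocalRing.ResidueField (Y.presheaf.stalk y))
          (IsLocalRing.CotangentSpace (Y.presheaf.stalk y)) : ℕ) : ℕ∞) : WithBot ℕ∞)) ∧
    ∃ e : pullback g (Spec.map (CommRingCat.ofHom (algebraMap R E))) ≅ X,
      e.hom ≫ f = pullback.snd g (Spec.map (CommRingCat.ofHom (algebraMap R E))) :=
  od_model_O hn G d hd hG hsm hloc π hπ hker ℬ hℬ f i hi

end Pool.Agent.Q46.ND
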